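import Pool.Agent.D0H82.SR.B
import Pool.Agent.H510R2.Div

set_option autoImplicit false

/-! Counting tuples; the sum over the off-diagonal terms. -/

namespace Pool.Agent.D0H82.SR

open Complex Filter Topology MeasureTheory Set
open Pool.Agent.TH612.GS

noncomputable section

variable {k : ℕ}

/-- powers of the logarithm -/
lemma logpow (k : ℕ) {ε : ℝ} (hε : 0 < ε) : ∃ C : ℝ, 0 < C ∧ ∀ x : ℝ, 1 ≤ x →
    (1 + Real.log x) ^ k ≤ C * x ^ ε := by
  set δ : ℝ := ε / (k + 1) with hδ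
  have hδ0 : 0 < δ := by positivity
  refine ⟨(1 + 1 / δ) ^ k, by positivity, fun x hx => ?_⟩
  have hx0 : 0 < x := by linarith
  have h1 : Real.log x ≤ x ^ δ / δ := Real.log_le_rpow_div hx0.le hδ0
  have h2 : 1 ≤ x ^ δ := Real.one_le_rpow hx hδ0.le
  have h3 : 1 + Real.log x ≤ (1 + 1 / δ) * x ^ δ := by
    have : (1 + 1 / δ) * x ^ δ = x ^ δ + x ^ δ / δ := by ring
    rw [this]
    linarith
  have h4 : 0 ≤ 1 + Real.log x := by have := Real.log_nonneg hx; linarith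
  calc (1 + Real.log x) ^ k ≤ ((1 + 1 / δ) * x ^ δ) ^ k := pow_le_pow_left₀ h4 h3 k
    _ = (1 + 1 / δ) ^ k * x ^ (δ * k) := by
        rw [mul_pow, ← Real.rpow_natCast (x ^ δ), ← Real.rpow_mul hx0.le]
    _ ≤ _ := by
        refine mul_le_mul_of_nonneg_left (Real.rpow_le_rpow_of_exponent_le hx ?_) (by positivity)
        rw [hδ, div_mul_eq_mul_div, div_le_iff₀ (by positivity)]
        nlinarith

/-- number of tuples with a given product -/
lemma card_fiber (k X n : ℕ) (hn : 1 ≤ n) :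
    (((bx k X).filter fun b => ∏ l, b l = n).card : ℝ) ≤ (n.divisors.card : ℝ) ^ k := by
  have h1 : ((bx k X).filter fun b => ∏ l, b l = n) ⊆ Nat.finMulAntidiag k n := by
    intro b hb
    rw [Nat.mem_finMulAntidiag]
    exact ⟨(Finset.mem_filter.1 hb).2, by omega⟩
  have h2 : (Nat.finMulAntidiag k n).card ≤ n.divisors.card ^ k := by
    rw [Nat.finMulAntidiag_eq_piFinset_divisors_filter dvd_rfl (by omega : n ≠ 0)]
    refine (Finset.card_filter_le _ _).trans ?_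
    rw [Fintype.card_piFinset]
    simp
  exact_mod_cast (Finset.card_le_card h1).trans h2

lemma divpow (k : ℕ) {ε : ℝ} (hε : 0 < ε) : ∃ C : ℝ, 0 < C ∧ ∀ n : ℕ, 1 ≤ n →
    (n.divisors.card : ℝ) ^ k ≤ C * (n : ℝ) ^ ε := by
  obtain ⟨C, hC0, hC⟩ := Pool.Agent.H510R2.divisor_bound (ε / (k + 1)) (by positivity)
  refine ⟨C ^ k, by positivity, fun n hn => ?_⟩
  have hn0 : (0:ℝ) ≤ n := by positivity
  have hn1 : (1:ℝ) ≤ n := by exact_mod_cast hn
  calc (n.divisors.card : ℝ) ^ k ≤ (C * (n : ℝ) ^ (ε / (k + 1))) ^ k := by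
        gcongr
        exact hC n hn
    _ = C ^ k * (n : ℝ) ^ (ε / (k + 1) * k) := by
        rw [mul_pow, ← Real.rpow_natCast ((n:ℝ) ^ _), ← Real.rpow_mul hn0]
    _ ≤ _ := by
        refine mul_le_mul_of_nonneg_left (Real.rpow_le_rpow_of_exponent_le hn1 ?_) (by positivity)
        rw [div_mul_eq_mul_div, div_le_iff₀ (by positivity)]
        nlinarith

lemma harm (X : ℕ) : ∑ n ∈ Finset.Icc 1 X, ((n : ℕ) : ℝ)⁻¹ ≤ 1 + Real.log X := by
  have h := harmonic_le_one_add_log X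
  rw [harmonic_eq_sum_Icc] at h
  push_cast at h
  exact h

lemma off_inner (A Y : ℕ) : ∑ n ∈ Finset.Icc (A + 1) Y, ((n : ℝ) - A)⁻¹ ≤ 1 + Real.log Y := by
  rcases Nat.lt_or_ge Y (A + 1) with h | h
  · rw [Finset.Icc_eq_empty (by omega), Finset.sum_empty]
    have : 0 ≤ Real.log Y := Real.log_natCast_nonneg Y
    linarith
  · have h1 : ∑ n ∈ Finset.Icc (A + 1) Y, ((n : ℝ) - A)⁻¹ = ∑ n ∈ Finset.Icc 1 (Y - A), ((n : ℕ) : ℝ)⁻¹ := by
      refine Finset.sum_nbij' (fun n => n - A) (fun n => n + A) ?_ ?_ ?_ ?_ ?_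
      · intro n hn; rw [Finset.mem_Icc] at hn ⊢; omega
      · intro n hn; rw [Finset.mem_Icc] at hn ⊢; omega
      · intro n hn; rw [Finset.mem_Icc] at hn; omega
      · intro n hn; omega
      · intro n hn
        rw [Finset.mem_Icc] at hn
        rw [Nat.cast_sub (by omega)]
    rw [h1]
    refine (harm _).trans ?_
    have h2 : Real.log ((Y - A : ℕ) : ℝ) ≤ Real.log Y := by
      refine Real.log_le_log ?_ ?_
      · exact_mod_cast (by omega : 0 < Y - A)
      · exact_mod_cast (by omega : Y - A ≤ Y)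
    linarith

lemma prod_le_pow {X : ℕ} {b : Fin k → ℕ} (hb : b ∈ bx k X) : ∏ l, b l ≤ X ^ k := by
  have := Finset.prod_le_pow_card Finset.univ (fun j : Fin k => b j) X
    fun j _ => (Finset.mem_Icc.1 ((Fintype.mem_piFinset.1 hb) j)).2
  simpa using this

lemma prod_pos {X : ℕ} {b : Fin k → ℕ} (hb : b ∈ bx k X) : 1 ≤ ∏ l, b l := by
  have h : 0 < ∏ l, b l :=
    Finset.prod_pos fun l _ => (Finset.mem_Icc.1 ((Fintype.mem_piFinset.1 hb) l)).1
  exact h

lemma sum_inv_bx (k X : ℕ) :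
    ∑ n ∈ bx k X, (((∏ l, n l : ℕ) : ℝ))⁻¹ ≤ (1 + Real.log X) ^ k := by
  have h1 : ∀ n ∈ bx k X, (((∏ l, n l : ℕ) : ℝ))⁻¹ = ∏ l, ((n l : ℕ) : ℝ)⁻¹ := by
    intro n _
    push_cast
    rw [Finset.prod_inv_distrib]
  rw [Finset.sum_congr rfl h1]
  unfold bx
  rw [← Finset.prod_univ_sum (fun _ : Fin k => Finset.Icc 1 X) (fun _ m => ((m : ℕ) : ℝ)⁻¹),
    Finset.prod_const, Finset.card_univ, Fintype.card_fin]
  exact pow_le_pow_left₀ (Finset.sum_nonneg fun m _ => by positivity) (harm X) k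

/-- the off-diagonal sum -/
lemma off_sum (k : ℕ) {ε : ℝ} (hε : 0 < ε) : ∃ C : ℝ, 0 < C ∧ ∀ X : ℕ, 1 ≤ X →
    ∑ a ∈ bx k X, ∑ b ∈ (bx k X).filter (fun b => ∏ l, a l < ∏ l, b l),
      (((∏ l, a l : ℕ) : ℝ) * (((∏ l, b l : ℕ) : ℝ) - ((∏ l, a l : ℕ) : ℝ)))⁻¹ ≤ C * (X : ℝ) ^ ε := by
  set δ : ℝ := ε / (3 * (k + 1)) with hδ
  have hδ0 : 0 < δ := by positivity
  obtain ⟨C1, hC1, h1⟩ := divpow k hδ0
  obtain ⟨C2, hC2, h2⟩ := logpow 1 hδ0
  obtain ⟨C3, hC3, h3⟩ := logpow k (ε := ε / 3) (by positivity)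
  refine ⟨C3 * (C1 * C2), by positivity, fun X hX => ?_⟩
  have hX1 : (1:ℝ) ≤ X := by exact_mod_cast hX
  have hX0 : (0:ℝ) < X := by linarith
  have hY1 : (1:ℝ) ≤ ((X ^ k : ℕ) : ℝ) := by exact_mod_cast Nat.one_le_pow _ _ hX
  have hin : ∀ a ∈ bx k X, ∑ b ∈ (bx k X).filter (fun b => ∏ l, a l < ∏ l, b l),
      (((∏ l, b l : ℕ) : ℝ) - ((∏ l, a l : ℕ) : ℝ))⁻¹ ≤
      C1 * C2 * (X : ℝ) ^ (2 * ε / 3) := by
    intro a ha
    set A := ∏ l, a l with hA
    rw [← Finset.sum_fiberwise_of_maps_to (g := fun b : Fin k → ℕ => ∏ l, b l)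
      (t := Finset.Icc (A + 1) (X ^ k)) (fun b hb => ?_)]
    · have h4 : ∀ n ∈ Finset.Icc (A + 1) (X ^ k),
          ∑ b ∈ ((bx k X).filter fun b => A < ∏ l, b l).filter (fun b => ∏ l, b l = n),
            (((∏ l, b l : ℕ) : ℝ) - (A : ℝ))⁻¹ ≤ C1 * ((X ^ k : ℕ) : ℝ) ^ δ * ((n : ℝ) - A)⁻¹ := by
        intro n hn
        rw [Finset.mem_Icc] at hn
        have hn1 : 1 ≤ n := by omega
        have h5 : ∀ b ∈ ((bx k X).filter fun b => A < ∏ l, b l).filter (fun b => ∏ l, b l = n),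
            (((∏ l, b l : ℕ) : ℝ) - (A : ℝ))⁻¹ = ((n : ℝ) - A)⁻¹ := by
          intro b hb
          rw [(Finset.mem_filter.1 hb).2]
        rw [Finset.sum_congr rfl h5, Finset.sum_const, nsmul_eq_mul]
        have h6 : (0:ℝ) ≤ ((n : ℝ) - A)⁻¹ := by
          rw [inv_nonneg, sub_nonneg]
          exact_mod_cast (by omega : A ≤ n)
        refine mul_le_mul_of_nonneg_right ?_ h6
        have h7 : ((((bx k X).filter fun b => A < ∏ l, b l).filter (fun b => ∏ l, b l = n)).card : ℝ) ≤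
            (((bx k X).filter fun b => ∏ l, b l = n).card : ℝ) := by
          exact_mod_cast Finset.card_le_card (Finset.filter_subset_filter _ (Finset.filter_subset _ _))
        refine h7.trans ((card_fiber k X n hn1).trans ((h1 n hn1).trans ?_))
        gcongr
        exact hn.2
      refine (Finset.sum_le_sum h4).trans ?_
      rw [← Finset.mul_sum]
      have h8 := off_inner A (X ^ k)
      have h9 := h2 _ hY1
      rw [pow_one] at h9
      calc C1 * ((X ^ k : ℕ) : ℝ) ^ δ * ∑ n ∈ Finset.Icc (A + 1) (X ^ k), ((n : ℝ) - A)⁻¹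
          ≤ C1 * ((X ^ k : ℕ) : ℝ) ^ δ * (C2 * ((X ^ k : ℕ) : ℝ) ^ δ) := by
            gcongr
            exact h8.trans h9
        _ = C1 * C2 * (X : ℝ) ^ (2 * δ * k) := by
            push_cast
            rw [← Real.rpow_natCast (X:ℝ) k, ← Real.rpow_mul hX0.le]
            have : (X:ℝ) ^ (2 * δ * k) = (X:ℝ) ^ (k * δ) * (X:ℝ) ^ (k * δ) := by
              rw [← Real.rpow_add hX0]
              congr 1
              ring
            rw [this]
            ring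
        _ ≤ _ := by
            refine mul_le_mul_of_nonneg_left (Real.rpow_le_rpow_of_exponent_le hX1 ?_) (by positivity)
            rw [hδ]
            have hk : (0:ℝ) ≤ k := by positivity
            rw [mul_div_assoc', div_mul_eq_mul_div, div_le_div_iff₀ (by positivity) (by norm_num)]
            nlinarith
    · obtain ⟨h4, h5⟩ := Finset.mem_filter.1 hb
      rw [Finset.mem_Icc]
      exact ⟨h5, prod_le_pow h4⟩
  calc _ ≤ ∑ a ∈ bx k X, (((∏ l, a l : ℕ) : ℝ))⁻¹ * (C1 * C2 * (X : ℝ) ^ (2 * ε / 3)) := by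
        refine Finset.sum_le_sum fun a ha => ?_
        simp only [mul_inv]
        rw [← Finset.mul_sum]
        exact mul_le_mul_of_nonneg_left (hin a ha) (by positivity)
    _ = (∑ a ∈ bx k X, (((∏ l, a l : ℕ) : ℝ))⁻¹) * (C1 * C2 * (X : ℝ) ^ (2 * ε / 3)) := by
        rw [Finset.sum_mul]
    _ ≤ (C3 * (X : ℝ) ^ (ε / 3)) * (C1 * C2 * (X : ℝ) ^ (2 * ε / 3)) := by
        gcongr
        exact (sum_inv_bx k X).trans (h3 _ hX1)
    _ = C3 * (C1 * C2) * ((X : ℝ) ^ (ε / 3) * (X : ℝ) ^ (2 * ε / 3)) := by ring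
    _ = _ := by
        rw [← Real.rpow_add hX0]
        congr 2
        ring

end

end Pool.Agent.D0H82.SR
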