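import Pool.Agent.D0H82.SR.O

set_option autoImplicit false

/-! Mean squares of the increments; chaining. -/

namespace Pool.Agent.D0H82.SR

open Complex Filter Topology MeasureTheory Set
open Pool.Agent.TH612.CF
open Pool.Agent.TH612.GS

noncomputable section

variable {k : ℕ}

/-- separated vectors in the small cube -/
def Em (k : ℕ) (T : ℝ) : Set (Fin k ⊕ Fin k → ℝ) :=
  {γ | (∀ i, 0 ≤ γ i ∧ γ i ≤ T) ∧ ∀ p q, p ≠ q → (4 * T) ^ (1 / 2 : ℝ) ≤ |γ p - γ q|}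

lemma Em_meas (k : ℕ) (T : ℝ) : MeasurableSet (Em k T) := by
  have : Em k T = (⋂ i, {γ : Fin k ⊕ Fin k → ℝ | 0 ≤ γ i ∧ γ i ≤ T}) ∩
      ⋂ p, ⋂ q, {γ | p ≠ q → (4 * T) ^ (1 / 2 : ℝ) ≤ |γ p - γ q|} := by
    ext γ
    simp [Em]
  rw [this]
  refine IsClosed.measurableSet ?_
  refine IsClosed.inter (isClosed_iInter fun i => ?_) (isClosed_iInter fun p => isClosed_iInter fun q => ?_)
  · exact (isClosed_le continuous_const (continuous_apply i)).inter
      (isClosed_le (continuous_apply i) continuous_const)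
  · by_cases h : p = q
    · simp [h]
    · simp only [ne_eq, h, not_false_eq_true, true_imp_iff]
      exact isClosed_le continuous_const (by fun_prop)

lemma Em_shift {T A : ℝ} (hA : 0 ≤ A) (hAT : A ≤ 3 * T) {γ : Fin k ⊕ Fin k → ℝ} (hγ : γ ∈ Em k T) :
    (fun i => γ i + A) ∈ Sep k (4 * T) := by
  refine ⟨fun i => ⟨?_, ?_⟩, fun p q hpq => ?_⟩
  · have := (hγ.1 i).1
    linarith
  · have := (hγ.1 i).2
    linarith
  · have := hγ.2 p q hpq
    rw [add_sub_add_right_eq_sub]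
    exact this

lemma Em_sub {T : ℝ} (hT : 0 ≤ T) : Em k T ⊆ Sep k (4 * T) := by
  intro γ hγ
  have := Em_shift (A := 0) le_rfl (by linarith) hγ
  simpa using this

lemma restr_Sep (k : ℕ) (T : ℝ) : (mP (Fin k ⊕ Fin k) T).restrict (Sep k T) =
    (volume : Measure (Fin k ⊕ Fin k → ℝ)).restrict (Sep k T) := by
  rw [mP_eq, Measure.restrict_restrict (Sep_meas k T)]
  congr 1
  ext γ
  constructor
  · exact fun h => h.1
  · exact fun h => ⟨h, fun i _ => h.1 i⟩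

lemma trans_le {T A : ℝ} (hA : 0 ≤ A) (hAT : A ≤ 3 * T) (F : (Fin k ⊕ Fin k → ℝ) → ENNReal) :
    ∫⁻ γ in Em k T, F (fun i => γ i + A) ≤ ∫⁻ γ in Sep k (4 * T), F γ := by
  rw [← lintegral_indicator (Em_meas k T), ← lintegral_indicator (Sep_meas k (4 * T)),
    ← lintegral_add_right_eq_self ((Sep k (4 * T)).indicator F) (fun _ => A)]
  refine lintegral_mono fun γ => ?_
  by_cases h : γ ∈ Em k T
  · rw [indicator_of_mem h]
    have h2 : (γ + fun _ => A) ∈ Sep k (4 * T) := Em_shift hA hAT h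
    rw [indicator_of_mem h2]
    rfl
  · rw [indicator_of_notMem h]
    exact zero_le

theorem inc_L2 (hMS : S_MS) (k : ℕ) {ε : ℝ} (hε : 0 < ε) : ∃ C T₀ : ℝ, 0 < C ∧ 4 ≤ T₀ ∧
    ∀ T A B : ℝ, T₀ ≤ T → 0 ≤ A → A ≤ B → A ≤ 3 * T → B - A ≤ 4 * T →
    ∫⁻ γ in Em k T, ENNReal.ofReal (‖DD B γ - DD A γ‖ ^ 2) ≤
      ENNReal.ofReal (C * T ^ ε * T ^ (2 * k) * (B - A)) := by
  obtain ⟨C, T₀, hC, hT₀, h⟩ := hMS k ε hε
  refine ⟨C * 4 ^ ε * 4 ^ (2 * k), T₀, by positivity, hT₀, fun T A B hT hA hAB hAT hBA => ?_⟩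
  have hT0 : 0 < T := by linarith
  have h1 := h (4 * T) (B - A) (by linarith) (by linarith) hBA
  rw [restr_Sep] at h1
  simp only [DD_trans A B]
  refine (trans_le hA hAT fun γ => ENNReal.ofReal (‖DD (B - A) γ‖ ^ 2)).trans (h1.trans ?_)
  refine ENNReal.ofReal_le_ofReal (le_of_eq ?_)
  rw [Real.mul_rpow (by norm_num) hT0.le, mul_pow]
  ring

lemma zp_contOn {T : ℝ} (hT : 1 ≤ T) (π : Equiv.Perm (Fin k ⊕ Fin k)) :
    ContinuousOn (fun γ : Fin k ⊕ Fin k → ℝ => zp γ π) (Sep k T) := by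
  have h1 : Continuous fun γ : Fin k ⊕ Fin k → ℝ => fun i => γ (π i) := by fun_prop
  have h2 : MapsTo (fun γ : Fin k ⊕ Fin k → ℝ => fun i => γ (π i)) (Sep k T) (Sep k T) := by
    intro γ hγ
    exact ⟨fun i => hγ.1 _, fun p q hpq => hγ.2 _ _ fun h => hpq (π.injective h)⟩
  have e : (fun γ : Fin k ⊕ Fin k → ℝ => zp γ π) =
      (fun γ => zr γ) ∘ (fun γ : Fin k ⊕ Fin k → ℝ => fun i => γ (π i)) := by
    funext γ
    rw [Function.comp_apply]
    unfold zp zr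
    rfl
  rw [e]
  exact (zr_cont hT).comp h1.continuousOn h2

lemma DD_contOn (hINV : S_INV) {T : ℝ} (hT : 1 ≤ T) (S : ℝ) :
    ContinuousOn (fun γ : Fin k ⊕ Fin k → ℝ => DD S γ) (Sep k T) := by
  have e : (fun γ : Fin k ⊕ Fin k → ℝ => DD S γ) = fun γ => (∫ t in (0:ℝ)..S, ∏ j : Fin k,
      z (t + γ (Sum.inl j)) * (starRingEnd ℂ) (z (t + γ (Sum.inr j)))) - S * zr γ -
      ((Nat.factorial k : ℂ) ^ 2)⁻¹ * ∑ π ∈ (Pk k)ᶜ, IG S γ π * zp γ π := by
    funext γ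
    rw [DD_eq hINV]
    simp only [Zg_fz]
  rw [e]
  refine (((intprod_cont z_cont S).continuousOn).sub (continuousOn_const.mul (zr_cont hT))).sub ?_
  refine continuousOn_const.mul (continuousOn_finsetSum _ fun π _ => ?_)
  exact (IG_cont S π).continuousOn.mul (zp_contOn hT π)

/-- chaining -/
lemma chain {f : ℕ → ℂ} {a : ℕ → ℝ} (ha : ∀ r, 0 ≤ a r) {M L₀ : ℕ}
    (h : ∀ r m, r < L₀ → (m + 1) * 2 ^ r ≤ M → ‖f ((m + 1) * 2 ^ r) - f (m * 2 ^ r)‖ ≤ a r) :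
    ∀ L s n : ℕ, L ≤ L₀ → 2 ^ L ∣ s → n < 2 ^ L → s + 2 ^ L ≤ M →
      ‖f (s + n) - f s‖ ≤ ∑ r ∈ Finset.range L, a r := by
  intro L
  induction L with
  | zero =>
    intro s n _ _ hn _
    have : n = 0 := by simpa using hn
    subst this
    simp
  | succ L ih =>
    intro s n hL0 hs hn hM
    have hs' : 2 ^ L ∣ s := (pow_dvd_pow 2 (by omega)).trans hs
    have h2 : 2 ^ (L + 1) = 2 ^ L + 2 ^ L := by ring
    rw [Finset.sum_range_succ]
    by_cases hnL : n < 2 ^ L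
    · have := ih s n (by omega) hs' hnL (by omega)
      have := ha L
      linarith
    · obtain ⟨c, hc⟩ := hs'
      have h3 := ih (s + 2 ^ L) (n - 2 ^ L) (by omega) (by rw [hc]; exact ⟨c + 1, by ring⟩) (by omega)
        (by omega)
      have h4 := h L c (by omega) (by rw [add_mul, one_mul, mul_comm c, ← hc]; omega)
      have e1 : (c + 1) * 2 ^ L = s + 2 ^ L := by rw [hc]; ring
      have e2 : c * 2 ^ L = s := by rw [hc]; ring
      rw [e1, e2] at h4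
      have e3 : s + 2 ^ L + (n - 2 ^ L) = s + n := by omega
      rw [e3] at h3
      have e4 : f (s + n) - f s = (f (s + n) - f (s + 2 ^ L)) + (f (s + 2 ^ L) - f s) := by ring
      rw [e4]
      exact (norm_add_le _ _).trans (add_le_add h3 h4)

end

end Pool.Agent.D0H82.SR
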