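import Pool.Agent.TH612.GS.Stm3
import Pool.Agent.TH612.GS.Asm2

set_option autoImplicit false

/-!
Project SR: for almost all shift vectors in `[0,T]^{2k}` the shifted moments of zeta of order `2k`
follow the recipe with square-root remainder. Statements of the parts.
-/

namespace Pool.Agent.D0H82.SR

open Complex Filter Topology MeasureTheory Set
open Pool.Agent.TH612.CF Pool.Agent.TH612.GS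
open Pool.Agent.W182.KO hiding ee SS_summable

noncomputable section

/-- ZX: the product of zeta values against the product of the partial sums of length about `T` -/
def S_ZX : Prop := ∀ k : ℕ, ∃ C T₀ : ℝ, 0 < C ∧ 3 ≤ T₀ ∧ ∀ (T S : ℝ) (X : ℕ), T₀ ≤ T → 0 ≤ S → S ≤ T →
  2 * T ≤ X → (X : ℝ) ≤ 4 * T →
  ∫⁻ γ, ENNReal.ofReal (‖(∫ t in (0:ℝ)..S, ∏ j : Fin k, z (t + γ (Sum.inl j)) *
      (starRingEnd ℂ) (z (t + γ (Sum.inr j)))) -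
    ∫ t in (0:ℝ)..S, ∏ j : Fin k, PN X (t + γ (Sum.inl j)) *
      (starRingEnd ℂ) (PN X (t + γ (Sum.inr j)))‖ ^ 2) ∂(mP (Fin k ⊕ Fin k) T) ≤
    ENNReal.ofReal (C * Real.log T ^ (2 * k + 1) * T ^ (2 * k) * S)

/-- OD: the off-diagonal terms -/
def S_OD : Prop := ∀ (k : ℕ) (ε : ℝ), 0 < ε → ∃ C T₀ : ℝ, 0 < C ∧ 4 ≤ T₀ ∧ ∀ (T S : ℝ) (X : ℕ), T₀ ≤ T →
  0 ≤ S → S ≤ T → 2 * T ≤ X → (X : ℝ) ≤ 4 * T →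
  ∫⁻ γ, ENNReal.ofReal (‖(∫ t in (0:ℝ)..S, ∏ j : Fin k, PN X (t + γ (Sum.inl j)) *
      (starRingEnd ℂ) (PN X (t + γ (Sum.inr j)))) - S * SN X γ‖ ^ 2) ∂(mP (Fin k ⊕ Fin k) T) ≤
    ENNReal.ofReal (C * T ^ ε * T ^ (2 * k) * S)

/-- DC: the diagonal sum against `zr`, on the separated shift vectors -/
def S_DC : Prop := ∀ (k : ℕ) (ε : ℝ), 0 < ε → ∃ C T₀ : ℝ, 0 < C ∧ 4 ≤ T₀ ∧ ∀ (T : ℝ) (X : ℕ), T₀ ≤ T →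
  2 * T ≤ X → (X : ℝ) ≤ 4 * T →
  ∫⁻ γ in Sep k T, ENNReal.ofReal (‖SN X γ - zr γ‖ ^ 2) ∂(mP (Fin k ⊕ Fin k) T) ≤
    ENNReal.ofReal (C * T ^ ε * T ^ (2 * k) * T⁻¹)

/-- SWS: the terms with at least one swap, with the dependence on `S` -/
def S_SWS : Prop := ∀ k : ℕ, ∃ C T₀ : ℝ, 0 < C ∧ 3 ≤ T₀ ∧ ∀ (T S : ℝ)
  (π : Equiv.Perm (Fin k ⊕ Fin k)), T₀ ≤ T → 0 ≤ S → S ≤ T → (∃ j, (π (Sum.inr j)).isLeft = true) →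
  ∫⁻ γ, ENNReal.ofReal (‖∫ t in (0:ℝ)..S, GG t (fun i => (γ i : ℂ)) π‖ ^ 2)
    ∂(mP (Fin k ⊕ Fin k) T) ≤ ENNReal.ofReal (C * T ^ (2 * k) * S * Real.log T ^ 2)

/-- MS: the mean square of the difference of the moment and the recipe -/
def S_MS : Prop := ∀ (k : ℕ) (ε : ℝ), 0 < ε → ∃ C T₀ : ℝ, 0 < C ∧ 4 ≤ T₀ ∧ ∀ (T S : ℝ), T₀ ≤ T →
  0 ≤ S → S ≤ T →
  ∫⁻ γ in Sep k T, ENNReal.ofReal (‖DD S γ‖ ^ 2) ∂(mP (Fin k ⊕ Fin k) T) ≤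
    ENNReal.ofReal (C * T ^ ε * T ^ (2 * k) * S)

/-- the exceptional set -/
def BadS (k : ℕ) (T ε : ℝ) : Set (Fin k ⊕ Fin k → ℝ) :=
  {γ | (∀ i, 0 ≤ γ i ∧ γ i ≤ T) ∧ ∃ S : ℝ, 1 ≤ S ∧ S ≤ T ∧ S ^ (1 / 2 : ℝ) * T ^ ε < ‖DD S γ‖}

/-- FIN: the main theorem -/
def S_FIN : Prop := ∀ (k : ℕ) (ε : ℝ), 0 < ε → ε < 1 / 2 → ∃ T₀ : ℝ, ∀ T : ℝ, T₀ ≤ T →
  mP (Fin k ⊕ Fin k) T (BadS k T ε) ≤ ENNReal.ofReal (T ^ (2 * k - ε : ℝ))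

end

end Pool.Agent.D0H82.SR
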