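import Pool.Agent.D0H82.SR.C
import Pool.Agent.D0H82.SR.Stm
import Pool.Agent.TH509.GS.DIAG

set_option autoImplicit false

/-! OD: the off-diagonal terms. -/

namespace Pool.Agent.D0H82.SR

open Complex Filter Topology MeasureTheory Set
open Pool.Agent.TH612.GS
open Pool.Agent.TH509.GS (th integrand_eq th_eq norm_int_exp norm_ch)

noncomputable section

variable {k : ℕ}

lemma norm_int_triv (θ : ℝ) {S : ℝ} (hS : 0 ≤ S) :
    ‖∫ t in (0:ℝ)..S, Complex.exp (I * t * (θ : ℝ))‖ ≤ S := by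
  have h := intervalIntegral.norm_integral_le_of_norm_le_const (a := (0:ℝ)) (b := S) (C := 1)
    (f := fun t : ℝ => Complex.exp (I * t * (θ : ℝ))) (fun t _ => by
      have : I * (t : ℂ) * (θ : ℂ) = ((t * θ : ℝ) : ℂ) * I := by push_cast; ring
      rw [this, Complex.norm_exp_ofReal_mul_I])
  rw [sub_zero, abs_of_nonneg hS, one_mul] at h
  exact h

open Classical in
/-- the coefficients of the off-diagonal part -/
def co (S : ℝ) (ν : Fin k ⊕ Fin k → ℕ) : ℂ :=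
  if ∏ j, ν (Sum.inl j) = ∏ j, ν (Sum.inr j) then 0 else
    (wt ν : ℂ) * ∫ t in (0:ℝ)..S, Complex.exp (I * t * (th ν : ℝ))

lemma tup_pos {X : ℕ} {ν : Fin k ⊕ Fin k → ℕ} (hν : ν ∈ tup k X) (i : Fin k ⊕ Fin k) : 1 ≤ ν i :=
  (Finset.mem_Icc.1 (Fintype.mem_piFinset.1 hν i)).1

lemma OD_eq (X : ℕ) (S : ℝ) (γ : Fin k ⊕ Fin k → ℝ) :
    (∫ t in (0:ℝ)..S, ∏ j : Fin k, PN X (t + γ (Sum.inl j)) *
      (starRingEnd ℂ) (PN X (t + γ (Sum.inr j)))) - S * SN X γ =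
    ∑ ν ∈ tup k X, co S ν * ch ν γ := by
  classical
  have e1 : (∫ t in (0:ℝ)..S, ∏ j : Fin k, PN X (t + γ (Sum.inl j)) *
      (starRingEnd ℂ) (PN X (t + γ (Sum.inr j)))) =
      ∑ ν ∈ tup k X, (wt ν : ℂ) * ch ν γ *
        ∫ t in (0:ℝ)..S, Complex.exp (I * t * (th ν : ℝ)) := by
    simp_rw [integrand_eq]
    rw [intervalIntegral.integral_finsetSum]
    · refine Finset.sum_congr rfl fun ν _ => ?_
      exact intervalIntegral.integral_const_mul _ _
    · intro ν _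
      apply Continuous.intervalIntegrable
      fun_prop
  have e2 : (S : ℂ) * SN X γ = ∑ ν ∈ tup k X,
      if ∏ j, ν (Sum.inl j) = ∏ j, ν (Sum.inr j) then (S : ℂ) * ((wt ν : ℂ) * ch ν γ) else 0 := by
    unfold SN
    rw [Finset.mul_sum]
    refine Finset.sum_congr rfl fun ν _ => ?_
    split_ifs
    · rfl
    · rw [mul_zero]
  rw [e1, e2, ← Finset.sum_sub_distrib]
  refine Finset.sum_congr rfl fun ν hν => ?_
  unfold co
  split_ifs with h
  · have h0 : th ν = 0 := by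
      rw [th_eq ν (tup_pos hν), h, sub_self]
    rw [h0]
    simp only [Complex.ofReal_zero, mul_zero, Complex.exp_zero, intervalIntegral.integral_const,
      sub_zero, Complex.real_smul, mul_one]
    ring
  · ring

lemma wt_sq {ν : Fin k ⊕ Fin k → ℕ} (hν : ∀ i, 1 ≤ ν i) :
    wt ν ^ 2 = (((∏ j, ν (Sum.inl j) : ℕ) : ℝ) * ((∏ j, ν (Sum.inr j) : ℕ) : ℝ))⁻¹ := by
  unfold wt
  have h0 : (0:ℝ) ≤ ∏ i, (ν i : ℝ) := Finset.prod_nonneg fun i _ => by positivity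
  rw [← Real.rpow_natCast, ← Real.rpow_mul h0]
  have e : (-(1 / 2 : ℝ)) * ((2 : ℕ) : ℝ) = -1 := by norm_num
  rw [e, Real.rpow_neg_one, Fintype.prod_sum_type]
  push_cast
  rfl

/-- `1 / |log m - log n|` -/
lemma inv_log {m n : ℕ} (hm : 1 ≤ m) (hmn : m < n) :
    0 < Real.log n - Real.log m ∧
    (Real.log n - Real.log m)⁻¹ ≤ n * ((n : ℝ) - m)⁻¹ := by
  have hm0 : (0 : ℝ) < m := by exact_mod_cast hm
  have hn0 : (0 : ℝ) < n := by exact_mod_cast (by omega : 0 < n)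
  have hmn' : (m : ℝ) < n := by exact_mod_cast hmn
  have h1 : ((n : ℝ) - m) / n ≤ Real.log n - Real.log m := by
    rw [← Real.log_div hn0.ne' hm0.ne']
    refine le_trans ?_ (Real.one_sub_inv_le_log_of_pos (div_pos hn0 hm0))
    rw [inv_div]
    apply le_of_eq
    field_simp
  have h2 : 0 < ((n : ℝ) - m) / n := div_pos (by linarith) hn0
  refine ⟨h2.trans_le h1, ?_⟩
  calc (Real.log n - Real.log m)⁻¹ ≤ (((n : ℝ) - m) / n)⁻¹ := inv_anti₀ h2 h1
    _ = n * ((n : ℝ) - m)⁻¹ := by rw [inv_div]; ring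

/-- size of the coefficients -/
lemma co_le {X : ℕ} {S : ℝ} (hS : 0 ≤ S) {a b : Fin k → ℕ} (ha : a ∈ bx k X) (hb : b ∈ bx k X) :
    ‖co S (Sum.elim a b)‖ ^ 2 ≤
      (if ∏ l, a l < ∏ l, b l then
        2 * S * (((∏ l, a l : ℕ) : ℝ) * (((∏ l, b l : ℕ) : ℝ) - ((∏ l, a l : ℕ) : ℝ)))⁻¹ else 0) +
      (if ∏ l, b l < ∏ l, a l then
        2 * S * (((∏ l, b l : ℕ) : ℝ) * (((∏ l, a l : ℕ) : ℝ) - ((∏ l, b l : ℕ) : ℝ)))⁻¹ else 0) := by
  have hν : ∀ i, 1 ≤ (Sum.elim a b : Fin k ⊕ Fin k → ℕ) i := by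
    intro i
    cases i with
    | inl j => exact (Finset.mem_Icc.1 ((Fintype.mem_piFinset.1 ha) j)).1
    | inr j => exact (Finset.mem_Icc.1 ((Fintype.mem_piFinset.1 hb) j)).1
  have hth := th_eq (Sum.elim a b : Fin k ⊕ Fin k → ℕ) hν
  have hw := wt_sq hν
  simp only [Sum.elim_inl, Sum.elim_inr] at hth hw
  have hm1 := prod_pos ha
  have hn1 := prod_pos hb
  set m := ∏ l, a l with hm
  set n := ∏ l, b l with hn
  have hm0 : (0:ℝ) < m := by exact_mod_cast hm1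
  have hn0 : (0:ℝ) < n := by exact_mod_cast hn1
  unfold co
  simp only [Sum.elim_inl, Sum.elim_inr]
  rcases lt_trichotomy m n with h | h | h
  · rw [if_neg h.ne, if_pos h, if_neg (by omega), add_zero, norm_mul, mul_pow, Complex.norm_real,
      Real.norm_eq_abs, sq_abs, hw]
    obtain ⟨h1, h2⟩ := inv_log hm1 h
    have h3 : th (Sum.elim a b : Fin k ⊕ Fin k → ℕ) ≠ 0 := by rw [hth]; exact h1.ne'
    have h4 := norm_int_exp h3 S
    have h5 := norm_int_triv (th (Sum.elim a b : Fin k ⊕ Fin k → ℕ)) hS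
    rw [hth, abs_of_pos h1] at h4
    rw [hth] at h5 ⊢
    have h6 : ‖∫ t in (0:ℝ)..S, Complex.exp (I * t * ((Real.log n - Real.log m : ℝ)))‖ ^ 2 ≤
        S * (2 * (n * ((n : ℝ) - m)⁻¹)) := by
      rw [sq]
      refine mul_le_mul h5 (h4.trans ?_) (norm_nonneg _) hS
      rw [div_eq_mul_inv]
      gcongr
    calc ((m : ℝ) * n)⁻¹ * ‖∫ t in (0:ℝ)..S, Complex.exp (I * t * ((Real.log n - Real.log m : ℝ)))‖ ^ 2
        ≤ ((m : ℝ) * n)⁻¹ * (S * (2 * (n * ((n : ℝ) - m)⁻¹))) := by gcongr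
      _ = _ := by
        rw [mul_inv, mul_inv]
        field_simp
  · rw [if_pos h, norm_zero, if_neg (by omega), if_neg (by omega)]
    norm_num
  · rw [if_neg h.ne', if_neg (by omega), if_pos h, zero_add, norm_mul, mul_pow, Complex.norm_real,
      Real.norm_eq_abs, sq_abs, hw]
    obtain ⟨h1, h2⟩ := inv_log hn1 h
    have h3 : th (Sum.elim a b : Fin k ⊕ Fin k → ℕ) ≠ 0 := by
      rw [hth]
      have : Real.log n - Real.log m < 0 := by linarith
      exact this.ne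
    have h4 := norm_int_exp h3 S
    have h5 := norm_int_triv (th (Sum.elim a b : Fin k ⊕ Fin k → ℕ)) hS
    rw [hth, abs_sub_comm, abs_of_pos h1] at h4
    rw [hth] at h5 ⊢
    have h6 : ‖∫ t in (0:ℝ)..S, Complex.exp (I * t * ((Real.log n - Real.log m : ℝ)))‖ ^ 2 ≤
        S * (2 * (m * ((m : ℝ) - n)⁻¹)) := by
      rw [sq]
      refine mul_le_mul h5 (h4.trans ?_) (norm_nonneg _) hS
      rw [div_eq_mul_inv]
      gcongr
    calc ((m : ℝ) * n)⁻¹ * ‖∫ t in (0:ℝ)..S, Complex.exp (I * t * ((Real.log n - Real.log m : ℝ)))‖ ^ 2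
        ≤ ((m : ℝ) * n)⁻¹ * (S * (2 * (m * ((m : ℝ) - n)⁻¹))) := by gcongr
      _ = _ := by
        rw [mul_inv, mul_inv]
        field_simp

theorem t_OD (hT : S_TMV) : S_OD := by
  intro k ε hε
  obtain ⟨C1, hC1, h1⟩ := TMV2 hT k
  obtain ⟨C2, hC2, h2⟩ := off_sum k hε
  refine ⟨C1 * (4 * C2 * 4 ^ ε), 4, by positivity, le_rfl, fun T S X hT4 hS hST hX1 hX2 => ?_⟩
  have hT0 : 0 < T := by linarith
  have hX : 1 ≤ X := by
    have : (0:ℝ) < X := by linarith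
    exact_mod_cast this
  simp only [OD_eq]
  refine (h1 T X (co S) hT4 hX2).trans (ENNReal.ofReal_le_ofReal ?_)
  have h3 : ∑ ν ∈ tup k X, ‖co S ν‖ ^ 2 ≤ 4 * S * (C2 * (X : ℝ) ^ ε) := by
    rw [tup_sum]
    calc _ ≤ ∑ a ∈ bx k X, ∑ b ∈ bx k X,
          ((if ∏ l, a l < ∏ l, b l then
            2 * S * (((∏ l, a l : ℕ) : ℝ) * (((∏ l, b l : ℕ) : ℝ) - ((∏ l, a l : ℕ) : ℝ)))⁻¹ else 0) +
          (if ∏ l, b l < ∏ l, a l then
            2 * S * (((∏ l, b l : ℕ) : ℝ) * (((∏ l, a l : ℕ) : ℝ) - ((∏ l, b l : ℕ) : ℝ)))⁻¹ else 0)) :=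
          Finset.sum_le_sum fun a ha => Finset.sum_le_sum fun b hb => co_le hS ha hb
      _ = 2 * (2 * S * ∑ a ∈ bx k X, ∑ b ∈ (bx k X).filter (fun b => ∏ l, a l < ∏ l, b l),
          (((∏ l, a l : ℕ) : ℝ) * (((∏ l, b l : ℕ) : ℝ) - ((∏ l, a l : ℕ) : ℝ)))⁻¹) := by
          simp only [Finset.sum_add_distrib]
          rw [two_mul (2 * S * _)]
          congr 1
          · rw [Finset.mul_sum]
            refine Finset.sum_congr rfl fun a _ => ?_
            rw [Finset.mul_sum, Finset.sum_filter]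
          · rw [Finset.sum_comm, Finset.mul_sum]
            refine Finset.sum_congr rfl fun a _ => ?_
            rw [Finset.mul_sum, Finset.sum_filter]
      _ ≤ 2 * (2 * S * (C2 * (X : ℝ) ^ ε)) := by
          gcongr
          exact h2 X hX
      _ = _ := by ring
  have h4 : (X : ℝ) ^ ε ≤ 4 ^ ε * T ^ ε := by
    rw [← Real.mul_rpow (by norm_num) hT0.le]
    exact Real.rpow_le_rpow (by positivity) hX2 hε.le
  calc C1 * T ^ (2 * k) * ∑ ν ∈ tup k X, ‖co S ν‖ ^ 2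
      ≤ C1 * T ^ (2 * k) * (4 * S * (C2 * (4 ^ ε * T ^ ε))) := by
        gcongr
        refine h3.trans ?_
        gcongr
    _ = _ := by ring

end

end Pool.Agent.D0H82.SR
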