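import Pool.Agent.D0H82.SR.K
import Pool.Agent.D0H82.SR.D

set_option autoImplicit false

/-! DC: the diagonal sum against `zr`. -/

namespace Pool.Agent.D0H82.SR

open Complex Filter Topology MeasureTheory Set
open Pool.Agent.TH612.CF
open Pool.Agent.TH612.GS
open Pool.Agent.W182.KO

noncomputable section

variable {k : ℕ}

/-- the inner sum over the second block -/
def ib (X : ℕ) (β : Fin k → ℝ) (n : ℕ) : ℂ :=
  ∑ b ∈ (bx k X).filter (fun b => ∏ l, b l = n), ∏ l, ((b l : ℕ) : ℂ) ^ (I * (β l : ℂ))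

lemma ib_le (X : ℕ) (β : Fin k → ℝ) {n : ℕ} (hn : 1 ≤ n) :
    ‖ib X β n‖ ≤ (n.divisors.card : ℝ) ^ k := by
  unfold ib
  refine (norm_sum_le _ _).trans ?_
  have h1 : ∀ b ∈ (bx k X).filter (fun b => ∏ l, b l = n),
      ‖∏ l, ((b l : ℕ) : ℂ) ^ (I * (β l : ℂ))‖ = 1 := by
    intro b hb
    rw [norm_prod]
    refine Finset.prod_eq_one fun l _ => ?_
    rw [Complex.norm_natCast_cpow_of_pos (by have := bx_pos (Finset.mem_filter.1 hb).1 l; omega)]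
    simp
  rw [Finset.sum_congr rfl h1, Finset.sum_const, nsmul_eq_mul, mul_one]
  exact card_fiber k X n hn

lemma ib_eq {X n : ℕ} (β : Fin k → ℝ) (hn1 : 1 ≤ n) (hn : n ≤ X) :
    ib X β n = tau (fun l => I * (β l : ℂ)) n := by
  unfold ib tau
  refine Finset.sum_congr ?_ fun _ _ => rfl
  rw [← fiber_eq (k := k) (X := X) (M := X) (Finset.mem_Icc.2 ⟨hn1, hn⟩) le_rfl]
  ext b
  simp only [Finset.mem_filter]
  constructor
  · rintro ⟨h1, h2⟩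
    exact ⟨⟨h1, by omega⟩, h2⟩
  · rintro ⟨⟨h1, _⟩, h2⟩
    exact ⟨h1, h2⟩

lemma SN_eq (X : ℕ) (γ : Fin k ⊕ Fin k → ℝ) : SN X γ =
    ∑ a ∈ bx k X, (((∏ l, a l : ℕ) : ℂ)⁻¹ * ib X (sd γ) (∏ l, a l)) *
      ∏ l, ((a l : ℕ) : ℂ) ^ (-(I * (fs γ l : ℂ))) := by
  unfold SN
  rw [tup_sum]
  refine Finset.sum_congr rfl fun a ha => ?_
  unfold ib
  rw [Finset.mul_sum, Finset.sum_mul, Finset.sum_filter]
  refine Finset.sum_congr rfl fun b hb => ?_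
  have hν : ∀ i, 1 ≤ (Sum.elim a b : Fin k ⊕ Fin k → ℕ) i := by
    intro i
    cases i with
    | inl j => exact bx_pos ha j
    | inr j => exact bx_pos hb j
  by_cases h : ∏ l, a l = ∏ l, b l
  · rw [if_pos (show ∏ j, (Sum.elim a b : Fin k ⊕ Fin k → ℕ) (Sum.inl j) =
      ∏ j, (Sum.elim a b : Fin k ⊕ Fin k → ℕ) (Sum.inr j) from h), if_pos h.symm]
    have hw : wt (Sum.elim a b : Fin k ⊕ Fin k → ℕ) = (((∏ l, a l : ℕ) : ℝ))⁻¹ := by
      have h1 := wt_sq hν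
      simp only [Sum.elim_inl, Sum.elim_inr] at h1
      rw [← h, ← sq, ← inv_pow] at h1
      have h2 : 0 ≤ wt (Sum.elim a b : Fin k ⊕ Fin k → ℕ) := (Pool.Agent.TH509.GS.wt_bd hν).1
      exact (pow_left_inj₀ h2 (by positivity) (by norm_num)).1 h1
    rw [hw]
    unfold ch fs sd
    simp only [Sum.elim_inl, Sum.elim_inr]
    push_cast
    ring
  · rw [if_neg (show ¬ ∏ j, (Sum.elim a b : Fin k ⊕ Fin k → ℕ) (Sum.inl j) =
      ∏ j, (Sum.elim a b : Fin k ⊕ Fin k → ℕ) (Sum.inr j) from h), if_neg (fun h' => h h'.symm)]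

lemma SD_eq (X : ℕ) (γ : Fin k ⊕ Fin k → ℝ) : SN X γ - ∑ n ∈ Finset.Icc 1 X, dr γ n =
    ∑ a ∈ bx k X, (if X < ∏ l, a l then
      ((∏ l, a l : ℕ) : ℂ)⁻¹ * ib X (sd γ) (∏ l, a l) else 0) *
      ∏ l, ((a l : ℕ) : ℂ) ^ (-(I * (fs γ l : ℂ))) := by
  have h1 : ∑ n ∈ Finset.Icc 1 X, dr γ n =
      ∑ a ∈ (bx k X).filter (fun a => ∏ l, a l ≤ X), (((∏ l, a l : ℕ) : ℂ)⁻¹ * ib X (sd γ) (∏ l, a l)) *
        ∏ l, ((a l : ℕ) : ℂ) ^ (-(I * (fs γ l : ℂ))) := by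
    rw [sum_fiber le_rfl]
    refine Finset.sum_congr rfl fun n hn => ?_
    obtain ⟨hn1, hn2⟩ := Finset.mem_Icc.1 hn
    have h2 : ∀ a ∈ Nat.finMulAntidiag k n, (((∏ l, a l : ℕ) : ℂ)⁻¹ * ib X (sd γ) (∏ l, a l)) *
        ∏ l, ((a l : ℕ) : ℂ) ^ (-(I * (fs γ l : ℂ))) =
        ((n : ℂ)⁻¹ * tau (fun l => I * (sd γ l : ℂ)) n) * ∏ l, ((a l : ℕ) : ℂ) ^ (-(I * (fs γ l : ℂ))) := by
      intro a ha
      rw [(Nat.mem_finMulAntidiag.1 ha).1, ib_eq _ hn1 hn2]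
    rw [Finset.sum_congr rfl h2, ← Finset.mul_sum, dr_A2, A2_apply]
    unfold tau
    ring
  rw [h1, SN_eq, Finset.sum_filter, ← Finset.sum_sub_distrib]
  refine Finset.sum_congr rfl fun a _ => ?_
  by_cases h : ∏ l, a l ≤ X
  · rw [if_pos h, if_neg (by omega)]
    ring
  · rw [if_neg h, if_pos (by omega)]
    ring

lemma dr_cont' (n : ℕ) : Continuous fun γ : Fin k ⊕ Fin k → ℝ => dr γ n := by
  unfold dr dg
  refine Continuous.mul (Continuous.mul ?_ ?_) continuous_const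
  · exact tau_cont' (l := fun γ j => I * (γ (Sum.inr j) : ℂ)) (fun j => by fun_prop) n
  · exact tau_cont' (l := fun γ j => -(I * (γ (Sum.inl j) : ℂ))) (fun j => by fun_prop) n

/-- the sharp diagonal sum against the sum of the coefficients -/
theorem SD_L2 (hT : S_TMV) (k : ℕ) {ε : ℝ} (hε : 0 < ε) (hε1 : ε < 1) : ∃ C : ℝ, 0 < C ∧
    ∀ (T : ℝ) (X : ℕ), 4 ≤ T → T ≤ X → (X : ℝ) ≤ 4 * T →
    ∫⁻ γ, ENNReal.ofReal (‖SN X γ - ∑ n ∈ Finset.Icc 1 X, dr γ n‖ ^ 2)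
      ∂(mP (Fin k ⊕ Fin k) T) ≤ ENNReal.ofReal (C * T ^ ε * T ^ (2 * k) * T⁻¹) := by
  obtain ⟨C1, hC1, h1⟩ := TMVm hT k
  obtain ⟨C2, hC2, h2⟩ := tail_sum k (ε := ε / 2) (by positivity) (by linarith)
  obtain ⟨C3, hC3, h3⟩ := divpow (2 * k) (ε := ε / 2) (by positivity)
  refine ⟨4 * (C1 * (C3 * C2)), by positivity, fun T X hT4 hX1 hX2 => ?_⟩
  have hT0 : 0 < T := by linarith
  have hX : 1 ≤ X := by
    have : (0:ℝ) < X := by linarith
    exact_mod_cast this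
  have hXr : (1:ℝ) ≤ X := by exact_mod_cast hX
  have hX0 : (0:ℝ) < X := by linarith
  have hm : Measurable fun γ : Fin k ⊕ Fin k → ℝ =>
      ENNReal.ofReal (‖SN X γ - ∑ n ∈ Finset.Icc 1 X, dr γ n‖ ^ 2) :=
    meas_sq ((SN_cont X).sub (continuous_finsetSum _ fun n _ => dr_cont' n))
  refine (lint_bd' (B := C1 * T ^ k * (C3 * (C2 * (X : ℝ) ^ (-1 + ε)))) hT0.le hm fun β => ?_).trans
    (ENNReal.ofReal_le_ofReal ?_)
  · simp only [SD_eq, fs_elim, sd_elim]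
    refine (h1 T X _ hT4 hX2).trans (ENNReal.ofReal_le_ofReal ?_)
    refine mul_le_mul_of_nonneg_left ?_ (by positivity)
    have h5 := h2 X X hXr
    have e1 : -1 + 2 * (ε / 2) = -1 + ε := by ring
    rw [e1] at h5
    refine le_trans ?_ (mul_le_mul_of_nonneg_left h5 hC3.le)
    rw [Finset.sum_filter, Finset.mul_sum]
    refine Finset.sum_le_sum fun a ha => ?_
    have hp := prod_pos ha
    by_cases h : X < ∏ l, a l
    · have h' : (X : ℝ) < ((∏ l, a l : ℕ) : ℝ) := by exact_mod_cast h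
      rw [if_pos h, if_pos h', norm_mul, mul_pow, norm_inv, Complex.norm_natCast]
      set n := ∏ l, a l with hn
      have hp0 : (0:ℝ) < n := by exact_mod_cast hp
      calc ((n : ℝ)⁻¹) ^ 2 * ‖ib X β n‖ ^ 2 ≤ ((n : ℝ)⁻¹) ^ 2 * ((n.divisors.card : ℝ) ^ k) ^ 2 := by
            gcongr
            exact ib_le X β hp
        _ = (n : ℝ) ^ (-2 : ℝ) * (n.divisors.card : ℝ) ^ (2 * k) := by
            rw [← pow_mul, mul_comm k 2]
            congr 1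
            rw [inv_pow, ← Real.rpow_natCast, ← Real.rpow_neg hp0.le]
            norm_num
        _ ≤ (n : ℝ) ^ (-2 : ℝ) * (C3 * (n : ℝ) ^ (ε / 2)) := by
            gcongr
            exact h3 _ hp
        _ = C3 * ((n : ℝ) ^ (-2 : ℝ) * (n : ℝ) ^ (ε / 2)) := by ring
        _ = _ := by
            rw [← Real.rpow_add hp0]
    · rw [if_neg h, norm_zero]
      split_ifs
      · have : (0:ℝ) ≤ C3 * ((∏ l, a l : ℕ) : ℝ) ^ (-2 + ε / 2) := by positivity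
        simpa using this
      · simp
  · have h6 : (X : ℝ) ^ (-1 + ε) ≤ 4 * T ^ ε * T⁻¹ := by
      calc (X : ℝ) ^ (-1 + ε) = (X : ℝ) ^ ε * (X : ℝ)⁻¹ := by
            rw [Real.rpow_add hX0, Real.rpow_neg_one]; ring
        _ ≤ (4 * T) ^ ε * T⁻¹ := by gcongr
        _ = 4 ^ ε * T ^ ε * T⁻¹ := by rw [Real.mul_rpow (by norm_num) hT0.le]
        _ ≤ 4 ^ (1 : ℝ) * T ^ ε * T⁻¹ := by
            gcongr
            norm_num
        _ = _ := by rw [Real.rpow_one]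
    have e2 : T ^ (2 * k) = T ^ k * T ^ k := by rw [two_mul, pow_add]
    rw [e2]
    calc _ ≤ T ^ k * (C1 * T ^ k * (C3 * (C2 * (4 * T ^ ε * T⁻¹)))) := by gcongr
      _ = _ := by ring

/-- the row products against the product of zeta values, pointwise -/
theorem PZ_pt (k : ℕ) {ε : ℝ} (hε : 0 < ε) : ∃ C T₀ : ℝ, 0 < C ∧ 4 ≤ T₀ ∧
    ∀ (T : ℝ) (X : ℕ), T₀ ≤ T → 2 * T ≤ X → (X : ℝ) ≤ 4 * T → ∀ γ ∈ Sep k T,
    ‖FH (fun j => (fs γ j : ℂ)) (fun j => (sd γ j : ℂ)) * ∏ j, Pp X (fs γ) (sd γ) j - zr γ‖ ^ 2 ≤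
      C * T ^ ε * T⁻¹ := by
  obtain ⟨C1, T1, hC1, hT1, h1⟩ := one_approx
  obtain ⟨C2, hC2, h2⟩ := logpow (k * k * 2 + 2) hε
  refine ⟨BF k (1 / 8) ^ 2 * ((1 + C1) ^ (k * k * 2) * ((k : ℝ) * k) ^ 2 * C1 ^ 2 * (C2 * 4 ^ ε)) + 1,
    max 4 T1, by positivity, le_max_left _ _, fun T X hT hX1 hX2 γ hγ => ?_⟩
  have hT4 : 4 ≤ T := (le_max_left _ _).trans hT
  have hTT1 : T1 ≤ T := (le_max_right _ _).trans hT
  have hT0 : 0 < T := by linarith
  have hX0 : (0:ℝ) < X := by linarith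
  have hXr : (1:ℝ) ≤ X := by linarith
  have hlogT : 0 ≤ Real.log T := Real.log_nonneg (by linarith)
  have hlogX : Real.log T ≤ Real.log X := Real.log_le_log hT0 (by linarith)
  set L : ℝ := 1 + Real.log X with hL
  have hL1 : 1 ≤ L := by rw [hL]; linarith
  have hTL : Real.log T ≤ L := by rw [hL]; linarith
  set v : Fin k × Fin k → ℝ := fun x => γ (Sum.inl x.1) - γ (Sum.inr x.2) with hv
  have hsep : ∀ x, T ^ (1 / 2 : ℝ) ≤ |v x| ∧ |v x| ≤ T := by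
    intro x
    refine ⟨hγ.2 _ _ (by simp), ?_⟩
    have a1 := hγ.1 (Sum.inl x.1)
    have a2 := hγ.1 (Sum.inr x.2)
    rw [hv, abs_le]
    constructor <;> simp only <;> linarith
  have hT12 : 1 ≤ T ^ (1 / 2 : ℝ) := Real.one_le_rpow (by linarith) (by norm_num)
  have hap : ∀ x, ‖zN X (1 + I * (v x : ℝ)) - riemannZeta (1 + I * (v x : ℝ))‖ ≤
      C1 * L * (T ^ (1 / 2 : ℝ))⁻¹ := by
    intro x
    have h3 := h1 T X (v x) hTT1 hX1 hX2 (hT12.trans (hsep x).1) (hsep x).2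
    rw [norm_sub_rev]
    refine h3.trans ?_
    rw [div_eq_mul_inv]
    gcongr
    exact (hsep x).1
  have hzN : ∀ x, ‖zN X (1 + I * (v x : ℝ))‖ ≤ (1 + C1) * L := by
    intro x
    have h3 := Pool.Agent.TH811.GS.norm_zN_le X (v x)
    have : 0 ≤ C1 * L := by positivity
    have e : (1 + C1) * L = L + C1 * L := by ring
    rw [e]
    linarith
  have hzt : ∀ x, ‖riemannZeta (1 + I * (v x : ℝ))‖ ≤ (1 + C1) * L := by
    intro x
    have h3 := Pool.Agent.TH811.GS.norm_zN_le X (v x)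
    have h4 := hap x
    have h5 : C1 * L * (T ^ (1 / 2 : ℝ))⁻¹ ≤ C1 * L := by
      have : (T ^ (1 / 2 : ℝ))⁻¹ ≤ 1 := inv_le_one_of_one_le₀ hT12
      have h0 : 0 ≤ C1 * L := by positivity
      nlinarith
    have h6 : ‖riemannZeta (1 + I * (v x : ℝ))‖ ≤ ‖zN X (1 + I * (v x : ℝ))‖ +
        ‖zN X (1 + I * (v x : ℝ)) - riemannZeta (1 + I * (v x : ℝ))‖ := by
      have := norm_sub_le (zN X (1 + I * (v x : ℝ)))
        (zN X (1 + I * (v x : ℝ)) - riemannZeta (1 + I * (v x : ℝ)))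
      rwa [sub_sub_cancel] at this
    have e : (1 + C1) * L = L + C1 * L := by ring
    rw [e]
    linarith
  have hB1 : 1 ≤ (1 + C1) * L := by nlinarith
  have hd := prod_diff Finset.univ (fun x : Fin k × Fin k => zN X (1 + I * (v x : ℝ)))
    (fun x => riemannZeta (1 + I * (v x : ℝ))) hB1 hzN hzt
  rw [Finset.card_univ, Fintype.card_prod, Fintype.card_fin] at hd
  have hd2 : ‖∏ x : Fin k × Fin k, zN X (1 + I * (v x : ℝ)) -
      ∏ x : Fin k × Fin k, riemannZeta (1 + I * (v x : ℝ))‖ ≤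
      ((1 + C1) * L) ^ (k * k) * ((k : ℝ) * k * (C1 * L * (T ^ (1 / 2 : ℝ))⁻¹)) := by
    refine hd.trans ?_
    refine mul_le_mul_of_nonneg_left ?_ (by positivity)
    refine (Finset.sum_le_sum fun x _ => hap x).trans (le_of_eq ?_)
    rw [Finset.sum_const, Finset.card_univ, Fintype.card_prod, Fintype.card_fin, nsmul_eq_mul]
    push_cast
    ring
  have e1 : ∏ j, Pp X (fs γ) (sd γ) j = ∏ x : Fin k × Fin k, zN X (1 + I * (v x : ℝ)) := by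
    rw [Fintype.prod_prod_type]
    unfold Pp
    refine Finset.prod_congr rfl fun j _ => Finset.prod_congr rfl fun l _ => ?_
    rw [hv]
    unfold fs sd
    push_cast
    rfl
  have e2 : zr γ = FH (fun j => (fs γ j : ℂ)) (fun j => (sd γ j : ℂ)) *
      ∏ x : Fin k × Fin k, riemannZeta (1 + I * (v x : ℝ)) := by
    unfold zr zab
    rw [Fintype.prod_prod_type]
    congr 1
    refine Finset.prod_congr rfl fun j _ => Finset.prod_congr rfl fun l _ => ?_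
    rw [hv]
    congr 1
    push_cast
    ring
  rw [e1, e2, ← mul_sub, norm_mul, mul_pow]
  have hF : ‖FH (fun j => (fs γ j : ℂ)) (fun j => (sd γ j : ℂ))‖ ≤ BF k (1 / 8) := by
    refine FH_le (by norm_num) fun j => ?_
    rw [Complex.ofReal_im, Complex.ofReal_im, abs_zero]
    norm_num
  have hTT : ((T ^ (1 / 2 : ℝ))⁻¹) ^ 2 = T⁻¹ := by
    rw [inv_pow, ← Real.rpow_natCast, ← Real.rpow_mul hT0.le]
    norm_num
  have hLL : L ^ (k * k * 2 + 2) ≤ C2 * 4 ^ ε * T ^ ε := by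
    calc L ^ (k * k * 2 + 2) ≤ C2 * (X : ℝ) ^ ε := h2 _ hXr
      _ ≤ C2 * (4 * T) ^ ε := by gcongr
      _ = _ := by rw [Real.mul_rpow (by norm_num) hT0.le]; ring
  calc _ ≤ BF k (1 / 8) ^ 2 * (((1 + C1) * L) ^ (k * k) *
        ((k : ℝ) * k * (C1 * L * (T ^ (1 / 2 : ℝ))⁻¹))) ^ 2 := by gcongr
    _ = BF k (1 / 8) ^ 2 * ((1 + C1) ^ (k * k * 2) * ((k : ℝ) * k) ^ 2 * C1 ^ 2 *
        L ^ (k * k * 2 + 2)) * T⁻¹ := by
        rw [← hTT]
        have e3 : ((1 + C1) * L) ^ (k * k) = (1 + C1) ^ (k * k) * L ^ (k * k) := mul_pow _ _ _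
        have e4 : (1 + C1) ^ (k * k * 2) = ((1 + C1) ^ (k * k)) ^ 2 := by rw [pow_mul]
        have e5 : L ^ (k * k * 2 + 2) = (L ^ (k * k)) ^ 2 * L ^ 2 := by rw [pow_add, pow_mul]
        rw [e3, e4, e5]
        ring
    _ ≤ BF k (1 / 8) ^ 2 * ((1 + C1) ^ (k * k * 2) * ((k : ℝ) * k) ^ 2 * C1 ^ 2 *
        (C2 * 4 ^ ε * T ^ ε)) * T⁻¹ := by gcongr
    _ = (BF k (1 / 8) ^ 2 * ((1 + C1) ^ (k * k * 2) * ((k : ℝ) * k) ^ 2 * C1 ^ 2 *
        (C2 * 4 ^ ε))) * T ^ ε * T⁻¹ := by ring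
    _ ≤ _ := by
        gcongr
        linarith

lemma sq_add_three (a b c : ℂ) : ‖a + b + c‖ ^ 2 ≤ 3 * ‖a‖ ^ 2 + 3 * ‖b‖ ^ 2 + 3 * ‖c‖ ^ 2 := by
  have h1 : ‖a + b + c‖ ≤ ‖a‖ + ‖b‖ + ‖c‖ := (norm_add_le _ _).trans (add_le_add (norm_add_le _ _) le_rfl)
  calc ‖a + b + c‖ ^ 2 ≤ (‖a‖ + ‖b‖ + ‖c‖) ^ 2 := pow_le_pow_left₀ (norm_nonneg _) h1 2
    _ ≤ _ := by nlinarith [sq_nonneg (‖a‖ - ‖b‖), sq_nonneg (‖a‖ - ‖c‖), sq_nonneg (‖b‖ - ‖c‖)]

theorem t_DC (hT : S_TMV) : S_DC := by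
  have main : ∀ (k : ℕ) (ε : ℝ), 0 < ε → ε < 1 → ∃ C T₀ : ℝ, 0 < C ∧ 4 ≤ T₀ ∧
      ∀ (T : ℝ) (X : ℕ), T₀ ≤ T → 2 * T ≤ X → (X : ℝ) ≤ 4 * T →
      ∫⁻ γ in Sep k T, ENNReal.ofReal (‖SN X γ - zr γ‖ ^ 2) ∂(mP (Fin k ⊕ Fin k) T) ≤
        ENNReal.ofReal (C * T ^ ε * T ^ (2 * k) * T⁻¹) := by
    intro k ε hε hε1
    obtain ⟨C1, hC1, h1⟩ := SD_L2 hT k hε hε1
    obtain ⟨C2, hC2, h2⟩ := DF_L2 hT k hε hε1
    obtain ⟨C3, T₀, hC3, hT₀, h3⟩ := PZ_pt k hε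
    refine ⟨3 * C1 + 3 * C2 + 3 * C3, T₀, by positivity, hT₀, fun T X hT' hX1 hX2 => ?_⟩
    have hT4 : 4 ≤ T := hT₀.trans hT'
    have hT0 : 0 < T := by linarith
    have hTX : T ≤ X := by linarith
    have hm1 : Measurable fun γ : Fin k ⊕ Fin k → ℝ =>
        ENNReal.ofReal (‖SN X γ - ∑ n ∈ Finset.Icc 1 X, dr γ n‖ ^ 2) :=
      meas_sq ((SN_cont X).sub (continuous_finsetSum _ fun n _ => dr_cont' n))
    have hpt : ∀ γ ∈ Sep k T, ENNReal.ofReal (‖SN X γ - zr γ‖ ^ 2) ≤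
        ENNReal.ofReal 3 * ENNReal.ofReal (‖SN X γ - ∑ n ∈ Finset.Icc 1 X, dr γ n‖ ^ 2) +
        (ENNReal.ofReal 3 * ENNReal.ofReal (‖(∑ n ∈ Finset.Icc 1 X, dr γ n) -
          FH (fun j => (fs γ j : ℂ)) (fun j => (sd γ j : ℂ)) * ∏ j, Pp X (fs γ) (sd γ) j‖ ^ 2) +
        ENNReal.ofReal (3 * (C3 * T ^ ε * T⁻¹))) := by
      intro γ hγ
      have h4 := sq_add_three (SN X γ - ∑ n ∈ Finset.Icc 1 X, dr γ n)
        ((∑ n ∈ Finset.Icc 1 X, dr γ n) -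
          FH (fun j => (fs γ j : ℂ)) (fun j => (sd γ j : ℂ)) * ∏ j, Pp X (fs γ) (sd γ) j)
        (FH (fun j => (fs γ j : ℂ)) (fun j => (sd γ j : ℂ)) * ∏ j, Pp X (fs γ) (sd γ) j - zr γ)
      have e1 : SN X γ - ∑ n ∈ Finset.Icc 1 X, dr γ n + ((∑ n ∈ Finset.Icc 1 X, dr γ n) -
          FH (fun j => (fs γ j : ℂ)) (fun j => (sd γ j : ℂ)) * ∏ j, Pp X (fs γ) (sd γ) j) +
        (FH (fun j => (fs γ j : ℂ)) (fun j => (sd γ j : ℂ)) * ∏ j, Pp X (fs γ) (sd γ) j - zr γ) =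
        SN X γ - zr γ := by ring
      rw [e1] at h4
      have h5 := h3 T X hT' hX1 hX2 γ hγ
      rw [← ENNReal.ofReal_mul (by norm_num), ← ENNReal.ofReal_mul (by norm_num),
        ← ENNReal.ofReal_add (by positivity) (by positivity),
        ← ENNReal.ofReal_add (by positivity) (by positivity)]
      exact ENNReal.ofReal_le_ofReal (by linarith)
    have hSm : MeasurableSet (Sep k T) := Sep_meas k T
    refine (setLIntegral_mono' hSm hpt).trans ?_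
    refine (setLIntegral_le_lintegral _ _).trans ?_
    rw [lintegral_add_left (hm1.const_mul _), lintegral_add_right _ measurable_const,
      lintegral_const, mP_univ2 k hT0.le, lintegral_const_mul _ hm1,
      lintegral_const_mul' _ _ ENNReal.ofReal_ne_top, ← ENNReal.ofReal_mul (by positivity)]
    calc _ ≤ ENNReal.ofReal 3 * ENNReal.ofReal (C1 * T ^ ε * T ^ (2 * k) * T⁻¹) +
          (ENNReal.ofReal 3 * ENNReal.ofReal (C2 * T ^ ε * T ^ (2 * k) * T⁻¹) +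
            ENNReal.ofReal (3 * (C3 * T ^ ε * T⁻¹) * T ^ (2 * k))) := by
          gcongr
          · exact h1 T X hT4 hTX hX2
          · exact h2 T X hT4 hTX hX2
      _ = _ := by
          rw [← ENNReal.ofReal_mul (by norm_num), ← ENNReal.ofReal_mul (by norm_num),
            ← ENNReal.ofReal_add (by positivity) (by positivity),
            ← ENNReal.ofReal_add (by positivity) (by positivity)]
          congr 1
          ring
  intro k ε hε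
  obtain ⟨C, T₀, hC, hT₀, h⟩ := main k (min ε (1 / 2)) (by positivity)
    ((min_le_right _ _).trans_lt (by norm_num))
  refine ⟨C, T₀, hC, hT₀, fun T X hT' hX1 hX2 => (h T X hT' hX1 hX2).trans (ENNReal.ofReal_le_ofReal ?_)⟩
  have hT1 : 1 ≤ T := by linarith
  have hT0 : 0 < T := by linarith
  have : T ^ (min ε (1 / 2)) ≤ T ^ ε := Real.rpow_le_rpow_of_exponent_le hT1 (min_le_left _ _)
  gcongr

end

end Pool.Agent.D0H82.SR
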