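import Pool.Agent.D0H82.SR.A
import Pool.Agent.D0H82.SR.L
import Pool.Agent.D0H82.SR.M

set_option autoImplicit false

/-! MS: the mean square of the difference of the moment and the recipe. -/

namespace Pool.Agent.D0H82.SR

open Complex Filter Topology MeasureTheory Set
open Pool.Agent.TH612.CF
open Pool.Agent.TH612.GS
open Pool.Agent.W182.KO

noncomputable section

variable {k : ℕ}

/-- the integral of the product of the partial sums -/
def IX (X : ℕ) (S : ℝ) (γ : Fin k ⊕ Fin k → ℝ) : ℂ :=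
  ∫ t in (0:ℝ)..S, ∏ j : Fin k, PN X (t + γ (Sum.inl j)) * (starRingEnd ℂ) (PN X (t + γ (Sum.inr j)))

lemma DD_bd (hINV : S_INV) {X : ℕ} {S T C : ℝ} (hS : 0 ≤ S)
    (hT : 3 ≤ T) (hC : 0 < C)
    (h1 : ∀ v : ℝ, 1 ≤ |v| → |v| ≤ T → ‖riemannZeta (1 + I * v)‖ ≤ C * Real.log T)
    {γ : Fin k ⊕ Fin k → ℝ} (hγ : γ ∈ Sep k T) :
    ‖DD S γ‖ ≤ ‖A1 X S γ‖ + ‖IX X S γ - S * SN X γ‖ + S * ‖SN X γ - zr γ‖ +
      ZB k C T * ∑ π ∈ (Pk k)ᶜ, ‖IG S γ π‖ := by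
  rw [DD_eq hINV]
  have e2 : (∫ t in (0:ℝ)..S, Zg γ t) - S * zr γ -
      ((Nat.factorial k : ℂ) ^ 2)⁻¹ * ∑ π ∈ (Pk k)ᶜ, IG S γ π * zp γ π =
      A1 X S γ + (IX X S γ - S * SN X γ) + S * (SN X γ - zr γ)
       - ((Nat.factorial k : ℂ) ^ 2)⁻¹ * ∑ π ∈ (Pk k)ᶜ, IG S γ π * zp γ π := by
    unfold A1 IX
    simp only [Zg_fz]
    ring
  rw [e2]
  have n2 : ‖((Nat.factorial k : ℂ) ^ 2)⁻¹ * ∑ π ∈ (Pk k)ᶜ, IG S γ π * zp γ π‖ ≤
      ZB k C T * ∑ π ∈ (Pk k)ᶜ, ‖IG S γ π‖ := by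
    rw [norm_mul]
    calc _ ≤ 1 * ‖∑ π ∈ (Pk k)ᶜ, IG S γ π * zp γ π‖ := by
          gcongr
          exact inv_le_one
      _ ≤ 1 * ∑ π ∈ (Pk k)ᶜ, ‖IG S γ π * zp γ π‖ := by
          gcongr
          exact norm_sum_le _ _
      _ ≤ 1 * ∑ π ∈ (Pk k)ᶜ, ‖IG S γ π‖ * ZB k C T := by
          gcongr with π hπ
          rw [norm_mul]
          gcongr
          exact zp_bd hT hC h1 hγ π
      _ = _ := by rw [one_mul, ← Finset.sum_mul, mul_comm]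
  have n6 : ‖(S:ℂ) * (SN X γ - zr γ)‖ = S * ‖SN X γ - zr γ‖ := by
    rw [norm_mul, Complex.norm_real, Real.norm_of_nonneg hS]
  refine (norm_sub_le _ _).trans (add_le_add ?_ n2)
  refine (norm_add_le _ _).trans (add_le_add ?_ n6.le)
  exact norm_add_le _ _

lemma four_sq (a b c d : ℝ) : (a + b + c + d) ^ 2 ≤ 4 * a ^ 2 + 4 * b ^ 2 + 4 * c ^ 2 + 4 * d ^ 2 := by
  nlinarith [sq_nonneg (a - b), sq_nonneg (a - c), sq_nonneg (a - d), sq_nonneg (b - c),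
    sq_nonneg (b - d), sq_nonneg (c - d)]

lemma comb (n : ℕ) {a b c d e f g : ℝ} (ha : 0 ≤ a) (hb : 0 ≤ b) (hc : 0 ≤ c) (hd : 0 ≤ d)
    (he : 0 ≤ e) (hf : 0 ≤ f) (hg : 0 ≤ g) :
    ENNReal.ofReal a * ENNReal.ofReal b + (ENNReal.ofReal a * ENNReal.ofReal c +
      ((n : ENNReal) * (ENNReal.ofReal d * ENNReal.ofReal e) + ENNReal.ofReal f * ENNReal.ofReal g)) =
    ENNReal.ofReal (a * b + (a * c + (n * (d * e) + f * g))) := by
  rw [ENNReal.ofReal_add (by positivity) (by positivity),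
    ENNReal.ofReal_add (by positivity) (by positivity),
    ENNReal.ofReal_add (by positivity) (by positivity), ENNReal.ofReal_mul ha, ENNReal.ofReal_mul ha,
    ENNReal.ofReal_mul (by positivity : (0:ℝ) ≤ (n : ℝ)), ENNReal.ofReal_mul hd, ENNReal.ofReal_mul hf,
    ENNReal.ofReal_natCast]

theorem t_MS (hZX : S_ZX) (hOD : S_OD) (hDC : S_DC) (hSWS : S_SWS) (hONE : S_ONE) (hINV : S_INV) :
    S_MS := by
  classical
  intro k ε hε
  obtain ⟨C1, T1, hC1, hT1, h1⟩ := hZX k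
  obtain ⟨C2, T2, hC2, hT2, h2⟩ := hOD k ε hε
  obtain ⟨C3, T3, hC3, hT3, h3⟩ := hDC k ε hε
  obtain ⟨C4, T4, hC4, hT4, h4⟩ := hSWS k
  obtain ⟨C5, T5, hC5, hT5, h5⟩ := hONE
  obtain ⟨C6, hC6, h6⟩ := logpow (2 * k + 1) hε
  obtain ⟨C7, hC7, h7⟩ := logpow (k ^ 2 * 2 + 2) hε
  set N : ℝ := ((Pk k)ᶜ.card : ℝ) with hN
  refine ⟨4 * (C1 * C6) + 4 * C2 + 4 * C3 + 4 * (BF k (1 / 8) ^ 2 * C5 ^ (k ^ 2 * 2) * (N * (N * (C4 * C7)))) + 1,
    max 4 (max T1 (max T2 (max T3 (max T4 T5)))), by positivity, le_max_left _ _,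
    fun T S hT hS hST => ?_⟩
  have hT4' : 4 ≤ T := (le_max_left _ _).trans hT
  have hr := (le_max_right _ _).trans hT
  have hTT1 : T1 ≤ T := (le_max_left _ _).trans hr
  have hr2 := (le_max_right _ _).trans hr
  have hTT2 : T2 ≤ T := (le_max_left _ _).trans hr2
  have hr3 := (le_max_right _ _).trans hr2
  have hTT3 : T3 ≤ T := (le_max_left _ _).trans hr3
  have hr4 := (le_max_right _ _).trans hr3
  have hTT4 : T4 ≤ T := (le_max_left _ _).trans hr4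
  have hTT5 : T5 ≤ T := (le_max_right _ _).trans hr4
  have hT0 : 0 < T := by linarith
  have hT1' : 1 ≤ T := by linarith
  set X : ℕ := ⌈2 * T⌉₊ with hX
  have hX1 : 2 * T ≤ X := Nat.le_ceil _
  have hX2 : (X : ℝ) ≤ 4 * T := by
    have := Nat.ceil_lt_add_one (show 0 ≤ 2 * T by linarith)
    rw [← hX] at this
    linarith
  have hone := (h5 T 1 hTT5 le_rfl (by
    push_cast
    exact Real.one_le_rpow hT1' (by norm_num))).1
  have hlog0 : 0 ≤ Real.log T := Real.log_nonneg hT1'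
  set Z : ℝ := ZB k C5 T with hZ
  have hZ0 : 0 ≤ Z := by
    rw [hZ]
    unfold ZB
    have : 0 ≤ BF k (1 / 8) := (Real.exp_pos _).le
    positivity
  -- pointwise
  have hpt : ∀ γ ∈ Sep k T, ENNReal.ofReal (‖DD S γ‖ ^ 2) ≤
      ENNReal.ofReal 4 * ENNReal.ofReal (‖A1 X S γ‖ ^ 2) +
      (ENNReal.ofReal 4 * ENNReal.ofReal (‖IX X S γ - S * SN X γ‖ ^ 2) +
      ((∑ π ∈ (Pk k)ᶜ, ENNReal.ofReal (4 * (Z ^ 2 * N)) * ENNReal.ofReal (‖IG S γ π‖ ^ 2)) +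
      ENNReal.ofReal (4 * (S * T)) * ENNReal.ofReal (‖SN X γ - zr γ‖ ^ 2))) := by
    intro γ hγ
    have g1 := DD_bd hINV (X := X) hS (by linarith) hC5 hone hγ
    have g2 : ‖DD S γ‖ ^ 2 ≤ 4 * ‖A1 X S γ‖ ^ 2 + 4 * ‖IX X S γ - S * SN X γ‖ ^ 2 +
        4 * (S * ‖SN X γ - zr γ‖) ^ 2 + 4 * (Z * ∑ π ∈ (Pk k)ᶜ, ‖IG S γ π‖) ^ 2 :=
      (pow_le_pow_left₀ (norm_nonneg _) g1 2).trans (four_sq _ _ _ _)
    have g3 : (∑ π ∈ (Pk k)ᶜ, ‖IG S γ π‖) ^ 2 ≤ N * ∑ π ∈ (Pk k)ᶜ, ‖IG S γ π‖ ^ 2 :=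
      sq_sum_le_card_mul_sum_sq
    have g4 : (S * ‖SN X γ - zr γ‖) ^ 2 ≤ S * T * ‖SN X γ - zr γ‖ ^ 2 := by
      rw [mul_pow]
      refine mul_le_mul_of_nonneg_right ?_ (by positivity)
      nlinarith
    have g5 : (Z * ∑ π ∈ (Pk k)ᶜ, ‖IG S γ π‖) ^ 2 ≤ Z ^ 2 * N * ∑ π ∈ (Pk k)ᶜ, ‖IG S γ π‖ ^ 2 := by
      rw [mul_pow, mul_assoc]
      exact mul_le_mul_of_nonneg_left g3 (by positivity)
    have hN0 : 0 ≤ N := by rw [hN]; positivity
    have g6 : (∑ π ∈ (Pk k)ᶜ, ENNReal.ofReal (4 * (Z ^ 2 * N)) * ENNReal.ofReal (‖IG S γ π‖ ^ 2)) =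
        ENNReal.ofReal (4 * (Z ^ 2 * N * ∑ π ∈ (Pk k)ᶜ, ‖IG S γ π‖ ^ 2)) := by
      rw [← Finset.mul_sum, ← ENNReal.ofReal_sum_of_nonneg fun _ _ => by positivity,
        ← ENNReal.ofReal_mul (by positivity)]
      congr 1
      ring
    have hs0 : 0 ≤ ∑ π ∈ (Pk k)ᶜ, ‖IG S γ π‖ ^ 2 := Finset.sum_nonneg fun _ _ => by positivity
    rw [g6, ← ENNReal.ofReal_mul (by norm_num), ← ENNReal.ofReal_mul (by norm_num),
      ← ENNReal.ofReal_mul (by positivity), ← ENNReal.ofReal_add (by positivity) (by positivity),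
      ← ENNReal.ofReal_add (by positivity) (by positivity),
      ← ENNReal.ofReal_add (by positivity) (by positivity)]
    exact ENNReal.ofReal_le_ofReal (by linarith)
  have hm1 : Measurable fun γ : Fin k ⊕ Fin k → ℝ => ENNReal.ofReal (‖A1 X S γ‖ ^ 2) :=
    meas_sq (A1_cont X S)
  have hm2 : Measurable fun γ : Fin k ⊕ Fin k → ℝ =>
      ENNReal.ofReal (‖IX X S γ - S * SN X γ‖ ^ 2) :=
    meas_sq ((intprod_cont (PN_cont X) S).sub (continuous_const.mul (SN_cont X)))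
  have hm3 : ∀ π : Equiv.Perm (Fin k ⊕ Fin k), Measurable fun γ : Fin k ⊕ Fin k → ℝ =>
      ENNReal.ofReal (‖IG S γ π‖ ^ 2) := fun π => meas_sq (IG_cont S π)
  refine (setLIntegral_mono' (Sep_meas k T) hpt).trans ?_
  rw [lintegral_add_left (hm1.const_mul _), lintegral_add_left (hm2.const_mul _),
    lintegral_add_left (Finset.measurable_sum _ fun π _ => (hm3 π).const_mul _),
    lintegral_const_mul _ hm1, lintegral_const_mul _ hm2,
    lintegral_finsetSum _ fun π _ => (hm3 π).const_mul _,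
    lintegral_const_mul' _ _ ENNReal.ofReal_ne_top]
  simp_rw [lintegral_const_mul _ (hm3 _)]
  have hB1 := (setLIntegral_le_lintegral (Sep k T) (μ := mP (Fin k ⊕ Fin k) T)
    fun γ => ENNReal.ofReal (‖A1 X S γ‖ ^ 2)).trans (h1 T S X hTT1 hS hST hX1 hX2)
  have hB2 := (setLIntegral_le_lintegral (Sep k T) (μ := mP (Fin k ⊕ Fin k) T)
    fun γ => ENNReal.ofReal (‖IX X S γ - S * SN X γ‖ ^ 2)).trans (h2 T S X hTT2 hS hST hX1 hX2)
  have hB3 := h3 T X hTT3 hX1 hX2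
  have hB4 : ∀ π ∈ (Pk k)ᶜ, ∫⁻ γ in Sep k T, ENNReal.ofReal (‖IG S γ π‖ ^ 2)
      ∂(mP (Fin k ⊕ Fin k) T) ≤ ENNReal.ofReal (C4 * T ^ (2 * k) * S * Real.log T ^ 2) := by
    intro π hπ
    refine (setLIntegral_le_lintegral (Sep k T) _).trans ?_
    refine h4 T S π hTT4 hS hST ?_
    by_contra hcon
    push Not at hcon
    rw [Finset.mem_compl] at hπ
    apply hπ
    unfold Pk
    rw [Finset.mem_filter]
    refine ⟨Finset.mem_univ _, fun j => ?_⟩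
    have := hcon j
    simpa using this
  have hlg1 : Real.log T ^ (2 * k + 1) ≤ C6 * T ^ ε := by
    refine le_trans ?_ (h6 T hT1')
    exact pow_le_pow_left₀ hlog0 (by linarith) _
  have hlg2 : Real.log T ^ (k ^ 2 * 2 + 2) ≤ C7 * T ^ ε := by
    refine le_trans ?_ (h7 T hT1')
    exact pow_le_pow_left₀ hlog0 (by linarith) _
  have hN0 : 0 ≤ N := by rw [hN]; positivity
  calc _ ≤ ENNReal.ofReal 4 * ENNReal.ofReal (C1 * Real.log T ^ (2 * k + 1) * T ^ (2 * k) * S) +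
        (ENNReal.ofReal 4 * ENNReal.ofReal (C2 * T ^ ε * T ^ (2 * k) * S) +
        ((∑ _π ∈ (Pk k)ᶜ, ENNReal.ofReal (4 * (Z ^ 2 * N)) *
          ENNReal.ofReal (C4 * T ^ (2 * k) * S * Real.log T ^ 2)) +
        ENNReal.ofReal (4 * (S * T)) * ENNReal.ofReal (C3 * T ^ ε * T ^ (2 * k) * T⁻¹))) := by
        gcongr with π hπ
        exact hB4 π hπ
    _ = ENNReal.ofReal (4 * (C1 * Real.log T ^ (2 * k + 1) * T ^ (2 * k) * S) +
        (4 * (C2 * T ^ ε * T ^ (2 * k) * S) +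
        (N * (4 * (Z ^ 2 * N) * (C4 * T ^ (2 * k) * S * Real.log T ^ 2)) +
        4 * (S * T) * (C3 * T ^ ε * T ^ (2 * k) * T⁻¹)))) := by
        rw [Finset.sum_const, nsmul_eq_mul]
        exact comb _ (by norm_num) (by positivity) (by positivity) (by positivity) (by positivity)
          (by positivity) (by positivity)
    _ ≤ _ := by
        refine ENNReal.ofReal_le_ofReal ?_
        have k1 : 4 * (C1 * Real.log T ^ (2 * k + 1) * T ^ (2 * k) * S) ≤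
            4 * (C1 * C6) * T ^ ε * T ^ (2 * k) * S := by
          calc _ ≤ 4 * (C1 * (C6 * T ^ ε) * T ^ (2 * k) * S) := by gcongr
            _ = _ := by ring
        have k2 : 4 * (S * T) * (C3 * T ^ ε * T ^ (2 * k) * T⁻¹) = 4 * C3 * T ^ ε * T ^ (2 * k) * S := by
          field_simp
        have k3 : N * (4 * (Z ^ 2 * N) * (C4 * T ^ (2 * k) * S * Real.log T ^ 2)) ≤
            4 * (BF k (1 / 8) ^ 2 * C5 ^ (k ^ 2 * 2) * (N * (N * (C4 * C7)))) * T ^ ε * T ^ (2 * k) * S := by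
          have e3 : Z ^ 2 = BF k (1 / 8) ^ 2 * C5 ^ (k ^ 2 * 2) * Real.log T ^ (k ^ 2 * 2) := by
            rw [hZ]
            unfold ZB
            rw [mul_pow, ← pow_mul, mul_pow]
            ring
          rw [e3]
          calc _ = 4 * (BF k (1 / 8) ^ 2 * C5 ^ (k ^ 2 * 2) * (N * (N * (C4 *
                Real.log T ^ (k ^ 2 * 2 + 2))))) * T ^ (2 * k) * S := by
                rw [pow_add]; ring
            _ ≤ 4 * (BF k (1 / 8) ^ 2 * C5 ^ (k ^ 2 * 2) * (N * (N * (C4 *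
                (C7 * T ^ ε))))) * T ^ (2 * k) * S := by gcongr
            _ = _ := by ring
        rw [k2]
        have k4 : 0 ≤ 1 * T ^ ε * T ^ (2 * k) * S := by positivity
        calc _ ≤ 4 * (C1 * C6) * T ^ ε * T ^ (2 * k) * S +
              (4 * (C2 * T ^ ε * T ^ (2 * k) * S) +
              (4 * (BF k (1 / 8) ^ 2 * C5 ^ (k ^ 2 * 2) * (N * (N * (C4 * C7)))) * T ^ ε * T ^ (2 * k) * S +
              4 * C3 * T ^ ε * T ^ (2 * k) * S)) := by gcongr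
          _ ≤ 4 * (C1 * C6) * T ^ ε * T ^ (2 * k) * S +
              (4 * (C2 * T ^ ε * T ^ (2 * k) * S) +
              (4 * (BF k (1 / 8) ^ 2 * C5 ^ (k ^ 2 * 2) * (N * (N * (C4 * C7)))) * T ^ ε * T ^ (2 * k) * S +
              4 * C3 * T ^ ε * T ^ (2 * k) * S)) + 1 * T ^ ε * T ^ (2 * k) * S := by linarith
          _ = _ := by ring

end

end Pool.Agent.D0H82.SR
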