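import Pool.Agent.D0H82.SR.R
import Pool.Agent.D0H82.SR.L
import Pool.Agent.D0H82.SR.M
import Pool.Agent.D0H82.SR.N
import Pool.Agent.TH612.GS.All
import Pool.Agent.TH236.GF.OQ
import Pool.Agent.TH321.GF.AQ
import Pool.Agent.TH738.GF.TMV
import Pool.Agent.TH740.GF.VQ

set_option autoImplicit false

/-! Project SR: all parts together. -/

namespace Pool.Agent.D0H82.SR

open MeasureTheory Pool.Agent.TH612.GS

theorem all_main : S_FIN := by
  have hMV := Pool.Agent.TH928.GS.t_MV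
  have hTMV := Pool.Agent.TH738.GF.t_TMV hMV
  have hOQ := Pool.Agent.TH236.GF.t_OQ Pool.Agent.TH321.GF.t_AQ
  have hVQ := Pool.Agent.TH740.GF.t_VQ hMV
  have hREP := Pool.Agent.TH521.GS.t_REP
  have hREP2 := Pool.Agent.TH521.GS.t_REP2
  have hSM := Pool.Agent.TH570.GS.t_SM
  have hONE := Pool.Agent.TH811.GS.t_ONE hMV
  have hNS := Pool.Agent.TH767.GS.t_NS
  have hZX : S_ZX := t_ZX hREP hOQ hSM hVQ
  have hOD : S_OD := t_OD hTMV
  have hDC : S_DC := t_DC hTMV
  have hMS : S_MS := t_MS hZX hOD hDC t_SWS hONE t_INV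
  exact t_FIN hMS hNS (t_Z2 hREP2 hSM) hONE t_INV

end Pool.Agent.D0H82.SR
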