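import Pool.Agent.D0H82.SR.P
import Pool.Agent.D0H82.SR.C

set_option autoImplicit false

/-! FIN: the main theorem from the mean squares. -/

namespace Pool.Agent.D0H82.SR

open Complex Filter Topology MeasureTheory Set
open Pool.Agent.TH612.CF
open Pool.Agent.TH612.GS

noncomputable section

variable {k : ℕ}

lemma ev_pow (K : ℝ) {η : ℝ} (hη : 0 < η) : ∃ T₀ : ℝ, 1 ≤ T₀ ∧ ∀ T : ℝ, T₀ ≤ T → K ≤ T ^ η := by
  have h := (tendsto_rpow_atTop hη).eventually_ge_atTop K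
  obtain ⟨T₀, h⟩ := eventually_atTop.1 h
  exact ⟨max 1 T₀, le_max_left _ _, fun T hT => h T ((le_max_right _ _).trans hT)⟩

/-- comparison of powers -/
lemma pow_cmp {K a b T : ℝ} (hT : 0 < T) (h : 3 * K ≤ T ^ (b - a)) : K * T ^ a ≤ 1 / 3 * T ^ b := by
  have e : T ^ b = T ^ (b - a) * T ^ a := by rw [← Real.rpow_add hT]; congr 1; ring
  rw [e]
  have : 0 ≤ T ^ a := by positivity
  nlinarith

/-- the thresholds -/
def th3 (T ε : ℝ) (n : ℕ) : ℝ := Real.sqrt n * T ^ ε / 3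

lemma th3_sq {T ε : ℝ} (hT : 0 < T) (n : ℕ) : th3 T ε n ^ 2 = n * T ^ (2 * ε) / 9 := by
  unfold th3
  rw [div_pow, mul_pow, Real.sq_sqrt (by positivity), ← Real.rpow_natCast (T ^ ε), ← Real.rpow_mul hT.le]
  have e : ε * ((2 : ℕ) : ℝ) = 2 * ε := by push_cast; ring
  rw [e]
  norm_num

lemma th3_pos {T ε : ℝ} (hT : 0 < T) {n : ℕ} (hn : 1 ≤ n) : 0 < th3 T ε n := by
  unfold th3
  have : (0:ℝ) < n := by exact_mod_cast hn
  positivity

/-- the increments -/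
def inc (r m : ℕ) (γ : Fin k ⊕ Fin k → ℝ) : ℂ :=
  DD (((m + 1) * 2 ^ r : ℕ) : ℝ) γ - DD ((m * 2 ^ r : ℕ) : ℝ) γ

/-- the bad sets of the increments -/
def BA (k : ℕ) (T ε : ℝ) (L r m : ℕ) : Set (Fin k ⊕ Fin k → ℝ) :=
  {γ | th3 T ε (2 ^ (L - 1)) / L < ‖inc r m γ‖} ∩ Em k T

/-- the local integral -/
def gn (n : ℕ) (γ : Fin k ⊕ Fin k → ℝ) : ℝ :=
  ∫ t in (n : ℝ)..(n + 1 : ℝ), ‖∏ j : Fin k, z (t + γ (Sum.inl j)) *
      (starRingEnd ℂ) (z (t + γ (Sum.inr j)))‖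

/-- the bad sets of the local integrals -/
def BB (k : ℕ) (T ε : ℝ) (n : ℕ) : Set (Fin k ⊕ Fin k → ℝ) := {γ | th3 T ε n < gn n γ}

lemma BA_le (hINV : S_INV) {C η T ε : ℝ} (hC : 0 < C) (hT : 1 ≤ T)
    (h : ∀ A B : ℝ, 0 ≤ A → A ≤ B → A ≤ 3 * T → B - A ≤ 4 * T →
      ∫⁻ γ in Em k T, ENNReal.ofReal (‖DD B γ - DD A γ‖ ^ 2) ≤
        ENNReal.ofReal (C * T ^ η * T ^ (2 * k) * (B - A)))
    {L r m : ℕ} (hL : 1 ≤ L) (hr : r < L) (hm : m < 2 ^ (L - r)) (hLT : ((2 ^ L : ℕ) : ℝ) ≤ 3 * T) :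
    volume (BA k T ε L r m) ≤ ENNReal.ofReal (C * T ^ η * T ^ (2 * k) * 2 ^ r *
      (18 * L ^ 2 / (2 ^ L * T ^ (2 * ε)))) := by
  have hT0 : 0 < T := by linarith
  have hmr : (m + 1) * 2 ^ r ≤ 2 ^ L := by
    have e : 2 ^ L = 2 ^ (L - r) * 2 ^ r := by rw [← pow_add]; congr 1; omega
    rw [e]
    exact Nat.mul_le_mul_right _ hm
  have hA1 : ((m * 2 ^ r : ℕ) : ℝ) ≤ 3 * T := by
    refine le_trans ?_ hLT
    exact_mod_cast (Nat.mul_le_mul_right _ (Nat.le_succ m)).trans hmr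
  have hB1 : (((m + 1) * 2 ^ r : ℕ) : ℝ) - ((m * 2 ^ r : ℕ) : ℝ) = 2 ^ r := by
    push_cast
    ring
  have hB2 : (2:ℝ) ^ r ≤ 4 * T := by
    have : ((2 ^ r : ℕ) : ℝ) ≤ ((2 ^ L : ℕ) : ℝ) := by
      exact_mod_cast Nat.pow_le_pow_right (by norm_num) hr.le
    push_cast at this hLT
    linarith
  have h1 := h ((m * 2 ^ r : ℕ) : ℝ) (((m + 1) * 2 ^ r : ℕ) : ℝ) (by positivity) (by
    have : (0:ℝ) ≤ 2 ^ r := by positivity
    linarith) hA1 (by rw [hB1]; exact hB2)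
  rw [hB1] at h1
  have hg : AEMeasurable (fun γ : Fin k ⊕ Fin k → ℝ => ‖inc r m γ‖)
      ((volume : Measure (Fin k ⊕ Fin k → ℝ)).restrict (Em k T)) := by
    have h2 : ContinuousOn (fun γ : Fin k ⊕ Fin k → ℝ => ‖inc r m γ‖) (Em k T) := by
      unfold inc
      exact (((DD_contOn hINV (by linarith : 1 ≤ 4 * T) _).sub
        (DD_contOn hINV (by linarith : 1 ≤ 4 * T) _)).norm).mono (Em_sub hT0.le)
    exact h2.aemeasurable (Em_meas k T)
  have hL0 : (0:ℝ) < L := by exact_mod_cast hL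
  have hth : 0 < th3 T ε (2 ^ (L - 1)) / L := div_pos (th3_pos hT0 Nat.one_le_two_pow) hL0
  have h3 := cheb hg hth h1
  rw [Measure.restrict_apply' (Em_meas k T)] at h3
  refine h3.trans (ENNReal.ofReal_le_ofReal (le_of_eq ?_))
  rw [div_pow, th3_sq hT0]
  have e : (2:ℝ) ^ L = 2 * 2 ^ (L - 1) := by
    rw [← pow_succ']
    congr 1
    omega
  rw [e]
  push_cast
  field_simp
  ring

lemma BB_le {C T ε : ℝ} (hT : 1 ≤ T)
    (h : ∀ A B : ℝ, 0 ≤ A → A ≤ B → B ≤ 4 * T →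
      ∫⁻ γ, ENNReal.ofReal ((∫ t in A..B, ‖∏ j : Fin k, z (t + γ (Sum.inl j)) *
        (starRingEnd ℂ) (z (t + γ (Sum.inr j)))‖) ^ 2) ∂(mP (Fin k ⊕ Fin k) (4 * T)) ≤
      ENNReal.ofReal (C * (B - A) ^ 2 * Real.log (4 * T) ^ (2 * k) * (4 * T) ^ (2 * k)))
    {n : ℕ} (hn : 1 ≤ n) (hnT : (n : ℝ) ≤ T) :
    mP (Fin k ⊕ Fin k) (4 * T) (BB k T ε n) ≤ ENNReal.ofReal
      (C * Real.log (4 * T) ^ (2 * k) * (4 * T) ^ (2 * k) * (9 / T ^ (2 * ε)) * (n : ℝ)⁻¹) := by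
  have hT0 : 0 < T := by linarith
  have hn0 : (0:ℝ) < n := by exact_mod_cast hn
  have h1 := h n (n + 1) (by positivity) (by linarith) (by linarith)
  have hg : AEMeasurable (fun γ : Fin k ⊕ Fin k → ℝ => gn n γ) (mP (Fin k ⊕ Fin k) (4 * T)) :=
    (intnorm_cont (n : ℝ) (n + 1 : ℝ)).aemeasurable
  have h3 := cheb hg (th3_pos (ε := ε) hT0 hn) h1
  refine h3.trans (ENNReal.ofReal_le_ofReal (le_of_eq ?_))
  rw [th3_sq hT0, add_sub_cancel_left]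
  field_simp

/-- covering of the exceptional set -/
lemma cover {C T ε : ℝ} (hT : 1 ≤ T) (hC : 0 < C)
    (hz : ∀ v : ℝ, 1 ≤ |v| → |v| ≤ 4 * T → ‖riemannZeta (1 + I * v)‖ ≤ C * Real.log (4 * T))
    (hZB : Fintype.card (Equiv.Perm (Fin k ⊕ Fin k)) * ZB k C (4 * T) ≤ T ^ ε / 3) :
    BadS k T ε ⊆ (Sep k (4 * T))ᶜ ∪
      ((⋃ L ∈ Finset.Icc 1 (Nat.log 2 ⌊T⌋₊ + 1), ⋃ r ∈ Finset.range L, ⋃ m ∈ Finset.range (2 ^ (L - r)),
        BA k T ε L r m) ∪ ⋃ n ∈ Finset.Icc 1 ⌊T⌋₊, BB k T ε n) := by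
  rintro γ ⟨hγ, S, hS1, hST, hbad⟩
  have hT0 : 0 < T := by linarith
  by_contra hcon
  simp only [mem_union, mem_compl_iff, not_or, not_not, mem_iUnion, not_exists] at hcon
  obtain ⟨hsep, hA, hB⟩ := hcon
  have hEm : γ ∈ Em k T := ⟨hγ, hsep.2⟩
  set n : ℕ := ⌊S⌋₊ with hn
  have hn1 : 1 ≤ n := by rw [hn]; exact (Nat.one_le_floor_iff _).2 hS1
  have hnS : (n : ℝ) ≤ S := Nat.floor_le (by linarith)
  have hSn : S < n + 1 := Nat.lt_floor_add_one S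
  have hnT : n ≤ ⌊T⌋₊ := Nat.floor_le_floor hST
  have hn0 : (0:ℝ) < n := by exact_mod_cast hn1
  set L : ℕ := Nat.log 2 n + 1 with hL
  have hL1 : 1 ≤ L := by omega
  have hLM : L ≤ Nat.log 2 ⌊T⌋₊ + 1 := by
    have := Nat.log_mono_right (b := 2) hnT
    omega
  have hpow1 : 2 ^ (L - 1) ≤ n := by
    rw [hL, Nat.add_sub_cancel]
    exact Nat.pow_log_le_self 2 (by omega)
  have hpow2 : n < 2 ^ L := Nat.lt_pow_succ_log_self (by norm_num) n
  have hL0 : (0:ℝ) < L := by exact_mod_cast hL1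
  -- the integer point
  have hth0 : 0 < th3 T ε (2 ^ (L - 1)) := th3_pos hT0 Nat.one_le_two_pow
  have hch := chain (f := fun n : ℕ => DD (n : ℝ) γ)
    (a := fun _ => th3 T ε (2 ^ (L - 1)) / L) (fun _ => (div_pos hth0 hL0).le) (M := 2 ^ L) (L₀ := L)
    (fun r m hr hrm => by
      have hm : m < 2 ^ (L - r) := by
        have e : 2 ^ L = 2 ^ (L - r) * 2 ^ r := by rw [← pow_add]; congr 1; omega
        rw [e] at hrm
        exact Nat.le_of_mul_le_mul_right hrm (by positivity)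
      have h1 := hA L (Finset.mem_Icc.2 ⟨hL1, hLM⟩) r (Finset.mem_range.2 hr) m (Finset.mem_range.2 hm)
      unfold BA at h1
      simp only [mem_inter_iff, mem_ofPred_eq, not_and] at h1
      by_contra h2
      push Not at h2
      exact h1 h2 hEm) L 0 n le_rfl (dvd_zero _) hpow2 (by omega)
  have hD0 : DD ((0 : ℕ) : ℝ) γ = 0 := by
    unfold DD
    simp
  simp only [zero_add, hD0, sub_zero, Finset.sum_const, Finset.card_range, nsmul_eq_mul] at hch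
  have hch2 : ‖DD (n : ℝ) γ‖ ≤ th3 T ε n := by
    refine hch.trans ?_
    rw [mul_div_cancel₀ _ hL0.ne']
    unfold th3
    have : Real.sqrt ((2 ^ (L - 1) : ℕ) : ℝ) ≤ Real.sqrt n := Real.sqrt_le_sqrt (by exact_mod_cast hpow1)
    gcongr
  -- the local integral
  have hB1 : gn n γ ≤ th3 T ε n := by
    have h1 := hB n (Finset.mem_Icc.2 ⟨hn1, hnT⟩)
    unfold BB at h1
    simp only [mem_ofPred_eq, not_lt] at h1
    exact h1
  have hcont : Continuous fun t : ℝ => ‖∏ j : Fin k, z (t + γ (Sum.inl j)) *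
      (starRingEnd ℂ) (z (t + γ (Sum.inr j)))‖ := by
    refine (continuous_finsetProd _ fun j _ => ?_).norm
    exact (z_cont.comp (by fun_prop)).mul (Complex.continuous_conj.comp (z_cont.comp (by fun_prop)))
  have hdiff := DD_diff (A := n) (B := S) (T := 4 * T) hnS (by linarith) hC hz hsep
  have hg : (∫ t in (n:ℝ)..S, ‖∏ j : Fin k, z (t + γ (Sum.inl j)) *
      (starRingEnd ℂ) (z (t + γ (Sum.inr j)))‖) ≤ gn n γ := by
    unfold gn
    refine intervalIntegral.integral_mono_interval le_rfl hnS hSn.le ?_ (hcont.intervalIntegrable _ _)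
    exact Eventually.of_forall fun t => norm_nonneg _
  have hZ0 : 0 ≤ Fintype.card (Equiv.Perm (Fin k ⊕ Fin k)) * ZB k C (4 * T) := by
    unfold ZB
    have : 0 ≤ BF k (1 / 8) := (Real.exp_pos _).le
    have : 0 ≤ Real.log (4 * T) := Real.log_nonneg (by linarith)
    positivity
  have hfr : (S - n) * (Fintype.card (Equiv.Perm (Fin k ⊕ Fin k)) * ZB k C (4 * T)) ≤ T ^ ε / 3 := by
    refine le_trans ?_ hZB
    have : S - n ≤ 1 := by linarith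
    calc _ ≤ 1 * (Fintype.card (Equiv.Perm (Fin k ⊕ Fin k)) * ZB k C (4 * T)) := by gcongr
      _ = _ := one_mul _
  have hfin : ‖DD S γ‖ ≤ th3 T ε n + th3 T ε n + T ^ ε / 3 := by
    have e : DD S γ = DD (n : ℝ) γ + (DD S γ - DD (n : ℝ) γ) := by ring
    rw [e]
    refine (norm_add_le _ _).trans ?_
    linarith
  have hsq : 1 ≤ Real.sqrt n := by
    rw [Real.one_le_sqrt]
    exact_mod_cast hn1
  have hTe : 0 < T ^ ε := by positivity
  have hlast : th3 T ε n + th3 T ε n + T ^ ε / 3 ≤ S ^ (1 / 2 : ℝ) * T ^ ε := by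
    rw [← Real.sqrt_eq_rpow]
    have h1 : Real.sqrt n ≤ Real.sqrt S := Real.sqrt_le_sqrt hnS
    unfold th3
    calc _ ≤ Real.sqrt n * T ^ ε / 3 + Real.sqrt n * T ^ ε / 3 + Real.sqrt n * T ^ ε / 3 := by
          have : T ^ ε ≤ Real.sqrt n * T ^ ε := le_mul_of_one_le_left hTe.le hsq
          linarith
      _ = Real.sqrt n * T ^ ε := by ring
      _ ≤ _ := by gcongr
  linarith

end

end Pool.Agent.D0H82.SR
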