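import Pool.Agent.D0H82.SR.I
import Pool.Agent.TH612.GS.Asm3

set_option autoImplicit false

/-! Mean squares over all the shifts: row products against the truncated sums. -/

namespace Pool.Agent.D0H82.SR

open Complex Filter Topology MeasureTheory Set
open Pool.Agent.TH612.CF
open Pool.Agent.TH612.GS
open Pool.Agent.W182.KO

noncomputable section

variable {k : ℕ}

/-- the first block of a shift vector -/
def fs (γ : Fin k ⊕ Fin k → ℝ) : Fin k → ℝ := fun j => γ (Sum.inl j)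

/-- the second block of a shift vector -/
def sd (γ : Fin k ⊕ Fin k → ℝ) : Fin k → ℝ := fun j => γ (Sum.inr j)

lemma fs_elim (α β : Fin k → ℝ) : fs (Sum.elim α β) = α := rfl
lemma sd_elim (α β : Fin k → ℝ) : sd (Sum.elim α β) = β := rfl

lemma Pp_cont (X : ℕ) (j : Fin k) :
    Continuous fun γ : Fin k ⊕ Fin k → ℝ => Pp X (fs γ) (sd γ) j := by
  unfold Pp zN fs sd
  refine continuous_finsetProd _ fun l _ => continuous_finsetSum _ fun n hn => ?_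
  have hn0 : (n : ℂ) ≠ 0 := by
    have := (Finset.mem_Icc.1 hn).1
    exact_mod_cast (by omega : n ≠ 0)
  exact Continuous.const_cpow (by fun_prop) (Or.inl hn0)

lemma row_cont (j : Fin k) (m : ℕ) :
    Continuous fun γ : Fin k ⊕ Fin k → ℝ => tau (fun l => lam (fs γ) (sd γ) (j, l)) m := by
  refine tau_cont' (l := fun γ l => lam (fs γ) (sd γ) (j, l)) (fun l => ?_) m
  unfold lam fs sd
  fun_prop

lemma Rr_cont (X : ℕ) (j : Fin k) :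
    Continuous fun γ : Fin k ⊕ Fin k → ℝ => Rr X (fs γ) (sd γ) j := by
  unfold Rr
  exact continuous_finsetSum _ fun m _ => (row_cont j m).mul continuous_const

lemma WW_cont (y : ℕ) : Continuous fun γ : Fin k ⊕ Fin k → ℝ => WW y (fs γ) (sd γ) := by
  simp only [WW_eq (le_refl y)]
  exact continuous_finsetSum _ fun m _ => continuous_finsetProd _ fun j _ =>
    (row_cont j _).mul continuous_const

lemma mP_univ (k : ℕ) {T : ℝ} (hT : 0 ≤ T) : mP (Fin k) T univ = ENNReal.ofReal (T ^ k) := by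
  unfold mP
  rw [Measure.pi_univ]
  simp only [Measure.restrict_apply_univ, Real.volume_Icc, sub_zero, Finset.prod_const,
    Finset.card_univ, Fintype.card_fin]
  rw [ENNReal.ofReal_pow hT]

lemma mP_univ2 (k : ℕ) {T : ℝ} (hT : 0 ≤ T) :
    mP (Fin k ⊕ Fin k) T univ = ENNReal.ofReal (T ^ (2 * k)) := by
  unfold mP
  rw [Measure.pi_univ]
  simp only [Measure.restrict_apply_univ, Real.volume_Icc, sub_zero, Finset.prod_const,
    Finset.card_univ, Fintype.card_sum, Fintype.card_fin]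
  rw [ENNReal.ofReal_pow hT, two_mul]

/-- a bound for the inner integral over the second block gives one for the whole -/
lemma lint_bd {T B : ℝ} (hT : 0 ≤ T) {F : (Fin k ⊕ Fin k → ℝ) → ENNReal} (hF : Measurable F)
    (h : ∀ α : Fin k → ℝ, ∫⁻ β, F (Sum.elim α β) ∂(mP (Fin k) T) ≤ ENNReal.ofReal B) :
    ∫⁻ γ, F γ ∂(mP (Fin k ⊕ Fin k) T) ≤ ENNReal.ofReal (T ^ k * B) := by
  rw [lint_sum T hF]
  refine (lintegral_mono h).trans ?_
  rw [lintegral_const, mP_univ k hT, mul_comm, ← ENNReal.ofReal_mul (by positivity)]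

/-- the same with the first block inside -/
lemma lint_bd' {T B : ℝ} (hT : 0 ≤ T) {F : (Fin k ⊕ Fin k → ℝ) → ENNReal} (hF : Measurable F)
    (h : ∀ β : Fin k → ℝ, ∫⁻ α, F (Sum.elim α β) ∂(mP (Fin k) T) ≤ ENNReal.ofReal B) :
    ∫⁻ γ, F γ ∂(mP (Fin k ⊕ Fin k) T) ≤ ENNReal.ofReal (T ^ k * B) := by
  rw [lint_sum' T hF]
  refine (lintegral_mono h).trans ?_
  rw [lintegral_const, mP_univ k hT, mul_comm, ← ENNReal.ofReal_mul (by positivity)]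

lemma meas_sq {f : (Fin k ⊕ Fin k → ℝ) → ℂ} (hf : Continuous f) :
    Measurable fun γ => ENNReal.ofReal (‖f γ‖ ^ 2) :=
  ((hf.norm.pow 2).measurable).ennreal_ofReal

lemma sq_add_two (a b : ℂ) : ‖a + b‖ ^ 2 ≤ 2 * ‖a‖ ^ 2 + 2 * ‖b‖ ^ 2 := by
  have h1 := norm_add_le a b
  have h2 := sq_nonneg (‖a‖ - ‖b‖)
  calc ‖a + b‖ ^ 2 ≤ (‖a‖ + ‖b‖) ^ 2 := pow_le_pow_left₀ (norm_nonneg _) h1 2
    _ ≤ _ := by nlinarith

/-- row products against truncated sums -/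
theorem PW_L2 (hT : S_TMV) (k : ℕ) {ε : ℝ} (hε : 0 < ε) (hε1 : ε < 1) : ∃ C : ℝ, 0 < C ∧
    ∀ (T : ℝ) (X y : ℕ), 4 ≤ T → 1 ≤ y → y ≤ X → (X : ℝ) ≤ 4 * T →
    ∫⁻ γ, ENNReal.ofReal (‖WW y (fs γ) (sd γ) - ∏ j, Pp X (fs γ) (sd γ) j‖ ^ 2)
      ∂(mP (Fin k ⊕ Fin k) T) ≤
      ENNReal.ofReal (C * T ^ ε * T ^ (2 * k) * (y : ℝ) ^ (-1 + ε)) := by
  obtain ⟨C1, hC1, h1⟩ := PR_L2 hT k hε hε1
  obtain ⟨C2, hC2, h2⟩ := RW_L2 hT k hε hε1
  obtain ⟨C3, hC3, h3⟩ := logpow (k * k * 2) hε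
  refine ⟨2 * (C3 * 4 ^ ε * k * (k * C1)) + 2 * C2, by positivity, fun T X y hT4 hy hyX hX2 => ?_⟩
  have hT0 : 0 < T := by linarith
  have hX : 1 ≤ X := hy.trans hyX
  have hXr : (1:ℝ) ≤ X := by exact_mod_cast hX
  have hyr : (1:ℝ) ≤ y := by exact_mod_cast hy
  have hTe : 1 ≤ T ^ ε := Real.one_le_rpow (by linarith) hε.le
  set B : ℝ := (1 + Real.log X) ^ k with hB
  have hlog : 0 ≤ Real.log X := Real.log_nonneg hXr
  have hB1 : 1 ≤ B := one_le_pow₀ (by linarith)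
  have hBk : (B ^ k) ^ 2 ≤ C3 * 4 ^ ε * T ^ ε := by
    calc (B ^ k) ^ 2 = (1 + Real.log X) ^ (k * k * 2) := by
          rw [hB, ← pow_mul, ← pow_mul]
          congr 1
          ring
      _ ≤ C3 * (X : ℝ) ^ ε := h3 _ hXr
      _ ≤ C3 * (4 * T) ^ ε := by gcongr
      _ = _ := by rw [Real.mul_rpow (by norm_num) hT0.le]; ring
  have hXy : (X : ℝ) ^ (-1 + ε) ≤ (y : ℝ) ^ (-1 + ε) :=
    Real.rpow_le_rpow_of_nonpos (by linarith) (by exact_mod_cast hyX) (by linarith)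
  -- pointwise
  have hpt : ∀ γ : Fin k ⊕ Fin k → ℝ,
      ENNReal.ofReal (‖WW y (fs γ) (sd γ) - ∏ j, Pp X (fs γ) (sd γ) j‖ ^ 2) ≤
      (∑ j : Fin k, ENNReal.ofReal (2 * (C3 * 4 ^ ε * T ^ ε) * k) *
        ENNReal.ofReal (‖Pp X (fs γ) (sd γ) j - Rr X (fs γ) (sd γ) j‖ ^ 2)) +
      ENNReal.ofReal 2 * ENNReal.ofReal (‖∏ j, Rr X (fs γ) (sd γ) j - WW y (fs γ) (sd γ)‖ ^ 2) := by
    intro γ
    have e1 : WW y (fs γ) (sd γ) - ∏ j, Pp X (fs γ) (sd γ) j =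
        -(∏ j, Pp X (fs γ) (sd γ) j - ∏ j, Rr X (fs γ) (sd γ) j) +
        -(∏ j, Rr X (fs γ) (sd γ) j - WW y (fs γ) (sd γ)) := by ring
    have h4 := sq_add_two (-(∏ j, Pp X (fs γ) (sd γ) j - ∏ j, Rr X (fs γ) (sd γ) j))
      (-(∏ j, Rr X (fs γ) (sd γ) j - WW y (fs γ) (sd γ)))
    rw [norm_neg, norm_neg, ← e1] at h4
    have h5 := prod_diff Finset.univ (fun j => Pp X (fs γ) (sd γ) j) (fun j => Rr X (fs γ) (sd γ) j)
      hB1 (fun j => Pp_le X _ _ j) (fun j => Rr_le X _ _ j)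
    rw [Finset.card_univ, Fintype.card_fin] at h5
    have h6 : ‖∏ j, Pp X (fs γ) (sd γ) j - ∏ j, Rr X (fs γ) (sd γ) j‖ ^ 2 ≤
        (C3 * 4 ^ ε * T ^ ε) * (k * ∑ j : Fin k, ‖Pp X (fs γ) (sd γ) j - Rr X (fs γ) (sd γ) j‖ ^ 2) := by
      have h8 : (∑ j : Fin k, ‖Pp X (fs γ) (sd γ) j - Rr X (fs γ) (sd γ) j‖) ^ 2 ≤
          k * ∑ j : Fin k, ‖Pp X (fs γ) (sd γ) j - Rr X (fs γ) (sd γ) j‖ ^ 2 := by
        have := sq_sum_le_card_mul_sum_sq (s := (Finset.univ : Finset (Fin k)))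
          (f := fun j => ‖Pp X (fs γ) (sd γ) j - Rr X (fs γ) (sd γ) j‖)
        rwa [Finset.card_univ, Fintype.card_fin] at this
      calc _ ≤ (B ^ k * ∑ j : Fin k, ‖Pp X (fs γ) (sd γ) j - Rr X (fs γ) (sd γ) j‖) ^ 2 :=
            pow_le_pow_left₀ (norm_nonneg _) h5 2
        _ = (B ^ k) ^ 2 * (∑ j : Fin k, ‖Pp X (fs γ) (sd γ) j - Rr X (fs γ) (sd γ) j‖) ^ 2 := by ring
        _ ≤ _ := by gcongr
    have h9 : (∑ j : Fin k, ENNReal.ofReal (2 * (C3 * 4 ^ ε * T ^ ε) * k) *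
        ENNReal.ofReal (‖Pp X (fs γ) (sd γ) j - Rr X (fs γ) (sd γ) j‖ ^ 2)) +
      ENNReal.ofReal 2 * ENNReal.ofReal (‖∏ j, Rr X (fs γ) (sd γ) j - WW y (fs γ) (sd γ)‖ ^ 2) =
      ENNReal.ofReal (2 * (C3 * 4 ^ ε * T ^ ε) * k *
        ∑ j : Fin k, ‖Pp X (fs γ) (sd γ) j - Rr X (fs γ) (sd γ) j‖ ^ 2 +
        2 * ‖∏ j, Rr X (fs γ) (sd γ) j - WW y (fs γ) (sd γ)‖ ^ 2) := by
      rw [ENNReal.ofReal_add (mul_nonneg (by positivity) (Finset.sum_nonneg fun _ _ => by positivity))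
        (by positivity), ENNReal.ofReal_mul (by positivity : (0:ℝ) ≤ 2 * (C3 * 4 ^ ε * T ^ ε) * k),
        ENNReal.ofReal_sum_of_nonneg fun _ _ => by positivity, Finset.mul_sum,
        ENNReal.ofReal_mul (by norm_num : (0:ℝ) ≤ 2)]
    rw [h9]
    refine ENNReal.ofReal_le_ofReal (h4.trans ?_)
    have h10 : 2 * (C3 * 4 ^ ε * T ^ ε) * k *
        ∑ j : Fin k, ‖Pp X (fs γ) (sd γ) j - Rr X (fs γ) (sd γ) j‖ ^ 2 =
        2 * ((C3 * 4 ^ ε * T ^ ε) * (k * ∑ j : Fin k, ‖Pp X (fs γ) (sd γ) j - Rr X (fs γ) (sd γ) j‖ ^ 2)) := by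
      ring
    rw [h10]
    linarith
  have hm1 : ∀ j : Fin k, Measurable fun γ : Fin k ⊕ Fin k → ℝ =>
      ENNReal.ofReal (‖Pp X (fs γ) (sd γ) j - Rr X (fs γ) (sd γ) j‖ ^ 2) := fun j =>
    meas_sq ((Pp_cont X j).sub (Rr_cont X j))
  have hm2 : Measurable fun γ : Fin k ⊕ Fin k → ℝ =>
      ENNReal.ofReal (‖∏ j, Rr X (fs γ) (sd γ) j - WW y (fs γ) (sd γ)‖ ^ 2) :=
    meas_sq ((continuous_finsetProd _ fun j _ => Rr_cont X j).sub (WW_cont y))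
  refine (lintegral_mono hpt).trans ?_
  rw [lintegral_add_right _ (hm2.const_mul _), lintegral_finsetSum _ fun j _ => (hm1 j).const_mul _,
    lintegral_const_mul _ hm2]
  simp_rw [lintegral_const_mul _ (hm1 _)]
  have hA : ∀ j : Fin k, ∫⁻ γ, ENNReal.ofReal (‖Pp X (fs γ) (sd γ) j - Rr X (fs γ) (sd γ) j‖ ^ 2)
      ∂(mP (Fin k ⊕ Fin k) T) ≤ ENNReal.ofReal (T ^ k * (C1 * T ^ k * (X : ℝ) ^ (-1 + ε))) := fun j =>
    lint_bd hT0.le (hm1 j) fun α => h1 T X α j hT4 hX hX2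
  have hB2 : ∫⁻ γ, ENNReal.ofReal (‖∏ j, Rr X (fs γ) (sd γ) j - WW y (fs γ) (sd γ)‖ ^ 2)
      ∂(mP (Fin k ⊕ Fin k) T) ≤ ENNReal.ofReal (T ^ k * (C2 * T ^ k * (y : ℝ) ^ (-1 + ε))) :=
    lint_bd' hT0.le hm2 fun β => h2 T X y β hT4 hy hyX hX2
  calc _ ≤ (∑ _j : Fin k, ENNReal.ofReal (2 * (C3 * 4 ^ ε * T ^ ε) * k) *
        ENNReal.ofReal (T ^ k * (C1 * T ^ k * (X : ℝ) ^ (-1 + ε)))) +
      ENNReal.ofReal 2 * ENNReal.ofReal (T ^ k * (C2 * T ^ k * (y : ℝ) ^ (-1 + ε))) := by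
        gcongr with j _
        exact hA j
    _ = ENNReal.ofReal (k * (2 * (C3 * 4 ^ ε * T ^ ε) * k * (T ^ k * (C1 * T ^ k * (X : ℝ) ^ (-1 + ε)))) +
        2 * (T ^ k * (C2 * T ^ k * (y : ℝ) ^ (-1 + ε)))) := by
        rw [Finset.sum_const, Finset.card_univ, Fintype.card_fin, nsmul_eq_mul,
          ENNReal.ofReal_add (by positivity) (by positivity),
          ENNReal.ofReal_mul (by positivity : (0:ℝ) ≤ (k:ℝ)),
          ENNReal.ofReal_mul (by positivity : (0:ℝ) ≤ 2 * (C3 * 4 ^ ε * T ^ ε) * k),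
          ENNReal.ofReal_mul (by norm_num : (0:ℝ) ≤ 2), ENNReal.ofReal_natCast]
    _ ≤ _ := by
        refine ENNReal.ofReal_le_ofReal ?_
        have e2 : T ^ (2 * k) = T ^ k * T ^ k := by rw [two_mul, pow_add]
        rw [e2]
        have h11 : (k : ℝ) * (2 * (C3 * 4 ^ ε * T ^ ε) * k * (T ^ k * (C1 * T ^ k * (X : ℝ) ^ (-1 + ε)))) ≤
            (k : ℝ) * (2 * (C3 * 4 ^ ε * T ^ ε) * k * (T ^ k * (C1 * T ^ k * (y : ℝ) ^ (-1 + ε)))) := by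
          gcongr
        have h12 : 2 * (T ^ k * (C2 * T ^ k * (y : ℝ) ^ (-1 + ε))) ≤
            T ^ ε * (2 * (T ^ k * (C2 * T ^ k * (y : ℝ) ^ (-1 + ε)))) :=
          le_mul_of_one_le_left (by positivity) hTe
        refine (add_le_add h11 h12).trans (le_of_eq ?_)
        ring

end

end Pool.Agent.D0H82.SR
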