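import Pool.Agent.TH612.GS.GF2

set_option autoImplicit false

/-! Mean values over the two blocks of shifts. -/

namespace Pool.Agent.D0H82.SR

open Complex Filter Topology MeasureTheory Set
open Pool.Agent.TH612.GS

noncomputable section

variable {k : ℕ}

instance mP_finite (ι : Type) [Fintype ι] (T : ℝ) : IsFiniteMeasure (mP ι T) := by
  unfold mP
  infer_instance

/-- integration over the two blocks, the second block inside -/
lemma lint_sum (T : ℝ) {F : (Fin k ⊕ Fin k → ℝ) → ENNReal} (hF : Measurable F) :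
    ∫⁻ γ, F γ ∂(mP (Fin k ⊕ Fin k) T) =
      ∫⁻ α, ∫⁻ β, F (Sum.elim α β) ∂(mP (Fin k) T) ∂(mP (Fin k) T) := by
  have hmp := measurePreserving_sumPiEquivProdPi_symm
    (X := fun _ : Fin k ⊕ Fin k => ℝ) (fun _ => (volume : Measure ℝ).restrict (Icc 0 T))
  have h1 : ∫⁻ γ, F γ ∂(mP (Fin k ⊕ Fin k) T) =
      ∫⁻ p : (Fin k → ℝ) × (Fin k → ℝ), F (Sum.elim p.1 p.2) ∂((mP (Fin k) T).prod (mP (Fin k) T)) := by
    unfold mP
    rw [← hmp.lintegral_comp_emb (MeasurableEquiv.measurableEmbedding _)]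
    rfl
  rw [h1, lintegral_prod]
  have h2 : Measurable fun p : (Fin k → ℝ) × (Fin k → ℝ) => (Sum.elim p.1 p.2 : Fin k ⊕ Fin k → ℝ) := by
    refine measurable_pi_iff.2 fun i => ?_
    cases i with
    | inl j => exact (measurable_pi_apply j).comp measurable_fst
    | inr j => exact (measurable_pi_apply j).comp measurable_snd
  exact (hF.comp h2).aemeasurable

/-- integration over the two blocks, the first block inside -/
lemma lint_sum' (T : ℝ) {F : (Fin k ⊕ Fin k → ℝ) → ENNReal} (hF : Measurable F) :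
    ∫⁻ γ, F γ ∂(mP (Fin k ⊕ Fin k) T) =
      ∫⁻ β, ∫⁻ α, F (Sum.elim α β) ∂(mP (Fin k) T) ∂(mP (Fin k) T) := by
  rw [lint_sum T hF]
  have h2 : Measurable fun p : (Fin k → ℝ) × (Fin k → ℝ) => (Sum.elim p.1 p.2 : Fin k ⊕ Fin k → ℝ) := by
    refine measurable_pi_iff.2 fun i => ?_
    cases i with
    | inl j => exact (measurable_pi_apply j).comp measurable_fst
    | inr j => exact (measurable_pi_apply j).comp measurable_snd
  exact lintegral_lintegral_swap (hF.comp h2).aemeasurable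

lemma tup_sum {M : Type} [AddCommMonoid M] (k X : ℕ) (f : (Fin k ⊕ Fin k → ℕ) → M) :
    ∑ ν ∈ tup k X, f ν = ∑ a ∈ bx k X, ∑ b ∈ bx k X, f (Sum.elim a b) := by
  rw [← Finset.sum_product']
  refine Finset.sum_nbij' (fun n => (fun j => n (Sum.inl j), fun j => n (Sum.inr j)))
    (fun p => Sum.elim p.1 p.2) ?_ ?_ ?_ ?_ ?_
  · intro n hn
    unfold tup at hn
    unfold bx
    rw [Fintype.mem_piFinset] at hn
    rw [Finset.mem_product, Fintype.mem_piFinset, Fintype.mem_piFinset]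
    exact ⟨fun i => hn _, fun i => hn _⟩
  · intro p hp
    unfold tup
    unfold bx at hp
    rw [Finset.mem_product, Fintype.mem_piFinset, Fintype.mem_piFinset] at hp
    rw [Fintype.mem_piFinset]
    intro i
    cases i with
    | inl j => exact hp.1 j
    | inr j => exact hp.2 j
  · intro n _
    funext i
    cases i <;> rfl
  · intro p _
    rfl
  · intro n _
    congr 1
    funext i
    cases i <;> rfl

/-- mean value theorem in the first block, characters with a minus sign -/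
lemma TMVm (hT : S_TMV) (k : ℕ) : ∃ C : ℝ, 0 < C ∧ ∀ (T : ℝ) (X : ℕ) (a : (Fin k → ℕ) → ℂ), 4 ≤ T →
    (X : ℝ) ≤ 4 * T →
    ∫⁻ α, ENNReal.ofReal (‖∑ n ∈ bx k X, a n * ∏ l, (n l : ℂ) ^ (-(I * (α l : ℂ)))‖ ^ 2)
      ∂(mP (Fin k) T) ≤ ENNReal.ofReal (C * T ^ k * ∑ n ∈ bx k X, ‖a n‖ ^ 2) := by
  obtain ⟨C, hC, h⟩ := hT k
  refine ⟨C, hC, fun T X a hT4 hX => ?_⟩
  have h1 := h T X (fun n => (starRingEnd ℂ) (a n)) hT4 hX
  simp only [Complex.norm_conj] at h1
  refine le_trans (le_of_eq ?_) h1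
  refine lintegral_congr fun α => ?_
  congr 2
  rw [← Complex.norm_conj (∑ n ∈ bx k X, a n * ∏ l, (n l : ℂ) ^ (-(I * (α l : ℂ)))), map_sum]
  congr 1
  refine Finset.sum_congr rfl fun n _ => ?_
  rw [map_mul, map_prod]
  congr 1
  refine Finset.prod_congr rfl fun l _ => ?_
  rw [conj_cpow_nat]
  congr 1
  simp

lemma ch_elim (a b : Fin k → ℕ) (α β : Fin k → ℝ) : ch (Sum.elim a b) (Sum.elim α β) =
    (∏ j, (a j : ℂ) ^ (-(I * (α j : ℂ)))) * ∏ j, (b j : ℂ) ^ (I * (β j : ℂ)) := rfl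

lemma ch_meas {X : ℕ} {ν : Fin k ⊕ Fin k → ℕ} (hν : ν ∈ tup k X) :
    Continuous fun γ : Fin k ⊕ Fin k → ℝ => ch ν γ := by
  have h0 : ∀ i, (ν i : ℂ) ≠ 0 := by
    intro i
    have h1 := (Fintype.mem_piFinset.1 hν) i
    have h2 := (Finset.mem_Icc.1 h1).1
    exact_mod_cast (by omega : ν i ≠ 0)
  unfold ch
  refine Continuous.mul ?_ ?_
  · exact continuous_finsetProd _ fun j _ => Continuous.const_cpow (by fun_prop) (Or.inl (h0 _))
  · exact continuous_finsetProd _ fun j _ => Continuous.const_cpow (by fun_prop) (Or.inl (h0 _))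

/-- mean value theorem in both blocks -/
theorem TMV2 (hT : S_TMV) (k : ℕ) : ∃ C : ℝ, 0 < C ∧ ∀ (T : ℝ) (X : ℕ)
    (c : (Fin k ⊕ Fin k → ℕ) → ℂ), 4 ≤ T → (X : ℝ) ≤ 4 * T →
    ∫⁻ γ, ENNReal.ofReal (‖∑ ν ∈ tup k X, c ν * ch ν γ‖ ^ 2) ∂(mP (Fin k ⊕ Fin k) T) ≤
      ENNReal.ofReal (C * T ^ (2 * k) * ∑ ν ∈ tup k X, ‖c ν‖ ^ 2) := by
  obtain ⟨C1, hC1, h1⟩ := hT k
  obtain ⟨C2, hC2, h2⟩ := TMVm hT k
  refine ⟨C1 * C2, by positivity, fun T X c hT4 hX => ?_⟩
  have hT0 : 0 ≤ T := by linarith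
  have hmeas : Measurable fun γ : Fin k ⊕ Fin k → ℝ =>
      ENNReal.ofReal (‖∑ ν ∈ tup k X, c ν * ch ν γ‖ ^ 2) := by
    apply Measurable.ennreal_ofReal
    apply Continuous.measurable
    exact (continuous_finsetSum _ fun ν hν => continuous_const.mul (ch_meas hν)).norm.pow 2
  rw [lint_sum' T hmeas]
  have e1 : ∀ α β : Fin k → ℝ, ∑ ν ∈ tup k X, c ν * ch ν (Sum.elim α β) =
      ∑ a ∈ bx k X, (∑ b ∈ bx k X, c (Sum.elim a b) * ∏ j, (b j : ℂ) ^ (I * (β j : ℂ))) *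
        ∏ l, (a l : ℂ) ^ (-(I * (α l : ℂ))) := by
    intro α β
    rw [tup_sum]
    refine Finset.sum_congr rfl fun a _ => ?_
    rw [Finset.sum_mul]
    refine Finset.sum_congr rfl fun b _ => ?_
    rw [ch_elim]
    ring
  simp only [e1]
  have h3 : ∀ β : Fin k → ℝ, ∫⁻ α, ENNReal.ofReal (‖∑ a ∈ bx k X,
      (∑ b ∈ bx k X, c (Sum.elim a b) * ∏ j, (b j : ℂ) ^ (I * (β j : ℂ))) *
        ∏ l, (a l : ℂ) ^ (-(I * (α l : ℂ)))‖ ^ 2) ∂(mP (Fin k) T) ≤
      ENNReal.ofReal (C2 * T ^ k) * ∑ a ∈ bx k X, ENNReal.ofReal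
        (‖∑ b ∈ bx k X, c (Sum.elim a b) * ∏ j, (b j : ℂ) ^ (I * (β j : ℂ))‖ ^ 2) := by
    intro β
    refine (h2 T X _ hT4 hX).trans (le_of_eq ?_)
    rw [ENNReal.ofReal_mul (by positivity), ENNReal.ofReal_sum_of_nonneg fun _ _ => by positivity]
  refine (lintegral_mono h3).trans ?_
  have hm2 : ∀ a ∈ bx k X, Measurable fun β : Fin k → ℝ => ENNReal.ofReal
        (‖∑ b ∈ bx k X, c (Sum.elim a b) * ∏ j, (b j : ℂ) ^ (I * (β j : ℂ))‖ ^ 2) := by
    intro a _
    apply Measurable.ennreal_ofReal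
    apply Continuous.measurable
    refine (continuous_finsetSum _ fun b hb => continuous_const.mul ?_).norm.pow 2
    refine continuous_finsetProd _ fun j _ => ?_
    have : ((b j : ℕ) : ℂ) ≠ 0 := by
      have := (Finset.mem_Icc.1 ((Fintype.mem_piFinset.1 hb) j)).1
      exact_mod_cast (by omega : b j ≠ 0)
    exact Continuous.const_cpow (by fun_prop) (Or.inl this)
  rw [lintegral_const_mul _ (Finset.measurable_sum _ hm2), lintegral_finsetSum _ hm2]
  calc _ ≤ ENNReal.ofReal (C2 * T ^ k) * ∑ a ∈ bx k X,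
        ENNReal.ofReal (C1 * T ^ k * ∑ b ∈ bx k X, ‖c (Sum.elim a b)‖ ^ 2) := by
        gcongr with a ha
        exact h1 T X _ hT4 hX
    _ = _ := by
        rw [← ENNReal.ofReal_sum_of_nonneg fun _ _ => by positivity,
          ← ENNReal.ofReal_mul (by positivity)]
        congr 1
        rw [← Finset.mul_sum, tup_sum]
        ring

end

end Pool.Agent.D0H82.SR
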