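import Mathlib

set_option autoImplicit false

/-! Sums over square-full numbers. -/

namespace Pool.Agent.D0H82.SR

open Filter Topology

noncomputable section

/-- square-full numbers (`0` included) -/
def Sqf (n : ℕ) : Prop := ∀ p : ℕ, p.Prime → p ∣ n → p ^ 2 ∣ n

lemma sqf_decomp {n : ℕ} (h : Sqf n) : ∃ x : ℕ × ℕ, n = x.1 ^ 3 * x.2 ^ 2 := by
  rcases Nat.eq_zero_or_pos n with hn | hn
  · exact ⟨(0, 0), by rw [hn]; norm_num⟩
  obtain ⟨a, b, hab, ha⟩ := Nat.sq_mul_squarefree n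
  have ha0 : a ≠ 0 := ha.ne_zero
  have h1 : a ∣ b := by
    rw [← Nat.prod_primeFactors_of_squarefree ha]
    refine Finset.prod_primes_dvd b (fun p hp => (Nat.prime_of_mem_primeFactors hp).prime) fun p hp => ?_
    have hpp := Nat.prime_of_mem_primeFactors hp
    have hpa := Nat.dvd_of_mem_primeFactors hp
    have h2 : p ^ 2 ∣ n := h p hpp (by rw [← hab]; exact Dvd.dvd.mul_left hpa _)
    by_contra hpb
    have h3 : Nat.Coprime (p ^ 2) (b ^ 2) :=
      Nat.Coprime.pow 2 2 ((Nat.Prime.coprime_iff_not_dvd hpp).2 hpb)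
    rw [← hab] at h2
    have h4 : p ^ 2 ∣ a := h3.dvd_of_dvd_mul_left h2
    have h5 := ha p (by rw [← sq]; exact h4)
    exact hpp.one_lt.ne' (Nat.isUnit_iff.1 h5)
  obtain ⟨c, hc⟩ := h1
  refine ⟨(a, c), ?_⟩
  rw [← hab, hc]
  ring

open Classical in
lemma sqf_summable {s : ℝ} (hs : 1 / 2 < s) :
    Summable (fun n : ℕ => if Sqf n then (n : ℝ) ^ (-s) else 0) := by
  have h1 : Summable (fun a : ℕ => (a : ℝ) ^ (-(3 * s))) := Real.summable_nat_rpow.2 (by linarith)
  have h2 : Summable (fun a : ℕ => (a : ℝ) ^ (-(2 * s))) := Real.summable_nat_rpow.2 (by linarith)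
  have h3 : Summable (fun x : ℕ × ℕ => (x.1 : ℝ) ^ (-(3 * s)) * (x.2 : ℝ) ^ (-(2 * s))) :=
    h1.mul_of_nonneg h2 (fun _ => by positivity) (fun _ => by positivity)
  choose g hg using fun n : {n : ℕ // Sqf n} => sqf_decomp n.2
  have hinj : Function.Injective g := by
    intro m n hmn
    have h4 := hg m
    have h5 := hg n
    rw [hmn, ← h5] at h4
    exact Subtype.ext h4
  have h4 := h3.comp_injective hinj
  have h5 : ((fun x : ℕ × ℕ => (x.1 : ℝ) ^ (-(3 * s)) * (x.2 : ℝ) ^ (-(2 * s))) ∘ g) =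
      fun n : {n : ℕ // Sqf n} => ((n : ℕ) : ℝ) ^ (-s) := by
    funext n
    simp only [Function.comp]
    rw [hg n]
    push_cast
    rw [Real.mul_rpow (by positivity) (by positivity), ← Real.rpow_natCast, ← Real.rpow_natCast,
      ← Real.rpow_mul (by positivity), ← Real.rpow_mul (by positivity)]
    congr 2
    · push_cast; ring
    · push_cast; ring
  rw [h5] at h4
  have h6 := summable_subtype_iff_indicator (f := fun n : ℕ => (n : ℝ) ^ (-s)) (s := {n | Sqf n})
  have h7 := h6.1 h4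
  refine h7.congr fun n => ?_
  rw [Set.indicator_apply]
  rfl

end

end Pool.Agent.D0H82.SR
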