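import Pool.Agent.TH612.CF.Dir
import Pool.Agent.D0H82.SR.E0
import Pool.Agent.H510R2.Div

set_option autoImplicit false

/-! The decomposition of the diagonal coefficients. -/

namespace Pool.Agent.D0H82.SR

open Complex Filter Topology MeasureTheory Set
open Pool.Agent.TH612.CF
open Pool.Agent.W182.KO

noncomputable section

open ArithmeticFunction

variable {k : ℕ}

/-- the twisted Moebius function -/
def mw (l : ℂ) : ArithmeticFunction ℂ :=
  ⟨fun n => ((ArithmeticFunction.moebius n : ℤ) : ℂ) * pw l n, by simp⟩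

lemma mw_apply (l : ℂ) (n : ℕ) : mw l n = ((ArithmeticFunction.moebius n : ℤ) : ℂ) * pw l n := rfl

lemma mw_mult (l : ℂ) : (mw l).IsMultiplicative := by
  constructor
  · rw [mw_apply, (pw_mult l).1]; simp
  · intro m n hmn
    rw [mw_apply, mw_apply, mw_apply, (pw_mult l).map_mul_of_coprime hmn,
      isMultiplicative_moebius.map_mul_of_coprime hmn]
    push_cast
    ring

lemma mw_pw (l : ℂ) : mw l * pw l = 1 := by
  ext n
  rw [ArithmeticFunction.mul_apply, ArithmeticFunction.one_apply]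
  rcases Nat.eq_zero_or_pos n with hn | hn
  · subst hn; simp
  have h1 : ∀ x ∈ n.divisorsAntidiagonal, mw l x.1 * pw l x.2 =
      ((ArithmeticFunction.moebius x.1 : ℤ) : ℂ) * (n : ℂ) ^ l := by
    intro x hx
    obtain ⟨h2, h3⟩ := Nat.mem_divisorsAntidiagonal.1 hx
    have h4 : x.1 ≠ 0 := by rintro h; rw [h, zero_mul] at h2; exact h3 h2.symm
    have h5 : x.2 ≠ 0 := by rintro h; rw [h, mul_zero] at h2; exact h3 h2.symm
    rw [mw_apply, pw_apply l h4, pw_apply l h5, mul_assoc, ← Complex.natCast_mul_natCast_cpow,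
      ← Nat.cast_mul, h2]
  rw [Finset.sum_congr rfl h1, ← Finset.sum_mul]
  have h6 : ∑ x ∈ n.divisorsAntidiagonal, ((ArithmeticFunction.moebius x.1 : ℤ) : ℂ) =
      if n = 1 then 1 else 0 := by
    have h7 : (((ArithmeticFunction.moebius : ArithmeticFunction ℤ) : ArithmeticFunction ℂ) *
        ((ArithmeticFunction.zeta : ArithmeticFunction ℕ) : ArithmeticFunction ℂ)) n =
        (1 : ArithmeticFunction ℂ) n := by
      rw [coe_moebius_mul_coe_zeta]
    rw [coe_mul_zeta_apply, ArithmeticFunction.one_apply] at h7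
    rw [Nat.sum_divisorsAntidiagonal (fun i _ => ((ArithmeticFunction.moebius i : ℤ) : ℂ))]
    exact h7
  rw [h6]
  split_ifs with h
  · rw [h]; simp
  · simp

lemma pw_norm {l : ℂ} (hl : l.re = 0) {n : ℕ} (hn : 1 ≤ n) : ‖pw l n‖ = 1 := by
  rw [pw_apply l (by omega), Complex.norm_natCast_cpow_of_pos (by omega), hl, Real.rpow_zero]

lemma mw_norm {l : ℂ} (hl : l.re = 0) {n : ℕ} (hn : 1 ≤ n) : ‖mw l n‖ ≤ 1 := by
  rw [mw_apply, norm_mul, pw_norm hl hn, mul_one, Complex.norm_intCast]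
  exact_mod_cast abs_moebius_le_one

lemma dcard_le {m n : ℕ} (h : m ∣ n) (hn : 1 ≤ n) : (m.divisors.card : ℝ) ≤ n.divisors.card := by
  exact_mod_cast Finset.card_le_card (Nat.divisors_subset_of_dvd (by omega) h)

lemma dcard_one {n : ℕ} (hn : 1 ≤ n) : (1 : ℝ) ≤ n.divisors.card := by
  have : 0 < n.divisors.card := Finset.card_pos.2 ⟨1, Nat.one_mem_divisors.2 (by omega)⟩
  exact_mod_cast this

lemma mul_le_dcard {f g : ArithmeticFunction ℂ} {r s : ℕ}
    (hf : ∀ n, 1 ≤ n → ‖f n‖ ≤ (n.divisors.card : ℝ) ^ r)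
    (hg : ∀ n, 1 ≤ n → ‖g n‖ ≤ (n.divisors.card : ℝ) ^ s) (n : ℕ) (hn : 1 ≤ n) :
    ‖(f * g) n‖ ≤ (n.divisors.card : ℝ) ^ (r + s + 1) := by
  rw [ArithmeticFunction.mul_apply, Nat.sum_divisorsAntidiagonal (fun i j => f i * g j)]
  refine (norm_sum_le _ _).trans ?_
  have h1 : ∀ d ∈ n.divisors, ‖f d * g (n / d)‖ ≤ (n.divisors.card : ℝ) ^ (r + s) := by
    intro d hd
    have h2 : d ∣ n := Nat.dvd_of_mem_divisors hd
    have h3 : 1 ≤ d := Nat.pos_of_dvd_of_pos h2 hn
    have h4 : n / d ∣ n := Nat.div_dvd_of_dvd h2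
    have h5 : 1 ≤ n / d := Nat.pos_of_dvd_of_pos h4 hn
    rw [norm_mul, pow_add]
    refine mul_le_mul ((hf d h3).trans ?_) ((hg _ h5).trans ?_) (norm_nonneg _) (by positivity)
    · exact pow_le_pow_left₀ (by positivity) (dcard_le h2 hn) _
    · exact pow_le_pow_left₀ (by positivity) (dcard_le h4 hn) _
  refine (Finset.sum_le_sum h1).trans (le_of_eq ?_)
  rw [Finset.sum_const, nsmul_eq_mul]
  ring

lemma prod_le_dcard {ι : Type*} (s : Finset ι) (f : ι → ArithmeticFunction ℂ)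
    (hf : ∀ i n, 1 ≤ n → ‖f i n‖ ≤ 1) :
    ∀ n, 1 ≤ n → ‖(∏ i ∈ s, f i) n‖ ≤ (n.divisors.card : ℝ) ^ s.card := by
  classical
  induction s using Finset.induction_on with
  | empty =>
    intro n hn
    rw [Finset.prod_empty, Finset.card_empty, pow_zero, ArithmeticFunction.one_apply]
    split_ifs <;> simp
  | insert i s hi ih =>
    intro n hn
    rw [Finset.prod_insert hi, Finset.card_insert_of_notMem hi]
    have h := mul_le_dcard (r := 0) (fun n hn => by rw [pow_zero]; exact hf i n hn) ih n hn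
    rwa [zero_add] at h

lemma prod_mult {ι : Type*} (s : Finset ι) (f : ι → ArithmeticFunction ℂ)
    (hf : ∀ i, (f i).IsMultiplicative) : (∏ i ∈ s, f i).IsMultiplicative := by
  classical
  induction s using Finset.induction_on with
  | empty => rw [Finset.prod_empty]; exact isMultiplicative_one
  | insert i s hi ih => rw [Finset.prod_insert hi]; exact (hf i).mul ih

lemma mul_prime {f g : ArithmeticFunction ℂ} (hf : f 1 = 1) (hg : g 1 = 1) {p : ℕ} (hp : p.Prime) :
    (f * g) p = f p + g p := by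
  rw [ArithmeticFunction.mul_apply, Nat.sum_divisorsAntidiagonal (fun i j => f i * g j),
    Nat.Prime.divisors hp, Finset.sum_pair hp.one_lt.ne, Nat.div_one, Nat.div_self hp.pos, hf, hg]
  ring

lemma prod_prime {ι : Type*} (s : Finset ι) (f : ι → ArithmeticFunction ℂ)
    (hf : ∀ i, (f i).IsMultiplicative) {p : ℕ} (hp : p.Prime) :
    (∏ i ∈ s, f i) p = ∑ i ∈ s, f i p := by
  classical
  induction s using Finset.induction_on with
  | empty =>
    rw [Finset.prod_empty, Finset.sum_empty, ArithmeticFunction.one_apply, if_neg hp.one_lt.ne']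
  | insert i s hi ih =>
    rw [Finset.prod_insert hi, Finset.sum_insert hi, mul_prime (hf i).1 (prod_mult s f hf).1 hp, ih]

/-- the exponents -/
def lam (α β : Fin k → ℝ) (x : Fin k × Fin k) : ℂ := -(I * (α x.1 : ℂ)) + I * (β x.2 : ℂ)

lemma lam_re (α β : Fin k → ℝ) (x : Fin k × Fin k) : (lam α β x).re = 0 := by
  unfold lam; simp

/-- the product of the two divisor functions -/
def A2 (α β : Fin k → ℝ) : ArithmeticFunction ℂ :=
  ⟨fun n => tau (fun j => I * (β j : ℂ)) n * tau (fun j => -(I * (α j : ℂ))) n, by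
    simp [tau_zero]⟩

lemma A2_apply (α β : Fin k → ℝ) (n : ℕ) : A2 α β n =
    tau (fun j => I * (β j : ℂ)) n * tau (fun j => -(I * (α j : ℂ))) n := rfl

lemma A2_mult (α β : Fin k → ℝ) : (A2 α β).IsMultiplicative := by
  constructor
  · rw [A2_apply, tau_one, tau_one, mul_one]
  · intro m n hmn
    have h1 := (tauA_mult (fun j => I * (β j : ℂ))).map_mul_of_coprime hmn
    have h2 := (tauA_mult (fun j => -(I * (α j : ℂ)))).map_mul_of_coprime hmn
    simp only [tauA_apply] at h1 h2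
    rw [A2_apply, A2_apply, A2_apply, h1, h2]
    ring

lemma A2_norm (α β : Fin k → ℝ) (n : ℕ) : ‖A2 α β n‖ ≤ (n.divisors.card : ℝ) ^ (2 * k) := by
  rw [A2_apply, norm_mul, two_mul, pow_add]
  have h1 : ‖tau (fun j => I * (β j : ℂ)) n‖ ≤ (n.divisors.card : ℝ) ^ k * (n : ℝ) ^ (0:ℝ) :=
    tau_le (fun j => by simp) n
  have h2 : ‖tau (fun j => -(I * (α j : ℂ))) n‖ ≤ (n.divisors.card : ℝ) ^ k * (n : ℝ) ^ (0:ℝ) :=
    tau_le (fun j => by simp) n
  rw [Real.rpow_zero, mul_one] at h1 h2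
  exact mul_le_mul h1 h2 (norm_nonneg _) (by positivity)

/-- the product of the powers -/
def Dp (α β : Fin k → ℝ) : ArithmeticFunction ℂ := ∏ x : Fin k × Fin k, pw (lam α β x)

/-- the square-full part -/
def Gq (α β : Fin k → ℝ) : ArithmeticFunction ℂ := A2 α β * ∏ x : Fin k × Fin k, mw (lam α β x)

lemma Gq_Dp (α β : Fin k → ℝ) : Gq α β * Dp α β = A2 α β := by
  unfold Gq Dp
  rw [mul_assoc, ← Finset.prod_mul_distrib]
  simp only [mw_pw, Finset.prod_const_one, mul_one]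

lemma Gq_mult (α β : Fin k → ℝ) : (Gq α β).IsMultiplicative :=
  (A2_mult α β).mul (prod_mult _ _ fun x => mw_mult _)

lemma Gq_norm (α β : Fin k → ℝ) (n : ℕ) (hn : 1 ≤ n) :
    ‖Gq α β n‖ ≤ (n.divisors.card : ℝ) ^ (2 * k + k * k + 1) := by
  have h := mul_le_dcard (fun n _ => A2_norm α β n)
    (prod_le_dcard Finset.univ (fun x : Fin k × Fin k => mw (lam α β x))
      fun x n hn => mw_norm (lam_re α β x) hn) n hn
  rw [Finset.card_univ, Fintype.card_prod, Fintype.card_fin] at h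
  exact h

lemma Gq_prime (α β : Fin k → ℝ) {p : ℕ} (hp : p.Prime) : Gq α β p = 0 := by
  unfold Gq
  rw [mul_prime (A2_mult α β).1 (prod_mult _ _ fun x => mw_mult _).1 hp,
    prod_prime _ _ (fun x => mw_mult _) hp, A2_apply, tau_prime _ hp, tau_prime _ hp,
    Fintype.sum_prod_type, mul_comm, Finset.sum_mul_sum, ← Finset.sum_add_distrib]
  refine Finset.sum_eq_zero fun i _ => ?_
  rw [← Finset.sum_add_distrib]
  refine Finset.sum_eq_zero fun j _ => ?_
  have hp0 : (p : ℂ) ≠ 0 := by exact_mod_cast hp.ne_zero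
  rw [mw_apply, moebius_apply_prime hp, pw_apply _ hp.ne_zero]
  unfold lam
  rw [Complex.cpow_add _ _ hp0]
  push_cast
  ring

lemma Gq_sqf (α β : Fin k → ℝ) {n : ℕ} (h : Gq α β n ≠ 0) : Sqf n := by
  intro p hp hpn
  by_contra h2
  obtain ⟨m, rfl⟩ := hpn
  have h3 : Nat.Coprime p m := by
    rw [Nat.Prime.coprime_iff_not_dvd hp]
    rintro ⟨c, rfl⟩
    exact h2 ⟨c, by ring⟩
  rw [(Gq_mult α β).map_mul_of_coprime h3, Gq_prime α β hp, zero_mul] at h
  exact h rfl

open Classical in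
/-- bound for the square-full part -/
lemma Gq_bd (k : ℕ) {ε : ℝ} (hε : 0 < ε) : ∃ C : ℝ, 0 < C ∧ ∀ (α β : Fin k → ℝ) (n : ℕ),
    ‖Gq α β n‖ ≤ C * if Sqf n then (n : ℝ) ^ ε else 0 := by
  obtain ⟨C, hC0, hC⟩ := Pool.Agent.H510R2.divisor_bound (ε / (2 * k + k * k + 1)) (by positivity)
  refine ⟨C ^ (2 * k + k * k + 1), by positivity, fun α β n => ?_⟩
  by_cases h0 : Gq α β n = 0
  · rw [h0, norm_zero]
    split_ifs <;> positivity
  rw [if_pos (Gq_sqf α β h0)]
  have hn : 1 ≤ n := by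
    rcases Nat.eq_zero_or_pos n with h | h
    · subst h; simp at h0
    · exact h
  have hn0 : (0:ℝ) ≤ n := by positivity
  refine (Gq_norm α β n hn).trans ?_
  calc (n.divisors.card : ℝ) ^ (2 * k + k * k + 1)
      ≤ (C * (n : ℝ) ^ (ε / (2 * k + k * k + 1))) ^ (2 * k + k * k + 1) := by
        gcongr
        exact hC n hn
    _ = _ := by
        rw [mul_pow, ← Real.rpow_natCast ((n:ℝ) ^ _), ← Real.rpow_mul hn0]
        congr 2
        push_cast
        field_simp

/-- uniform bound for the sums over the square-full part -/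
lemma Gq_sum (k : ℕ) {σ : ℝ} (hσ : 1 / 2 < σ) : ∃ C : ℝ, 0 < C ∧ ∀ (α β : Fin k → ℝ),
    Summable (fun n : ℕ => ‖Gq α β n‖ * (n : ℝ) ^ (-σ)) ∧
    ∑' n : ℕ, ‖Gq α β n‖ * (n : ℝ) ^ (-σ) ≤ C := by
  classical
  set ε : ℝ := (σ - 1 / 2) / 2 with hε
  have hε0 : 0 < ε := by rw [hε]; linarith
  obtain ⟨C, hC0, hC⟩ := Gq_bd k hε0
  have h1 := (sqf_summable (s := σ - ε) (by rw [hε]; linarith)).mul_left C
  have h2 : ∀ (α β : Fin k → ℝ) (n : ℕ), ‖Gq α β n‖ * (n : ℝ) ^ (-σ) ≤
      C * if Sqf n then (n : ℝ) ^ (-(σ - ε)) else 0 := by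
    intro α β n
    rcases Nat.eq_zero_or_pos n with hn | hn
    · subst hn
      simp only [ArithmeticFunction.map_zero, norm_zero, zero_mul]
      split_ifs <;> positivity
    · have hn0 : (0:ℝ) < n := by exact_mod_cast hn
      calc ‖Gq α β n‖ * (n : ℝ) ^ (-σ) ≤ (C * if Sqf n then (n : ℝ) ^ ε else 0) * (n : ℝ) ^ (-σ) := by
            gcongr
            exact hC α β n
        _ = _ := by
            split_ifs
            · rw [mul_assoc, ← Real.rpow_add hn0]
              congr 2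
              ring
            · ring
  have h3 : ∀ α β : Fin k → ℝ, Summable (fun n : ℕ => ‖Gq α β n‖ * (n : ℝ) ^ (-σ)) := fun α β =>
    Summable.of_nonneg_of_le (fun n => by positivity) (h2 α β) h1
  refine ⟨(∑' n : ℕ, C * if Sqf n then (n : ℝ) ^ (-(σ - ε)) else 0) + 1, ?_, fun α β => ⟨h3 α β, ?_⟩⟩
  · have : 0 ≤ ∑' n : ℕ, C * if Sqf n then (n : ℝ) ^ (-(σ - ε)) else 0 :=
      tsum_nonneg fun n => by split_ifs <;> positivity
    linarith
  · have := Summable.tsum_le_tsum (h2 α β) (h3 α β) h1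
    linarith

end

end Pool.Agent.D0H82.SR
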