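import Pool.Agent.D0H82.SR.E

set_option autoImplicit false

/-! The arithmetic factor as a sum over the square-full part. -/

namespace Pool.Agent.D0H82.SR

open Complex Filter Topology MeasureTheory Set
open Pool.Agent.TH612.CF
open Pool.Agent.W182.KO

noncomputable section

open ArithmeticFunction

variable {k : ℕ}

lemma one_hasSum (z : ℂ) : LSeriesHasSum (fun n => (1 : ArithmeticFunction ℂ) n) z 1 := by
  unfold LSeriesHasSum
  have h := hasSum_ite_eq (1 : ℕ) (1 : ℂ)
  refine h.congr_fun ?_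
  intro n
  rcases Nat.eq_zero_or_pos n with hn | hn
  · subst hn
    simp
  · rw [LSeries.term_of_ne_zero (by omega), ArithmeticFunction.one_apply]
    split_ifs with h
    · rw [h]; simp
    · simp

lemma prod_hasSum {ι : Type*} (s : Finset ι) (f : ι → ArithmeticFunction ℂ) (v : ι → ℂ) {z : ℂ}
    (h : ∀ i, LSeriesHasSum (fun n => f i n) z (v i)) :
    LSeriesHasSum (fun n => (∏ i ∈ s, f i) n) z (∏ i ∈ s, v i) := by
  classical
  induction s using Finset.induction_on with
  | empty => rw [Finset.prod_empty, Finset.prod_empty]; exact one_hasSum z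
  | insert i s hi ih =>
    rw [Finset.prod_insert hi, Finset.prod_insert hi]
    exact LSeriesHasSum_mul (h i) ih

lemma pw_hasSum {l z : ℂ} (hl : l.re = 0) (hz : 1 < z.re) :
    LSeriesHasSum (fun n => pw l n) z (riemannZeta (z - l)) := by
  have h1 : 1 < (z - l).re := by rw [Complex.sub_re, hl]; linarith
  have h2 : LSeriesHasSum 1 (z - l) (riemannZeta (z - l)) := LSeriesHasSum_one h1
  unfold LSeriesHasSum at h2 ⊢
  refine h2.congr_fun ?_
  intro n
  rcases Nat.eq_zero_or_pos n with hn | hn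
  · subst hn; simp
  · rw [LSeries.term_of_ne_zero (by omega), LSeries.term_of_ne_zero (by omega), pw_apply l (by omega),
      Complex.cpow_sub _ _ (by exact_mod_cast (by omega : n ≠ 0))]
    rw [Pi.one_apply]
    field_simp

lemma A2_shift (α β : Fin k → ℝ) (δ : ℝ) {n : ℕ} (hn : 1 ≤ n) :
    dg (fun j => (α j : ℂ) - I * δ) (fun j => (β j : ℂ) + I * δ) n =
      LSeries.term (fun n => A2 α β n) (1 + 2 * δ) n := by
  have hn0 : (n : ℂ) ≠ 0 := by exact_mod_cast (by omega : n ≠ 0)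
  rw [LSeries.term_of_ne_zero (by omega), A2_apply]
  unfold dg
  have e1 : (fun j => I * ((β j : ℂ) + I * δ)) = fun j : Fin k => I * (β j : ℂ) + -(δ : ℂ) := by
    funext j
    linear_combination (δ : ℂ) * I_sq
  have e2 : (fun j => -(I * ((α j : ℂ) - I * δ))) = fun j : Fin k => -(I * (α j : ℂ)) + -(δ : ℂ) := by
    funext j
    linear_combination (δ : ℂ) * I_sq
  rw [e1, e2, tau_shift, tau_shift]
  have e3 : (n : ℂ) ^ (-(δ : ℂ)) * (n : ℂ) ^ (-(δ : ℂ)) * (n : ℂ)⁻¹ = ((n : ℂ) ^ (1 + 2 * δ : ℂ))⁻¹ := by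
    rw [← Complex.cpow_neg, ← Complex.cpow_neg_one, ← Complex.cpow_add _ _ hn0,
      ← Complex.cpow_add _ _ hn0]
    congr 1
    ring
  rw [div_eq_mul_inv, ← e3]
  ring

lemma Gq_hasSum (α β : Fin k → ℝ) {z : ℂ} (hz : 1 / 2 < z.re) :
    LSeriesSummable (fun n => Gq α β n) z := by
  obtain ⟨C, hC, h⟩ := Gq_sum k hz
  refine Summable.of_norm_bounded (h α β).1 fun n => ?_
  rcases Nat.eq_zero_or_pos n with hn | hn
  · subst hn; simp
  · rw [LSeries.term_of_ne_zero (by omega), norm_div, Complex.norm_natCast_cpow_of_pos (by omega),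
      Real.rpow_neg (by positivity), div_eq_mul_inv]

/-- the identity to the right of the line -/
lemma FH_right (α β : Fin k → ℝ) {δ : ℝ} (h0 : 0 < δ) (h1 : δ < 1 / 4) :
    FH (fun j => (α j : ℂ) - I * δ) (fun j => (β j : ℂ) + I * δ) =
      LSeries (fun n => Gq α β n) (1 + 2 * δ) := by
  have hre : (1 + 2 * (δ : ℂ)).re = 1 + 2 * δ := by simp
  have hz1 : 1 < (1 + 2 * (δ : ℂ)).re := by rw [hre]; linarith
  have hD : LSeriesHasSum (fun n => Dp α β n) (1 + 2 * δ)
      (∏ x : Fin k × Fin k, riemannZeta (1 + 2 * δ - lam α β x)) :=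
    prod_hasSum _ _ _ fun x => pw_hasSum (lam_re α β x) hz1
  have hG := (Gq_hasSum α β (z := 1 + 2 * (δ : ℂ)) (by rw [hre]; linarith)).LSeriesHasSum
  have hA := LSeriesHasSum_mul hG hD
  rw [Gq_Dp] at hA
  have him1 : ∀ j : Fin k, ((α j : ℂ) - I * δ).im = -δ := by intro j; simp
  have him2 : ∀ j : Fin k, ((β j : ℂ) + I * δ).im = δ := by intro j; simp
  have hzh := zh_eq (a := fun j => (α j : ℂ) - I * δ) (b := fun j => (β j : ℂ) + I * δ) (c := δ)
    (δ := δ) h1 (fun j => by rw [him1, him2, abs_neg, abs_of_pos h0]; exact ⟨le_rfl, le_rfl⟩) h0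
    (fun j => by rw [him1, him2]; exact ⟨le_rfl, le_rfl⟩)
  have e1 : ∑' n, dg (fun j => (α j : ℂ) - I * δ) (fun j => (β j : ℂ) + I * δ) n =
      ∑' n, LSeries.term (fun n => A2 α β n) (1 + 2 * δ) n := by
    refine tsum_congr fun n => ?_
    rcases Nat.eq_zero_or_pos n with hn | hn
    · subst hn; rw [dg_zero]; simp
    · exact A2_shift α β δ hn
  rw [e1, hA.tsum_eq] at hzh
  have e2 : ∏ j, ∏ l, riemannZeta (1 + I * ((α j : ℂ) - I * δ) - I * ((β l : ℂ) + I * δ)) =
      ∏ x : Fin k × Fin k, riemannZeta (1 + 2 * δ - lam α β x) := by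
    rw [Fintype.prod_prod_type]
    refine Finset.prod_congr rfl fun j _ => Finset.prod_congr rfl fun l _ => ?_
    congr 1
    unfold lam
    linear_combination (-2 * (δ : ℂ)) * I_sq
  rw [e2] at hzh
  have hne : ∏ x : Fin k × Fin k, riemannZeta (1 + 2 * δ - lam α β x) ≠ 0 := by
    refine Finset.prod_ne_zero_iff.2 fun x _ => riemannZeta_ne_zero_of_one_lt_re ?_
    rw [Complex.sub_re, lam_re, hre]
    linarith
  exact mul_right_cancel₀ hne hzh

/-- the arithmetic factor for real shifts -/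
theorem FH_eq (α β : Fin k → ℝ) : FH (fun j => (α j : ℂ)) (fun j => (β j : ℂ)) =
    ∑' n : ℕ, Gq α β n * (n : ℂ)⁻¹ := by
  have hcont : ContinuousOn (fun δ : ℝ => FH (fun j => (α j : ℂ) - I * δ) (fun j => (β j : ℂ) + I * δ))
      (Ioo (-(1 / 8)) (1 / 8)) := by
    refine FH_cont (c := 1 / 8) isOpen_Ioo (by norm_num) (fun j => ?_) (fun j => ?_) fun s hs => ?_
    · exact Continuous.continuousOn (by fun_prop)
    · exact Continuous.continuousOn (by fun_prop)
    · intro j
      have h1 : |s| ≤ 1 / 8 := abs_le.2 ⟨hs.1.le, hs.2.le⟩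
      constructor
      · have : ((α j : ℂ) - I * s).im = -s := by simp
        rw [this, abs_neg]
        exact h1
      · have : ((β j : ℂ) + I * s).im = s := by simp
        rw [this]
        exact h1
  have hc0 : ContinuousAt (fun δ : ℝ => FH (fun j => (α j : ℂ) - I * δ) (fun j => (β j : ℂ) + I * δ)) 0 :=
    hcont.continuousAt (isOpen_Ioo.mem_nhds ⟨by norm_num, by norm_num⟩)
  have ht1 : Tendsto (fun δ : ℝ => FH (fun j => (α j : ℂ) - I * δ) (fun j => (β j : ℂ) + I * δ))
      (𝓝[>] 0) (𝓝 (FH (fun j => (α j : ℂ)) (fun j => (β j : ℂ)))) := by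
    have := hc0.tendsto.mono_left (nhdsWithin_le_nhds (s := Ioi (0:ℝ)))
    simpa using this
  obtain ⟨C, hC, hs⟩ := Gq_sum k (σ := 1) (by norm_num)
  have ht2 : Tendsto (fun δ : ℝ => LSeries (fun n => Gq α β n) (1 + 2 * δ)) (𝓝[>] 0)
      (𝓝 (∑' n : ℕ, Gq α β n * (n : ℂ)⁻¹)) := by
    unfold LSeries
    refine tendsto_tsum_of_dominated_convergence (hs α β).1 (fun n => ?_) ?_
    · rcases Nat.eq_zero_or_pos n with hn | hn
      · subst hn; simp
      · have hn0 : (n : ℂ) ≠ 0 := by exact_mod_cast (by omega : n ≠ 0)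
        simp only [LSeries.term_of_ne_zero (show n ≠ 0 by omega)]
        have hc : ContinuousAt (fun δ : ℝ => Gq α β n / (n : ℂ) ^ (1 + 2 * (δ : ℂ))) 0 := by
          refine ContinuousAt.div continuousAt_const ?_ ?_
          · exact (Continuous.const_cpow (by fun_prop) (Or.inl hn0)).continuousAt
          · rw [Complex.cpow_ne_zero_iff]; left; exact hn0
        have := hc.tendsto.mono_left (nhdsWithin_le_nhds (s := Ioi (0:ℝ)))
        simpa [div_eq_mul_inv] using this
    · filter_upwards [self_mem_nhdsWithin] with δ hδ n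
      rcases Nat.eq_zero_or_pos n with hn | hn
      · subst hn; simp
      · have hn1 : (1:ℝ) ≤ n := by exact_mod_cast hn
        rw [LSeries.term_of_ne_zero (by omega), norm_div, Complex.norm_natCast_cpow_of_pos (by omega),
          div_eq_mul_inv, ← Real.rpow_neg (by positivity)]
        refine mul_le_mul_of_nonneg_left (Real.rpow_le_rpow_of_exponent_le hn1 ?_) (norm_nonneg _)
        have : (1 + 2 * (δ : ℂ)).re = 1 + 2 * δ := by simp
        rw [this]
        have hδ' : 0 < δ := hδ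
        linarith
  refine tendsto_nhds_unique (ht1.congr' ?_) ht2
  filter_upwards [Ioo_mem_nhdsGT (show (0:ℝ) < 1 / 4 by norm_num)] with δ hδ
  exact FH_right α β hδ.1 hδ.2

/-- the tail -/
theorem FH_tail (k : ℕ) {ε : ℝ} (hε : 0 < ε) (hε1 : ε < 1 / 2) : ∃ C : ℝ, 0 < C ∧
    ∀ (α β : Fin k → ℝ) (X : ℕ), 1 ≤ X →
    ‖FH (fun j => (α j : ℂ)) (fun j => (β j : ℂ)) - ∑ n ∈ Finset.Icc 1 X, Gq α β n * (n : ℂ)⁻¹‖ ≤
      C * (X : ℝ) ^ (-(1 / 2) + ε) := by
  obtain ⟨C, hC, hs⟩ := Gq_sum k (σ := 1 / 2 + ε) (by linarith)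
  refine ⟨C, hC, fun α β X hX => ?_⟩
  have hX0 : (0:ℝ) < X := by exact_mod_cast hX
  obtain ⟨h1, h2⟩ := hs α β
  have hle : ∀ n : ℕ, ‖if n ∈ Finset.Icc 1 X then 0 else Gq α β n * (n : ℂ)⁻¹‖ ≤
      ‖Gq α β n‖ * (n : ℝ) ^ (-(1 / 2 + ε)) * (X : ℝ) ^ (-(1 / 2) + ε) := by
    intro n
    split_ifs with h
    · rw [norm_zero]; positivity
    · rcases Nat.eq_zero_or_pos n with hn | hn
      · subst hn; simp
      · have hnX : X < n := by
          rw [Finset.mem_Icc] at h
          omega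
        have hn0 : (0:ℝ) < n := by exact_mod_cast hn
        rw [norm_mul, norm_inv, Complex.norm_natCast, mul_assoc]
        refine mul_le_mul_of_nonneg_left ?_ (norm_nonneg _)
        have h3 : (n : ℝ) ^ (-(1 / 2) + ε) ≤ (X : ℝ) ^ (-(1 / 2) + ε) :=
          Real.rpow_le_rpow_of_nonpos hX0 (by exact_mod_cast hnX.le) (by linarith)
        calc (n : ℝ)⁻¹ = (n : ℝ) ^ (-(1 / 2 + ε)) * (n : ℝ) ^ (-(1 / 2) + ε) := by
              rw [← Real.rpow_add hn0, ← Real.rpow_neg_one]
              congr 1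
              ring
          _ ≤ _ := by gcongr
  have hsum : Summable fun n : ℕ => Gq α β n * (n : ℂ)⁻¹ := by
    have := Gq_hasSum α β (z := 1) (by simp; norm_num)
    unfold LSeriesSummable at this
    refine this.congr fun n => ?_
    rcases Nat.eq_zero_or_pos n with hn | hn
    · subst hn; simp
    · rw [LSeries.term_of_ne_zero (by omega), Complex.cpow_one, div_eq_mul_inv]
  have hsm : Summable fun n : ℕ => (if n ∈ Finset.Icc 1 X then 0 else Gq α β n * (n : ℂ)⁻¹) := by
    refine Summable.of_norm_bounded ((h1.mul_right _)) hle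
  have e1 : FH (fun j => (α j : ℂ)) (fun j => (β j : ℂ)) - ∑ n ∈ Finset.Icc 1 X, Gq α β n * (n : ℂ)⁻¹ =
      ∑' n : ℕ, (if n ∈ Finset.Icc 1 X then 0 else Gq α β n * (n : ℂ)⁻¹) := by
    rw [FH_eq]
    have h4 : ∑' n : ℕ, (if n ∈ Finset.Icc 1 X then Gq α β n * (n : ℂ)⁻¹ else 0) =
        ∑ n ∈ Finset.Icc 1 X, Gq α β n * (n : ℂ)⁻¹ := by
      rw [tsum_eq_sum (s := Finset.Icc 1 X) (fun n hn => by rw [if_neg hn])]
      exact Finset.sum_congr rfl fun n hn => by rw [if_pos hn]
    rw [← h4, ← Summable.tsum_sub hsum]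
    · refine tsum_congr fun n => ?_
      split_ifs <;> ring
    · exact summable_of_ne_finset_zero (s := Finset.Icc 1 X) (fun n hn => by rw [if_neg hn])
  rw [e1]
  refine (tsum_of_norm_bounded (h1.mul_right _).hasSum hle).trans ?_
  rw [tsum_mul_right]
  exact mul_le_mul_of_nonneg_right h2 (by positivity)

end

end Pool.Agent.D0H82.SR
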