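import Pool.Agent.TH811.GS.One
import Pool.Agent.TH321.GF.AQ
import Pool.Agent.TH612.GS.GF2

set_option autoImplicit false

/-! Zeta on the line `Re s = 1` against its partial sum of length about `T`. -/

namespace Pool.Agent.D0H82.SR

open Complex Filter Topology MeasureTheory Set
open Pool.Agent.TH612.GS

noncomputable section

/-- Abel summation -/
lemma abel (r : ℕ → ℝ) (E : ℕ → ℂ) (X : ℕ) : ∀ d : ℕ,
    ∑ n ∈ Finset.range d, (r (X + n + 1) : ℂ) * (E (X + n + 1) - E (X + n)) =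
      (r (X + d) : ℂ) * E (X + d) - (r X : ℂ) * E X +
        ∑ n ∈ Finset.range d, ((r (X + n) - r (X + n + 1) : ℝ) : ℂ) * E (X + n) := by
  intro d
  induction d with
  | zero => simp
  | succ d ih =>
    rw [Finset.sum_range_succ, ih, Finset.sum_range_succ]
    rw [show X + (d + 1) = X + d + 1 by ring]
    push_cast
    ring

lemma rdiff {m : ℕ} (hm : 1 ≤ m) : 0 ≤ (Real.sqrt m)⁻¹ - (Real.sqrt (m + 1 : ℕ))⁻¹ ∧
    (Real.sqrt m)⁻¹ - (Real.sqrt (m + 1 : ℕ))⁻¹ ≤ (m : ℝ)⁻¹ * (Real.sqrt m)⁻¹ := by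
  have hm0 : (0:ℝ) < m := by exact_mod_cast hm
  have hq : 0 < Real.sqrt m := Real.sqrt_pos.2 hm0
  have hq2 : Real.sqrt m ^ 2 = m := Real.sq_sqrt hm0.le
  have hle : Real.sqrt m ≤ Real.sqrt (m + 1 : ℕ) := Real.sqrt_le_sqrt (by push_cast; linarith)
  have hp : 0 < Real.sqrt (m + 1 : ℕ) := hq.trans_le hle
  have hp2 : Real.sqrt (m + 1 : ℕ) ^ 2 = m + 1 := by
    rw [Real.sq_sqrt (by positivity)]; push_cast; ring
  constructor
  · rw [sub_nonneg]
    exact inv_anti₀ hq hle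
  · set q := Real.sqrt m
    set p := Real.sqrt (m + 1 : ℕ)
    have h1 : p - q ≤ 1 / q := by
      rw [le_div_iff₀ hq]
      nlinarith
    have h2 : q⁻¹ - p⁻¹ = (p - q) * (q⁻¹ * p⁻¹) := by field_simp
    rw [h2, ← hq2]
    calc (p - q) * (q⁻¹ * p⁻¹) ≤ (1 / q) * (q⁻¹ * q⁻¹) := by
          have h3 : p⁻¹ ≤ q⁻¹ := inv_anti₀ hq hle
          have h4 : 0 ≤ p - q := by linarith
          gcongr
      _ = _ := by
        rw [one_div, sq, mul_inv]
        ring

/-- the blocks of the Dirichlet series on the line -/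
lemma block {u : ℝ} {X d : ℕ} (hX : 1 ≤ X) (hu0 : 0 < u) (huX : u ≤ X) :
    ‖zN (X + d) (1 + I * u) - zN X (1 + I * u)‖ ≤ (15 + 5 * Real.log ((X + d : ℕ) : ℝ)) / u := by
  set E : ℕ → ℂ := fun n => PN n u - z u with hE
  have hE1 : ∀ n : ℕ, X ≤ n → ‖E n‖ ≤ 5 * Real.sqrt n / u := by
    intro n hn
    have hn0 : (0:ℝ) < n := by exact_mod_cast (by omega : 0 < n)
    have hun : u ≤ n := huX.trans (by exact_mod_cast hn)
    have h1 := Pool.Agent.TH321.GF.AQ_pw u n (by omega) hu0 hun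
    rw [hE]
    simp only
    rw [norm_sub_rev]
    refine h1.trans ?_
    have hq : 0 < Real.sqrt n := Real.sqrt_pos.2 hn0
    have hq2 : Real.sqrt n ^ 2 = n := Real.sq_sqrt hn0.le
    have h2 : 3 * Real.sqrt n / (1 + u) ≤ 3 * Real.sqrt n / u := by
      gcongr
      linarith
    have h3 : 3 / (2 * Real.sqrt n) ≤ 2 * Real.sqrt n / u := by
      rw [div_le_div_iff₀ (by positivity) hu0]
      nlinarith
    have h4 : 5 * Real.sqrt n / u = 3 * Real.sqrt n / u + 2 * Real.sqrt n / u := by ring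
    rw [h4]
    linarith
  have hsplit : zN (X + d) (1 + I * u) - zN X (1 + I * u) =
      ∑ n ∈ Finset.range d, (((Real.sqrt (X + n + 1 : ℕ))⁻¹ : ℝ) : ℂ) * (E (X + n + 1) - E (X + n)) := by
    have h1 : ∀ d : ℕ, zN (X + d) (1 + I * u) - zN X (1 + I * u) =
        ∑ n ∈ Finset.range d, ((X + n + 1 : ℕ) : ℂ) ^ (-(1 + I * (u : ℂ))) := by
      intro d
      induction d with
      | zero => simp
      | succ d ih =>
        rw [Finset.sum_range_succ, ← ih]
        unfold zN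
        rw [show X + (d + 1) = X + d + 1 by ring, Finset.sum_Icc_succ_top (by omega)]
        ring
    rw [h1]
    refine Finset.sum_congr rfl fun n _ => ?_
    have h2 : E (X + n + 1) - E (X + n) = ((X + n + 1 : ℕ) : ℂ) ^ (-(1 / 2 + I * (u : ℂ))) := by
      rw [hE]
      simp only
      unfold PN zN
      rw [Finset.sum_Icc_succ_top (by omega)]
      ring
    rw [h2]
    have hm : ((X + n + 1 : ℕ) : ℂ) ≠ 0 := by exact_mod_cast (by omega : X + n + 1 ≠ 0)
    have h3 : (((Real.sqrt (X + n + 1 : ℕ))⁻¹ : ℝ) : ℂ) = ((X + n + 1 : ℕ) : ℂ) ^ (-(1 / 2) : ℂ) := by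
      rw [Real.sqrt_eq_rpow, ← Real.rpow_neg (by positivity), Complex.ofReal_cpow (by positivity)]
      push_cast
      rfl
    rw [h3, ← Complex.cpow_add _ _ hm]
    congr 1
    ring
  rw [hsplit, abel (fun n => (Real.sqrt n)⁻¹) E X d]
  have hend : ∀ n : ℕ, X ≤ n → ‖(((Real.sqrt n)⁻¹ : ℝ) : ℂ) * E n‖ ≤ 5 / u := by
    intro n hn
    have hn0 : (0:ℝ) < n := by exact_mod_cast (by omega : 0 < n)
    have hq : 0 < Real.sqrt n := Real.sqrt_pos.2 hn0
    rw [norm_mul, Complex.norm_real, Real.norm_of_nonneg (by positivity)]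
    calc (Real.sqrt n)⁻¹ * ‖E n‖ ≤ (Real.sqrt n)⁻¹ * (5 * Real.sqrt n / u) := by
          gcongr
          exact hE1 n hn
      _ = _ := by field_simp
  have hmid : ‖∑ n ∈ Finset.range d, (((Real.sqrt (X + n : ℕ))⁻¹ - (Real.sqrt (X + n + 1 : ℕ))⁻¹ : ℝ) : ℂ) *
      E (X + n)‖ ≤ 5 / u * (1 + Real.log ((X + d : ℕ) : ℝ)) := by
    refine (norm_sum_le _ _).trans ?_
    have h1 : ∀ n ∈ Finset.range d, ‖(((Real.sqrt (X + n : ℕ))⁻¹ - (Real.sqrt (X + n + 1 : ℕ))⁻¹ : ℝ) : ℂ) *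
      E (X + n)‖ ≤ 5 / u * ((X + n : ℕ) : ℝ)⁻¹ := by
      intro n _
      have hm1 : 1 ≤ X + n := by omega
      have hn0 : (0:ℝ) < ((X + n : ℕ) : ℝ) := by exact_mod_cast (by omega : 0 < X + n)
      have hq : 0 < Real.sqrt (X + n : ℕ) := Real.sqrt_pos.2 hn0
      obtain ⟨h2, h3⟩ := rdiff hm1
      rw [norm_mul, Complex.norm_real, Real.norm_of_nonneg h2]
      calc _ ≤ (((X + n : ℕ) : ℝ)⁻¹ * (Real.sqrt (X + n : ℕ))⁻¹) * (5 * Real.sqrt (X + n : ℕ) / u) := by
            gcongr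
            exact hE1 _ (by omega)
        _ = _ := by field_simp
    refine (Finset.sum_le_sum h1).trans ?_
    rw [← Finset.mul_sum]
    refine mul_le_mul_of_nonneg_left ?_ (by positivity)
    have h2 := Finset.sum_Ico_eq_sum_range (fun m : ℕ => ((m : ℕ) : ℝ)⁻¹) X (X + d)
    rw [Nat.add_sub_cancel_left] at h2
    rw [← h2]
    refine le_trans (Finset.sum_le_sum_of_subset_of_nonneg (fun m hm => ?_) fun _ _ _ => by positivity)
      (Pool.Agent.TH811.GS.harm_le (X + d))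
    rw [Finset.mem_Ico] at hm
    rw [Finset.mem_Icc]
    omega
  have h5 := hend (X + d) (by omega)
  have h6 := hend X le_rfl
  refine (norm_add_le _ _).trans ?_
  have h7 := norm_sub_le ((((Real.sqrt (X + d : ℕ))⁻¹ : ℝ) : ℂ) * E (X + d))
    ((((Real.sqrt (X : ℕ))⁻¹ : ℝ) : ℂ) * E X)
  have h8 : (15 + 5 * Real.log ((X + d : ℕ) : ℝ)) / u =
      5 / u + 5 / u + (5 / u * (1 + Real.log ((X + d : ℕ) : ℝ))) := by ring
  rw [h8]
  linarith

lemma block' {v : ℝ} {X d : ℕ} (hX : 1 ≤ X) (hu0 : 0 < |v|) (huX : |v| ≤ X) :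
    ‖zN (X + d) (1 + I * v) - zN X (1 + I * v)‖ ≤ (15 + 5 * Real.log ((X + d : ℕ) : ℝ)) / |v| := by
  rcases le_total 0 v with h | h
  · rw [abs_of_nonneg h] at hu0 huX ⊢
    exact block hX hu0 huX
  · rw [abs_of_nonpos h] at hu0 huX ⊢
    have h1 := block (d := d) hX hu0 huX
    rw [← Complex.norm_conj] at h1
    have h2 : ∀ N : ℕ, (starRingEnd ℂ) (zN N (1 + I * ((-v : ℝ) : ℂ))) = zN N (1 + I * v) := by
      intro N
      unfold zN
      rw [map_sum]
      refine Finset.sum_congr rfl fun n _ => ?_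
      rw [conj_cpow_nat]
      congr 1
      simp
    rw [map_sub, h2, h2] at h1
    exact h1

/-- zeta on the line against the partial sum of length about `T` -/
theorem one_approx : ∃ C T₀ : ℝ, 0 < C ∧ 3 ≤ T₀ ∧ ∀ (T : ℝ) (X : ℕ) (v : ℝ), T₀ ≤ T → 2 * T ≤ X →
    (X : ℝ) ≤ 4 * T → 1 ≤ |v| → |v| ≤ T →
    ‖riemannZeta (1 + I * v) - zN X (1 + I * v)‖ ≤ C * Real.log T / |v| := by
  refine ⟨49, 8, by norm_num, by norm_num, fun T X v hT hX1 hX2 hv1 hv2 => ?_⟩
  have hT0 : 0 < T := by linarith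
  have hv0 : 0 < |v| := by linarith
  have hX : 1 ≤ X := by
    have : (0:ℝ) < X := by linarith
    exact_mod_cast this
  obtain ⟨d, hd⟩ := exists_nat_ge (T ^ 2)
  set d' : ℕ := ⌈T ^ 2⌉₊ with hd'
  have hd1 : T ^ 2 ≤ d' := Nat.le_ceil _
  have hd2 : (d' : ℝ) < T ^ 2 + 1 := Nat.ceil_lt_add_one (by positivity)
  have h1 := Pool.Agent.TH811.GS.approx (T := T) (X := X + d') (v := v) (by linarith) (by
    push_cast
    nlinarith) hv1 hv2
  have h2 := block' (d := d') hX hv0 (by linarith)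
  have hlog1 : 1 ≤ Real.log T := by
    rw [Real.le_log_iff_exp_le hT0]
    have := Real.exp_one_lt_d9
    linarith
  have hlog : Real.log ((X + d' : ℕ) : ℝ) ≤ 3 * Real.log T + 0 := by
    have h3 : ((X + d' : ℕ) : ℝ) ≤ T ^ 3 := by
      push_cast
      nlinarith [sq_nonneg T]
    have h4 : Real.log ((X + d' : ℕ) : ℝ) ≤ Real.log (T ^ 3) := by
      refine Real.log_le_log ?_ h3
      push_cast
      positivity
    rw [Real.log_pow] at h4
    push_cast at h4 ⊢
    linarith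
  have h5 : riemannZeta (1 + I * v) - zN X (1 + I * v) =
      (riemannZeta (1 + I * v) - zN (X + d') (1 + I * v)) +
        (zN (X + d') (1 + I * v) - zN X (1 + I * v)) := by ring
  rw [h5]
  refine (norm_add_le _ _).trans ((add_le_add h1 h2).trans ?_)
  have h6 : 3 / T ≤ 3 / |v| := by gcongr
  have h7 : 1 / |v| + 3 / |v| + (15 + 5 * (3 * Real.log T)) / |v| ≤ 49 * Real.log T / |v| := by
    rw [← add_div, ← add_div]
    gcongr
    linarith
  have h8 : (15 + 5 * Real.log ((X + d' : ℕ) : ℝ)) / |v| ≤ (15 + 5 * (3 * Real.log T)) / |v| := by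
    gcongr
    linarith
  linarith

end

end Pool.Agent.D0H82.SR
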