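import Pool.Agent.D0H82.SR.C
import Pool.Agent.D0H82.SR.E1

set_option autoImplicit false

/-! Rows and tuples. -/

namespace Pool.Agent.D0H82.SR

open Complex Filter Topology MeasureTheory Set
open Pool.Agent.TH612.CF
open Pool.Agent.TH612.GS
open Pool.Agent.W182.KO

noncomputable section

variable {k : ℕ}

/-- tail sums over tuples -/
lemma tail_sum (k : ℕ) {ε : ℝ} (hε : 0 < ε) (hε1 : ε < 1 / 2) : ∃ C : ℝ, 0 < C ∧ ∀ (X : ℕ) (y : ℝ),
    1 ≤ y → ∑ m ∈ (bx k X).filter (fun m => y < ((∏ l, m l : ℕ) : ℝ)),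
      ((∏ l, m l : ℕ) : ℝ) ^ (-2 + ε) ≤ C * y ^ (-1 + 2 * ε) := by
  have hs : Summable (fun n : ℕ => (n : ℝ) ^ (-(1 + ε))) := Real.summable_nat_rpow.2 (by linarith)
  set Z : ℝ := ∑' n : ℕ, (n : ℝ) ^ (-(1 + ε)) with hZ
  have hZ0 : 0 ≤ Z := tsum_nonneg fun n => by positivity
  refine ⟨Z ^ k + 1, by positivity, fun X y hy => ?_⟩
  have hy0 : 0 < y := by linarith
  have h1 : ∀ m ∈ (bx k X).filter (fun m => y < ((∏ l, m l : ℕ) : ℝ)),
      ((∏ l, m l : ℕ) : ℝ) ^ (-2 + ε) ≤ y ^ (-1 + 2 * ε) * ∏ l, ((m l : ℕ) : ℝ) ^ (-(1 + ε)) := by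
    intro m hm
    obtain ⟨h2, h3⟩ := Finset.mem_filter.1 hm
    have h4 : (0:ℝ) < ((∏ l, m l : ℕ) : ℝ) := hy0.trans h3
    have h5 : ∏ l, ((m l : ℕ) : ℝ) ^ (-(1 + ε)) = ((∏ l, m l : ℕ) : ℝ) ^ (-(1 + ε)) := by
      rw [Real.finsetProd_rpow _ _ (fun j _ => by positivity)]
      push_cast
      rfl
    rw [h5]
    calc ((∏ l, m l : ℕ) : ℝ) ^ (-2 + ε) = ((∏ l, m l : ℕ) : ℝ) ^ (-1 + 2 * ε) *
          ((∏ l, m l : ℕ) : ℝ) ^ (-(1 + ε)) := by
          rw [← Real.rpow_add h4]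
          congr 1
          ring
      _ ≤ _ := by
          refine mul_le_mul_of_nonneg_right ?_ (by positivity)
          exact Real.rpow_le_rpow_of_nonpos hy0 h3.le (by linarith)
  calc _ ≤ ∑ m ∈ (bx k X).filter (fun m => y < ((∏ l, m l : ℕ) : ℝ)),
        y ^ (-1 + 2 * ε) * ∏ l, ((m l : ℕ) : ℝ) ^ (-(1 + ε)) := Finset.sum_le_sum h1
    _ ≤ ∑ m ∈ bx k X, y ^ (-1 + 2 * ε) * ∏ l, ((m l : ℕ) : ℝ) ^ (-(1 + ε)) :=
        Finset.sum_le_sum_of_subset_of_nonneg (Finset.filter_subset _ _) fun m _ _ =>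
          mul_nonneg (by positivity) (Finset.prod_nonneg fun l _ => by positivity)
    _ = y ^ (-1 + 2 * ε) * (∑ n ∈ Finset.Icc 1 X, (n : ℝ) ^ (-(1 + ε))) ^ k := by
        rw [← Finset.mul_sum]
        unfold bx
        rw [← Finset.prod_univ_sum (fun _ : Fin k => Finset.Icc 1 X) (fun _ m => ((m : ℕ) : ℝ) ^ (-(1 + ε))),
          Finset.prod_const, Finset.card_univ, Fintype.card_fin]
    _ ≤ y ^ (-1 + 2 * ε) * Z ^ k := by
        refine mul_le_mul_of_nonneg_left ?_ (by positivity)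
        refine pow_le_pow_left₀ (Finset.sum_nonneg fun n _ => by positivity) ?_ k
        exact hs.sum_le_tsum _ fun n _ => by positivity
    _ ≤ _ := by
        have : 0 ≤ y ^ (-1 + 2 * ε) := by positivity
        nlinarith

/-- a product of arithmetic functions on tuples -/
lemma prodAF : ∀ {k : ℕ} (F : Fin k → ArithmeticFunction ℂ) (n : ℕ),
    (∏ j, F j) n = ∑ m ∈ Nat.finMulAntidiag k n, ∏ j, F j (m j)
  | 0, F, n => by
      rw [Finset.univ_eq_empty, Finset.prod_empty, ArithmeticFunction.one_apply]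
      split_ifs with h
      · subst h
        rw [Nat.finMulAntidiag_one]
        simp
      · rw [Nat.finMulAntidiag_zero_left h]
        simp
  | k + 1, F, n => by
      rw [Fin.prod_univ_succ, ArithmeticFunction.mul_apply, antidiag_succ (fun j n => F j n)]
      refine Finset.sum_congr rfl fun p _ => ?_
      rw [prodAF]

lemma prod_pw : ∀ {k : ℕ} (l : Fin k → ℂ), ∏ j, pw (l j) = tauA l
  | 0, l => by
      rw [Finset.univ_eq_empty, Finset.prod_empty]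
      ext n
      rw [tauA_apply, tau_nil, ArithmeticFunction.one_apply]
  | k + 1, l => by
      rw [Fin.prod_univ_succ, tauA_succ, prod_pw]

lemma Dp_rows (α β : Fin k → ℝ) : Dp α β = ∏ j, tauA (fun l => lam α β (j, l)) := by
  unfold Dp
  rw [Fintype.prod_prod_type]
  exact Finset.prod_congr rfl fun j _ => prod_pw _

/-- the row sums -/
def Rr (X : ℕ) (α β : Fin k → ℝ) (j : Fin k) : ℂ :=
  ∑ m ∈ Finset.Icc 1 X, tau (fun l => lam α β (j, l)) m * (m : ℂ)⁻¹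

/-- the row products -/
def Pp (X : ℕ) (α β : Fin k → ℝ) (j : Fin k) : ℂ :=
  ∏ l, zN X (1 + I * (α j - β l))

/-- the truncated sums -/
def WW (y : ℕ) (α β : Fin k → ℝ) : ℂ := ∑ n ∈ Finset.Icc 1 y, Dp α β n * (n : ℂ)⁻¹

lemma row_tau (α β : Fin k → ℝ) (j : Fin k) (m : ℕ) :
    tau (fun l => lam α β (j, l)) m = (m : ℂ) ^ (-(I * (α j : ℂ))) * tau (fun l => I * (β l : ℂ)) m := by
  have h : (fun l => lam α β (j, l)) = fun l => I * (β l : ℂ) + -(I * (α j : ℂ)) := by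
    funext l
    unfold lam
    ring
  rw [h, tau_shift]

/-- sums over a fibre -/
lemma sum_fiber {X y : ℕ} (hyX : y ≤ X) (g : (Fin k → ℕ) → ℂ) :
    ∑ m ∈ (bx k X).filter (fun m => ∏ l, m l ≤ y), g m =
      ∑ n ∈ Finset.Icc 1 y, ∑ m ∈ Nat.finMulAntidiag k n, g m := by
  rw [← Finset.sum_fiberwise_of_maps_to (g := fun n : Fin k → ℕ => ∏ l, n l)
    (t := Finset.Icc 1 y) (fun n hn => ?_)]
  · refine Finset.sum_congr rfl fun m hm => ?_
    rw [fiber_eq hm hyX]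
  · obtain ⟨h2, h3⟩ := Finset.mem_filter.1 hn
    exact Finset.mem_Icc.2 ⟨prod_pos h2, h3⟩

lemma WW_eq {X y : ℕ} (hyX : y ≤ X) (α β : Fin k → ℝ) : WW y α β =
    ∑ m ∈ (bx k X).filter (fun m => ∏ l, m l ≤ y),
      ∏ j, (tau (fun l => lam α β (j, l)) (m j) * ((m j : ℕ) : ℂ)⁻¹) := by
  rw [sum_fiber hyX]
  unfold WW
  refine Finset.sum_congr rfl fun n _ => ?_
  rw [Dp_rows, prodAF, Finset.sum_mul]
  refine Finset.sum_congr rfl fun m hm => ?_
  rw [Finset.prod_mul_distrib]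
  simp only [tauA_apply]
  congr 1
  rw [← (Nat.mem_finMulAntidiag.1 hm).1]
  push_cast
  rw [Finset.prod_inv_distrib]

lemma prodRr_eq (X : ℕ) (α β : Fin k → ℝ) : ∏ j, Rr X α β j =
    ∑ m ∈ bx k X, ∏ j, (tau (fun l => lam α β (j, l)) (m j) * ((m j : ℕ) : ℂ)⁻¹) := by
  unfold Rr bx
  rw [Finset.prod_univ_sum]

lemma Pp_eq (X : ℕ) (α β : Fin k → ℝ) (j : Fin k) : Pp X α β j =
    ∑ e ∈ bx k X, ∏ l, ((e l : ℕ) : ℂ) ^ (-(1 + I * ((α j : ℂ) - β l))) := by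
  unfold Pp zN bx
  rw [Finset.prod_univ_sum]

lemma e_split {X : ℕ} {e : Fin k → ℕ} (he : e ∈ bx k X) (α β : Fin k → ℝ) (j : Fin k) :
    ∏ l, ((e l : ℕ) : ℂ) ^ (-(1 + I * ((α j : ℂ) - β l))) =
      (((∏ l, e l : ℕ) : ℂ)⁻¹ * ((∏ l, e l : ℕ) : ℂ) ^ (-(I * (α j : ℂ)))) *
        ∏ l, ((e l : ℕ) : ℂ) ^ (I * (β l : ℂ)) := by
  have h1 : ∀ l, ((e l : ℕ) : ℂ) ^ (-(1 + I * ((α j : ℂ) - β l))) =
      (((e l : ℕ) : ℂ)⁻¹ * ((e l : ℕ) : ℂ) ^ (-(I * (α j : ℂ)))) * ((e l : ℕ) : ℂ) ^ (I * (β l : ℂ)) := by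
    intro l
    have h0 : ((e l : ℕ) : ℂ) ≠ 0 := by
      have := bx_pos he l
      exact_mod_cast (by omega : e l ≠ 0)
    rw [← Complex.cpow_neg_one, ← Complex.cpow_add _ _ h0, ← Complex.cpow_add _ _ h0]
    congr 1
    ring
  simp only [h1]
  rw [Finset.prod_mul_distrib, Finset.prod_mul_distrib]
  congr 1
  congr 1
  · push_cast
    rw [Finset.prod_inv_distrib]
  · exact prod_cpow e _

lemma Rr_eq (X : ℕ) (α β : Fin k → ℝ) (j : Fin k) : Rr X α β j =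
    ∑ e ∈ (bx k X).filter (fun e => ∏ l, e l ≤ X),
      ∏ l, ((e l : ℕ) : ℂ) ^ (-(1 + I * ((α j : ℂ) - β l))) := by
  rw [sum_fiber le_rfl]
  unfold Rr
  refine Finset.sum_congr rfl fun n _ => ?_
  unfold tau
  rw [Finset.sum_mul]
  refine Finset.sum_congr rfl fun m hm => ?_
  have h3 : (n : ℂ)⁻¹ = ∏ l, ((m l : ℕ) : ℂ)⁻¹ := by
    rw [← (Nat.mem_finMulAntidiag.1 hm).1]
    push_cast
    rw [Finset.prod_inv_distrib]
  rw [h3, ← Finset.prod_mul_distrib]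
  refine Finset.prod_congr rfl fun l _ => ?_
  have h0 : ((m l : ℕ) : ℂ) ≠ 0 := by exact_mod_cast Nat.ne_zero_of_mem_finMulAntidiag hm l
  rw [← Complex.cpow_neg_one, ← Complex.cpow_add _ _ h0]
  congr 1
  unfold lam
  ring

/-- the difference of row product and row sum, as a character sum in `β` -/
lemma PR_eq (X : ℕ) (α β : Fin k → ℝ) (j : Fin k) : Pp X α β j - Rr X α β j =
    ∑ e ∈ bx k X, (if X < ∏ l, e l then
      ((∏ l, e l : ℕ) : ℂ)⁻¹ * ((∏ l, e l : ℕ) : ℂ) ^ (-(I * (α j : ℂ))) else 0) *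
        ∏ l, ((e l : ℕ) : ℂ) ^ (I * (β l : ℂ)) := by
  rw [Pp_eq, Rr_eq, Finset.sum_filter, ← Finset.sum_sub_distrib]
  refine Finset.sum_congr rfl fun e he => ?_
  by_cases h : ∏ l, e l ≤ X
  · rw [if_pos h, if_neg (by omega)]
    ring
  · rw [if_neg h, if_pos (by omega), sub_zero, e_split he]

/-- the difference of the product of the row sums and the truncated sum, as a character sum in `α` -/
lemma RW_eq {X y : ℕ} (hyX : y ≤ X) (α β : Fin k → ℝ) : ∏ j, Rr X α β j - WW y α β =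
    ∑ m ∈ bx k X, (if y < ∏ l, m l then
      ∏ j, (tau (fun l => I * (β l : ℂ)) (m j) * ((m j : ℕ) : ℂ)⁻¹) else 0) *
        ∏ l, ((m l : ℕ) : ℂ) ^ (-(I * (α l : ℂ))) := by
  rw [WW_eq hyX, prodRr_eq, Finset.sum_filter, ← Finset.sum_sub_distrib]
  refine Finset.sum_congr rfl fun m hm => ?_
  have h1 : ∏ j, (tau (fun l => lam α β (j, l)) (m j) * ((m j : ℕ) : ℂ)⁻¹) =
      (∏ j, (tau (fun l => I * (β l : ℂ)) (m j) * ((m j : ℕ) : ℂ)⁻¹)) *
        ∏ l, ((m l : ℕ) : ℂ) ^ (-(I * (α l : ℂ))) := by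
    rw [← Finset.prod_mul_distrib]
    refine Finset.prod_congr rfl fun j _ => ?_
    rw [row_tau]
    ring
  rw [h1]
  by_cases h : ∏ l, m l ≤ y
  · rw [if_pos h, if_neg (by omega)]
    ring
  · rw [if_neg h, if_pos (by omega)]
    ring

end

end Pool.Agent.D0H82.SR
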