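import Pool.Agent.D0H82.SR.H
import Pool.Agent.D0H82.SR.F

set_option autoImplicit false

/-! Mean squares for rows. -/

namespace Pool.Agent.D0H82.SR

open Complex Filter Topology MeasureTheory Set
open Pool.Agent.TH612.CF
open Pool.Agent.TH612.GS
open Pool.Agent.W182.KO

noncomputable section

variable {k : ℕ}

lemma norm_prod_char {X : ℕ} {e : Fin k → ℕ} (he : e ∈ bx k X) (α β : Fin k → ℝ) (j : Fin k) :
    ‖∏ l, ((e l : ℕ) : ℂ) ^ (-(1 + I * ((α j : ℂ) - β l)))‖ = (((∏ l, e l : ℕ) : ℝ))⁻¹ := by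
  rw [norm_prod]
  have h1 : ∀ l, ‖((e l : ℕ) : ℂ) ^ (-(1 + I * ((α j : ℂ) - β l)))‖ = ((e l : ℕ) : ℝ)⁻¹ := by
    intro l
    rw [Complex.norm_natCast_cpow_of_pos (by have := bx_pos he l; omega)]
    have : (-(1 + I * ((α j : ℂ) - β l))).re = -1 := by simp
    rw [this, Real.rpow_neg_one]
  simp only [h1]
  push_cast
  rw [Finset.prod_inv_distrib]

lemma Pp_le (X : ℕ) (α β : Fin k → ℝ) (j : Fin k) : ‖Pp X α β j‖ ≤ (1 + Real.log X) ^ k := by
  rw [Pp_eq]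
  refine (norm_sum_le _ _).trans ?_
  rw [Finset.sum_congr rfl fun e he => norm_prod_char he α β j]
  exact sum_inv_bx k X

lemma Rr_le (X : ℕ) (α β : Fin k → ℝ) (j : Fin k) : ‖Rr X α β j‖ ≤ (1 + Real.log X) ^ k := by
  rw [Rr_eq]
  refine (norm_sum_le _ _).trans ?_
  rw [Finset.sum_congr rfl fun e he => norm_prod_char (Finset.mem_filter.1 he).1 α β j]
  refine le_trans ?_ (sum_inv_bx k X)
  exact Finset.sum_le_sum_of_subset_of_nonneg (Finset.filter_subset _ _) fun _ _ _ => by positivity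

/-- difference of products -/
lemma prod_diff {ι : Type*} (s : Finset ι) (f g : ι → ℂ) {B : ℝ} (hB : 1 ≤ B)
    (hf : ∀ i, ‖f i‖ ≤ B) (hg : ∀ i, ‖g i‖ ≤ B) :
    ‖∏ i ∈ s, f i - ∏ i ∈ s, g i‖ ≤ B ^ s.card * ∑ i ∈ s, ‖f i - g i‖ := by
  classical
  have hB0 : 0 ≤ B := by linarith
  induction s using Finset.induction_on with
  | empty => simp
  | insert i s hi ih =>
    rw [Finset.prod_insert hi, Finset.prod_insert hi, Finset.sum_insert hi,
      Finset.card_insert_of_notMem hi]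
    have e : f i * ∏ i ∈ s, f i - g i * ∏ i ∈ s, g i =
        f i * (∏ i ∈ s, f i - ∏ i ∈ s, g i) + (f i - g i) * ∏ i ∈ s, g i := by ring
    rw [e]
    have h1 : ‖∏ i ∈ s, g i‖ ≤ B ^ s.card := by
      rw [norm_prod]
      refine (Finset.prod_le_prod (fun _ _ => norm_nonneg _) fun i _ => hg i).trans ?_
      rw [Finset.prod_const]
    have h2 : B ^ s.card ≤ B ^ (s.card + 1) := pow_le_pow_right₀ hB (by omega)
    have h3 : 0 ≤ ∑ i ∈ s, ‖f i - g i‖ := Finset.sum_nonneg fun _ _ => norm_nonneg _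
    calc _ ≤ ‖f i * (∏ i ∈ s, f i - ∏ i ∈ s, g i)‖ + ‖(f i - g i) * ∏ i ∈ s, g i‖ := norm_add_le _ _
      _ ≤ B * (B ^ s.card * ∑ i ∈ s, ‖f i - g i‖) + ‖f i - g i‖ * B ^ s.card := by
          rw [norm_mul, norm_mul]
          gcongr
          exact hf i
      _ ≤ B ^ (s.card + 1) * (∑ i ∈ s, ‖f i - g i‖) + ‖f i - g i‖ * B ^ (s.card + 1) :=
          add_le_add (le_of_eq (by rw [pow_succ]; ring)) (mul_le_mul_of_nonneg_left h2 (norm_nonneg _))
      _ = _ := by ring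

/-- mean square of the difference of the row products and the row sums -/
lemma PR_L2 (hT : S_TMV) (k : ℕ) {ε : ℝ} (hε : 0 < ε) (hε1 : ε < 1) : ∃ C : ℝ, 0 < C ∧
    ∀ (T : ℝ) (X : ℕ) (α : Fin k → ℝ) (j : Fin k), 4 ≤ T → 1 ≤ X → (X : ℝ) ≤ 4 * T →
    ∫⁻ β, ENNReal.ofReal (‖Pp X α β j - Rr X α β j‖ ^ 2) ∂(mP (Fin k) T) ≤
      ENNReal.ofReal (C * T ^ k * (X : ℝ) ^ (-1 + ε)) := by
  obtain ⟨C1, hC1, h1⟩ := hT k
  obtain ⟨C2, hC2, h2⟩ := tail_sum k (ε := ε / 2) (by positivity) (by linarith)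
  refine ⟨C1 * C2, by positivity, fun T X α j hT4 hX hX2 => ?_⟩
  have hT0 : 0 ≤ T := by linarith
  simp only [PR_eq]
  refine (h1 T X _ hT4 hX2).trans (ENNReal.ofReal_le_ofReal ?_)
  have h3 : ∑ e ∈ Fintype.piFinset (fun _ : Fin k => Finset.Icc 1 X), ‖(if X < ∏ l, e l then
      ((∏ l, e l : ℕ) : ℂ)⁻¹ * ((∏ l, e l : ℕ) : ℂ) ^ (-(I * (α j : ℂ))) else 0)‖ ^ 2 ≤
      C2 * (X : ℝ) ^ (-1 + ε) := by
    have h4 := h2 X X (by exact_mod_cast hX)
    have e1 : -1 + 2 * (ε / 2) = -1 + ε := by ring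
    rw [e1] at h4
    refine le_trans ?_ h4
    rw [Finset.sum_filter]
    refine Finset.sum_le_sum fun e he => ?_
    have hp := prod_pos (k := k) (X := X) he
    by_cases h : X < ∏ l, e l
    · have h' : (X : ℝ) < ((∏ l, e l : ℕ) : ℝ) := by exact_mod_cast h
      rw [if_pos h, if_pos h']
      have hp0 : (0:ℝ) < ((∏ l, e l : ℕ) : ℝ) := by exact_mod_cast hp
      have hp1 : (1:ℝ) ≤ ((∏ l, e l : ℕ) : ℝ) := by exact_mod_cast hp
      rw [norm_mul, norm_inv, Complex.norm_natCast, Complex.norm_natCast_cpow_of_pos (by omega)]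
      have e2 : (-(I * (α j : ℂ))).re = 0 := by simp
      rw [e2, Real.rpow_zero, mul_one, inv_pow, ← Real.rpow_natCast, ← Real.rpow_neg hp0.le]
      refine Real.rpow_le_rpow_of_exponent_le hp1 ?_
      push_cast
      linarith
    · rw [if_neg h, norm_zero]
      split_ifs
      · have : (0:ℝ) ≤ ((∏ l, e l : ℕ) : ℝ) ^ (-2 + ε / 2) := by positivity
        simpa using this
      · simp
  calc C1 * T ^ k * _ ≤ C1 * T ^ k * (C2 * (X : ℝ) ^ (-1 + ε)) := by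
        gcongr
    _ = _ := by ring

/-- mean square of the difference of the product of the row sums and the truncated sum -/
lemma RW_L2 (hT : S_TMV) (k : ℕ) {ε : ℝ} (hε : 0 < ε) (hε1 : ε < 1) : ∃ C : ℝ, 0 < C ∧
    ∀ (T : ℝ) (X y : ℕ) (β : Fin k → ℝ), 4 ≤ T → 1 ≤ y → y ≤ X → (X : ℝ) ≤ 4 * T →
    ∫⁻ α, ENNReal.ofReal (‖∏ j, Rr X α β j - WW y α β‖ ^ 2) ∂(mP (Fin k) T) ≤
      ENNReal.ofReal (C * T ^ k * (y : ℝ) ^ (-1 + ε)) := by
  obtain ⟨C1, hC1, h1⟩ := TMVm hT k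
  obtain ⟨C2, hC2, h2⟩ := tail_sum k (ε := ε / 2) (by positivity) (by linarith)
  obtain ⟨C3, hC3, h3⟩ := divpow (2 * k) (ε := ε / 2) (by positivity)
  refine ⟨C1 * (C3 ^ k * C2), by positivity, fun T X y β hT4 hy hyX hX2 => ?_⟩
  have hT0 : 0 ≤ T := by linarith
  simp only [RW_eq hyX]
  refine (h1 T X _ hT4 hX2).trans (ENNReal.ofReal_le_ofReal ?_)
  have h4 : ∑ m ∈ bx k X, ‖(if y < ∏ l, m l then
      ∏ j, (tau (fun l => I * (β l : ℂ)) (m j) * ((m j : ℕ) : ℂ)⁻¹) else 0)‖ ^ 2 ≤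
      C3 ^ k * (C2 * (y : ℝ) ^ (-1 + ε)) := by
    have h5 := h2 X y (by exact_mod_cast hy)
    have e1 : -1 + 2 * (ε / 2) = -1 + ε := by ring
    rw [e1] at h5
    refine le_trans ?_ (mul_le_mul_of_nonneg_left h5 (by positivity))
    rw [Finset.sum_filter, Finset.mul_sum]
    refine Finset.sum_le_sum fun m hm => ?_
    by_cases h : y < ∏ l, m l
    · have h' : (y : ℝ) < ((∏ l, m l : ℕ) : ℝ) := by exact_mod_cast h
      rw [if_pos h, if_pos h', norm_prod, ← Finset.prod_pow]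
      have h6 : ∀ j, ‖tau (fun l => I * (β l : ℂ)) (m j) * ((m j : ℕ) : ℂ)⁻¹‖ ^ 2 ≤
          C3 * ((m j : ℕ) : ℝ) ^ (-2 + ε / 2) := by
        intro j
        have hm1 := bx_pos hm j
        have hm0 : (0:ℝ) < ((m j : ℕ) : ℝ) := by exact_mod_cast hm1
        have h7 : ‖tau (fun l => I * (β l : ℂ)) (m j)‖ ≤ ((m j).divisors.card : ℝ) ^ k *
            ((m j : ℕ) : ℝ) ^ (0:ℝ) := tau_le (fun j => by simp) _
        rw [Real.rpow_zero, mul_one] at h7
        rw [norm_mul, mul_pow, norm_inv, Complex.norm_natCast]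
        calc _ ≤ (((m j).divisors.card : ℝ) ^ k) ^ 2 * (((m j : ℕ) : ℝ)⁻¹) ^ 2 := by gcongr
          _ = ((m j).divisors.card : ℝ) ^ (2 * k) * ((m j : ℕ) : ℝ) ^ (-2 : ℝ) := by
              rw [← pow_mul, mul_comm k 2]
              congr 1
              rw [inv_pow, ← Real.rpow_natCast, ← Real.rpow_neg hm0.le]
              norm_num
          _ ≤ (C3 * ((m j : ℕ) : ℝ) ^ (ε / 2)) * ((m j : ℕ) : ℝ) ^ (-2 : ℝ) := by
              gcongr
              exact h3 _ hm1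
          _ = _ := by
              rw [mul_assoc, ← Real.rpow_add hm0]
              congr 2
              ring
      refine (Finset.prod_le_prod (fun _ _ => by positivity) fun j _ => h6 j).trans (le_of_eq ?_)
      rw [Finset.prod_mul_distrib, Finset.prod_const, Finset.card_univ, Fintype.card_fin,
        Real.finsetProd_rpow _ _ (fun j _ => by positivity)]
      push_cast
      rfl
    · rw [if_neg h, norm_zero]
      split_ifs
      · have : (0:ℝ) ≤ C3 ^ k * ((∏ l, m l : ℕ) : ℝ) ^ (-2 + ε / 2) := by positivity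
        simpa using this
      · simp
  calc C1 * T ^ k * _ ≤ C1 * T ^ k * (C3 ^ k * (C2 * (y : ℝ) ^ (-1 + ε))) := by
        gcongr
    _ = _ := by ring

end

end Pool.Agent.D0H82.SR
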