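import Pool.Agent.D0H82.SR.J

set_option autoImplicit false

/-! The diagonal sum against the arithmetic factor times the row products. -/

namespace Pool.Agent.D0H82.SR

open Complex Filter Topology MeasureTheory Set
open Pool.Agent.TH612.CF
open Pool.Agent.TH612.GS
open Pool.Agent.W182.KO

noncomputable section

variable {k : ℕ}

/-- division by `n` -/
def iv (f : ArithmeticFunction ℂ) : ArithmeticFunction ℂ := ⟨fun n => f n * (n : ℂ)⁻¹, by simp⟩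

lemma iv_apply (f : ArithmeticFunction ℂ) (n : ℕ) : iv f n = f n * (n : ℂ)⁻¹ := rfl

lemma iv_mul (f g : ArithmeticFunction ℂ) : iv (f * g) = iv f * iv g := by
  ext n
  rw [iv_apply, ArithmeticFunction.mul_apply, ArithmeticFunction.mul_apply, Finset.sum_mul]
  refine Finset.sum_congr rfl fun x hx => ?_
  obtain ⟨h2, -⟩ := Nat.mem_divisorsAntidiagonal.1 hx
  rw [iv_apply, iv_apply, ← h2, Nat.cast_mul, mul_inv]
  ring

lemma dr_A2 (γ : Fin k ⊕ Fin k → ℝ) (n : ℕ) : dr γ n = A2 (fs γ) (sd γ) n * (n : ℂ)⁻¹ := by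
  rw [A2_apply]
  rfl

/-- hyperbola identity -/
lemma dr_sum (γ : Fin k ⊕ Fin k → ℝ) (X : ℕ) : ∑ n ∈ Finset.Icc 1 X, dr γ n =
    ∑ d ∈ Finset.Icc 1 X, Gq (fs γ) (sd γ) d * (d : ℂ)⁻¹ * WW (X / d) (fs γ) (sd γ) := by
  have hI : ∀ N : ℕ, Finset.Icc 1 N = Finset.Ioc 0 N := by
    intro N; ext n; simp only [Finset.mem_Icc, Finset.mem_Ioc]; omega
  have h := ArithmeticFunction.sum_Ioc_mul_eq_sum_sum (iv (Gq (fs γ) (sd γ))) (iv (Dp (fs γ) (sd γ))) X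
  rw [← iv_mul, Gq_Dp] at h
  unfold WW
  simp only [hI, dr_A2]
  exact h

open Classical in
/-- the majorant -/
def gm (C ε : ℝ) (n : ℕ) : ℝ := C * if Sqf n then (n : ℝ) ^ ε else 0

lemma gm_nonneg {C ε : ℝ} (hC : 0 ≤ C) (n : ℕ) : 0 ≤ gm C ε n := by
  unfold gm
  split_ifs <;> positivity

/-- weighted sum of the majorant -/
lemma gm_sum {C ε s : ℝ} (hC : 0 ≤ C) (hs : 1 / 2 < s - ε) : ∃ K : ℝ, 0 < K ∧ ∀ X : ℕ,
    ∑ d ∈ Finset.Icc 1 X, gm C ε d * (d : ℝ) ^ (-s) ≤ K := by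
  classical
  have h1 := (sqf_summable hs).mul_left C
  refine ⟨(∑' n : ℕ, C * if Sqf n then (n : ℝ) ^ (-(s - ε)) else 0) + 1, ?_, fun X => ?_⟩
  · have : 0 ≤ ∑' n : ℕ, C * if Sqf n then (n : ℝ) ^ (-(s - ε)) else 0 :=
      tsum_nonneg fun n => by split_ifs <;> positivity
    linarith
  · have h2 : ∑ d ∈ Finset.Icc 1 X, gm C ε d * (d : ℝ) ^ (-s) =
        ∑ d ∈ Finset.Icc 1 X, C * if Sqf d then (d : ℝ) ^ (-(s - ε)) else 0 := by
      refine Finset.sum_congr rfl fun d hd => ?_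
      have hd0 : (0:ℝ) < d := by exact_mod_cast (Finset.mem_Icc.1 hd).1
      unfold gm
      split_ifs
      · rw [mul_assoc, ← Real.rpow_add hd0]
        congr 2
        ring
      · ring
    rw [h2]
    have h3 := h1.sum_le_tsum (Finset.Icc 1 X) fun n _ => by split_ifs <;> positivity
    linarith

/-- Cauchy-Schwarz for the sum over the square-full part -/
lemma cs_bd {C ε s K : ℝ} (hC : 0 ≤ C) {X : ℕ}
    (hK : ∑ d ∈ Finset.Icc 1 X, gm C ε d * (d : ℝ) ^ (-s) ≤ K)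
    (G h : ℕ → ℂ) (hG : ∀ n, ‖G n‖ ≤ gm C ε n) :
    ‖∑ d ∈ Finset.Icc 1 X, G d * (d : ℂ)⁻¹ * h d‖ ^ 2 ≤
      K * ∑ d ∈ Finset.Icc 1 X, gm C ε d * (d : ℝ) ^ (s - 2) * ‖h d‖ ^ 2 := by
  have h1 : ‖∑ d ∈ Finset.Icc 1 X, G d * (d : ℂ)⁻¹ * h d‖ ≤
      ∑ d ∈ Finset.Icc 1 X, gm C ε d * (d : ℝ)⁻¹ * ‖h d‖ := by
    refine (norm_sum_le _ _).trans (Finset.sum_le_sum fun d _ => ?_)
    rw [norm_mul, norm_mul, norm_inv, Complex.norm_natCast]
    gcongr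
    exact hG d
  have h2 := Finset.sum_sq_le_sum_mul_sum_of_sq_le_mul (Finset.Icc 1 X)
    (r := fun d => gm C ε d * (d : ℝ)⁻¹ * ‖h d‖) (f := fun d => gm C ε d * (d : ℝ) ^ (-s))
    (g := fun d => gm C ε d * (d : ℝ) ^ (s - 2) * ‖h d‖ ^ 2)
    (fun d _ => mul_nonneg (gm_nonneg hC d) (by positivity))
    (fun d _ => mul_nonneg (mul_nonneg (gm_nonneg hC d) (by positivity)) (by positivity))
    (fun d hd => by
      have hd0 : (0:ℝ) < d := by exact_mod_cast (Finset.mem_Icc.1 hd).1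
      have e1 : (d : ℝ) ^ (s - 2) = (d : ℝ) ^ s * ((d : ℝ)⁻¹) ^ 2 := by
        rw [Real.rpow_sub hd0, inv_pow, div_eq_mul_inv]
        norm_num
      have e2 : (d : ℝ) ^ (-s) * (d : ℝ) ^ s = 1 := by
        rw [← Real.rpow_add hd0]; simp
      rw [e1]
      refine le_of_eq ?_
      calc (gm C ε d * (d : ℝ)⁻¹ * ‖h d‖) ^ 2 = gm C ε d ^ 2 * ((d : ℝ)⁻¹) ^ 2 * ‖h d‖ ^ 2 *
            ((d : ℝ) ^ (-s) * (d : ℝ) ^ s) := by rw [e2]; ring
        _ = _ := by ring)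
  calc _ ≤ (∑ d ∈ Finset.Icc 1 X, gm C ε d * (d : ℝ)⁻¹ * ‖h d‖) ^ 2 :=
        pow_le_pow_left₀ (norm_nonneg _) h1 2
    _ ≤ _ := h2
    _ ≤ _ := by
        refine mul_le_mul_of_nonneg_right hK (Finset.sum_nonneg fun d _ => ?_)
        exact mul_nonneg (mul_nonneg (gm_nonneg hC d) (by positivity)) (by positivity)

/-- the floor -/
lemma floor_ge {X d : ℕ} (hd : 1 ≤ d) (hdX : d ≤ X) : 1 ≤ X / d ∧ (X : ℝ) ≤ 2 * d * ((X / d : ℕ) : ℝ) := by
  have h1 : 1 ≤ X / d := (Nat.one_le_div_iff (by omega)).2 hdX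
  refine ⟨h1, ?_⟩
  have h2 : X < d * (X / d) + d := by
    have := Nat.div_add_mod X d
    have := Nat.mod_lt X (show 0 < d by omega)
    omega
  have h3 : d * 1 ≤ d * (X / d) := Nat.mul_le_mul_left d h1
  have h4 : X ≤ 2 * d * (X / d) := by nlinarith
  exact_mod_cast h4

/-- the smoothed diagonal sum against the arithmetic factor times the row products -/
theorem DF_L2 (hT : S_TMV) (k : ℕ) {ε : ℝ} (hε : 0 < ε) (hε1 : ε < 1) : ∃ C : ℝ, 0 < C ∧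
    ∀ (T : ℝ) (X : ℕ), 4 ≤ T → T ≤ X → (X : ℝ) ≤ 4 * T →
    ∫⁻ γ, ENNReal.ofReal (‖(∑ n ∈ Finset.Icc 1 X, dr γ n) -
      FH (fun j => (fs γ j : ℂ)) (fun j => (sd γ j : ℂ)) * ∏ j, Pp X (fs γ) (sd γ) j‖ ^ 2)
      ∂(mP (Fin k ⊕ Fin k) T) ≤ ENNReal.ofReal (C * T ^ ε * T ^ (2 * k) * T⁻¹) := by
  set η : ℝ := ε / 4 with hη
  have hη0 : 0 < η := by positivity
  have hη1 : η < 1 / 4 := by rw [hη]; linarith
  obtain ⟨C0, hC0, h0⟩ := Gq_bd k (ε := η / 2) (by positivity)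
  obtain ⟨K, hK0, hK⟩ := gm_sum (C := C0) (ε := η / 2) (s := 1 / 2 + η) hC0.le (by linarith)
  obtain ⟨C1, hC1, h1⟩ := PW_L2 hT k hη0 (by linarith)
  obtain ⟨C2, hC2, h2⟩ := FH_tail k hη0 (by linarith)
  obtain ⟨C3, hC3, h3⟩ := logpow (k * k * 2) hη0
  refine ⟨2 * (K * (K * (C1 * 2) * 4)) + 2 * (C2 ^ 2 * C3 * 4), by positivity,
    fun T X hT4 hX1 hX2 => ?_⟩
  have hT0 : 0 < T := by linarith
  have hX : 1 ≤ X := by
    have : (0:ℝ) < X := by linarith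
    exact_mod_cast this
  have hXr : (1:ℝ) ≤ X := by exact_mod_cast hX
  have hX0 : (0:ℝ) < X := by linarith
  have hlog : 0 ≤ Real.log X := Real.log_nonneg hXr
  -- exponents
  have hexp : ∀ a : ℝ, a ≤ 3 * η → (X : ℝ) ^ (-1 + a) ≤ 4 * T ^ (3 * η) * T⁻¹ := by
    intro a ha
    calc (X : ℝ) ^ (-1 + a) ≤ (X : ℝ) ^ (-1 + 3 * η) :=
          Real.rpow_le_rpow_of_exponent_le hXr (by linarith)
      _ = (X : ℝ) ^ (3 * η) * (X : ℝ)⁻¹ := by
          rw [Real.rpow_add hX0, Real.rpow_neg_one]; ring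
      _ ≤ (4 * T) ^ (3 * η) * T⁻¹ := by gcongr
      _ = 4 ^ (3 * η) * T ^ (3 * η) * T⁻¹ := by rw [Real.mul_rpow (by norm_num) hT0.le]
      _ ≤ 4 ^ (1 : ℝ) * T ^ (3 * η) * T⁻¹ := by
          gcongr
          · norm_num
          · linarith
      _ = _ := by rw [Real.rpow_one]
  have hTη : T ^ η * T ^ (3 * η) = T ^ ε := by
    rw [← Real.rpow_add hT0]; congr 1; rw [hη]; ring
  have hTη1 : 1 ≤ T ^ η := Real.one_le_rpow (by linarith) hη0.le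
  set P : (Fin k ⊕ Fin k → ℝ) → ℂ := fun γ => ∏ j, Pp X (fs γ) (sd γ) j with hP
  set s : ℝ := 1 / 2 + η with hs
  have hPle : ∀ γ : Fin k ⊕ Fin k → ℝ, ‖P γ‖ ^ 2 ≤ C3 * (X : ℝ) ^ η := by
    intro γ
    rw [hP]
    simp only
    rw [norm_prod]
    have h4 : ∏ j, ‖Pp X (fs γ) (sd γ) j‖ ≤ ∏ _j : Fin k, (1 + Real.log X) ^ k :=
      Finset.prod_le_prod (fun _ _ => norm_nonneg _) fun j _ => Pp_le X _ _ j
    rw [Finset.prod_const, Finset.card_univ, Fintype.card_fin] at h4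
    calc _ ≤ (((1 + Real.log X) ^ k) ^ k) ^ 2 :=
          pow_le_pow_left₀ (Finset.prod_nonneg fun _ _ => norm_nonneg _) h4 2
      _ = (1 + Real.log X) ^ (k * k * 2) := by rw [← pow_mul, ← pow_mul]; congr 1; ring
      _ ≤ _ := h3 _ hXr
  -- pointwise bound
  have hpt : ∀ γ : Fin k ⊕ Fin k → ℝ, ENNReal.ofReal (‖(∑ n ∈ Finset.Icc 1 X, dr γ n) -
      FH (fun j => (fs γ j : ℂ)) (fun j => (sd γ j : ℂ)) * P γ‖ ^ 2) ≤
      (∑ d ∈ Finset.Icc 1 X, ENNReal.ofReal (2 * (K * (gm C0 (η / 2) d * (d : ℝ) ^ (s - 2)))) *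
        ENNReal.ofReal (‖WW (X / d) (fs γ) (sd γ) - P γ‖ ^ 2)) +
      ENNReal.ofReal (2 * (C2 ^ 2 * C3 * (X : ℝ) ^ (-1 + 3 * η))) := by
    intro γ
    have e1 : (∑ n ∈ Finset.Icc 1 X, dr γ n) -
        FH (fun j => (fs γ j : ℂ)) (fun j => (sd γ j : ℂ)) * P γ =
        (∑ d ∈ Finset.Icc 1 X, Gq (fs γ) (sd γ) d * (d : ℂ)⁻¹ * (WW (X / d) (fs γ) (sd γ) - P γ)) +
        -((FH (fun j => (fs γ j : ℂ)) (fun j => (sd γ j : ℂ)) -
          ∑ n ∈ Finset.Icc 1 X, Gq (fs γ) (sd γ) n * (n : ℂ)⁻¹) * P γ) := by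
      rw [dr_sum]
      simp only [mul_sub, Finset.sum_sub_distrib]
      rw [← Finset.sum_mul]
      ring
    have h4 := sq_add_two
      (∑ d ∈ Finset.Icc 1 X, Gq (fs γ) (sd γ) d * (d : ℂ)⁻¹ * (WW (X / d) (fs γ) (sd γ) - P γ))
      (-((FH (fun j => (fs γ j : ℂ)) (fun j => (sd γ j : ℂ)) -
          ∑ n ∈ Finset.Icc 1 X, Gq (fs γ) (sd γ) n * (n : ℂ)⁻¹) * P γ))
    rw [← e1, norm_neg] at h4
    have h5 := cs_bd hC0.le (hK X) (fun d => Gq (fs γ) (sd γ) d)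
      (fun d => WW (X / d) (fs γ) (sd γ) - P γ) (fun n => h0 (fs γ) (sd γ) n)
    have h6 : ‖(FH (fun j => (fs γ j : ℂ)) (fun j => (sd γ j : ℂ)) -
          ∑ n ∈ Finset.Icc 1 X, Gq (fs γ) (sd γ) n * (n : ℂ)⁻¹) * P γ‖ ^ 2 ≤
        C2 ^ 2 * C3 * (X : ℝ) ^ (-1 + 3 * η) := by
      rw [norm_mul, mul_pow]
      calc _ ≤ (C2 * (X : ℝ) ^ (-(1 / 2) + η)) ^ 2 * (C3 * (X : ℝ) ^ η) := by
            gcongr
            · exact h2 (fs γ) (sd γ) X hX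
            · exact hPle γ
        _ = C2 ^ 2 * C3 * ((X : ℝ) ^ (-(1 / 2) + η) * (X : ℝ) ^ (-(1 / 2) + η) * (X : ℝ) ^ η) := by ring
        _ = _ := by
            rw [← Real.rpow_add hX0, ← Real.rpow_add hX0]
            congr 2
            ring
    have h7 : (∑ d ∈ Finset.Icc 1 X, ENNReal.ofReal (2 * (K * (gm C0 (η / 2) d * (d : ℝ) ^ (s - 2)))) *
        ENNReal.ofReal (‖WW (X / d) (fs γ) (sd γ) - P γ‖ ^ 2)) =
        ENNReal.ofReal (2 * (K * ∑ d ∈ Finset.Icc 1 X, gm C0 (η / 2) d * (d : ℝ) ^ (s - 2) *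
          ‖WW (X / d) (fs γ) (sd γ) - P γ‖ ^ 2)) := by
      rw [Finset.mul_sum, Finset.mul_sum, ENNReal.ofReal_sum_of_nonneg fun d _ => ?_]
      · refine Finset.sum_congr rfl fun d _ => ?_
        have := gm_nonneg (ε := η / 2) hC0.le d
        rw [← ENNReal.ofReal_mul (by positivity)]
        congr 1
        ring
      · have := gm_nonneg (ε := η / 2) hC0.le d
        positivity
    rw [h7, ← ENNReal.ofReal_add ?_ (by positivity)]
    · exact ENNReal.ofReal_le_ofReal (by linarith)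
    · refine mul_nonneg (by norm_num) (mul_nonneg hK0.le (Finset.sum_nonneg fun d _ => ?_))
      have := gm_nonneg (ε := η / 2) hC0.le d
      positivity
  have hm : ∀ d : ℕ, Measurable fun γ : Fin k ⊕ Fin k → ℝ =>
      ENNReal.ofReal (‖WW (X / d) (fs γ) (sd γ) - P γ‖ ^ 2) := fun d =>
    meas_sq ((WW_cont (X / d)).sub (continuous_finsetProd _ fun j _ => Pp_cont X j))
  refine (lintegral_mono hpt).trans ?_
  rw [lintegral_add_right _ measurable_const, lintegral_const, mP_univ2 k hT0.le,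
    lintegral_finsetSum _ fun d _ => (hm d).const_mul _]
  simp_rw [lintegral_const_mul _ (hm _)]
  have hA : ∀ d ∈ Finset.Icc 1 X, ENNReal.ofReal (2 * (K * (gm C0 (η / 2) d * (d : ℝ) ^ (s - 2)))) *
      ∫⁻ γ, ENNReal.ofReal (‖WW (X / d) (fs γ) (sd γ) - P γ‖ ^ 2) ∂(mP (Fin k ⊕ Fin k) T) ≤
      ENNReal.ofReal (2 * (K * (C1 * T ^ η * T ^ (2 * k) * (2 * (X : ℝ) ^ (-1 + 3 * η)))) *
        (gm C0 (η / 2) d * (d : ℝ) ^ (-s))) := by
    intro d hd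
    obtain ⟨hd1, hd2⟩ := Finset.mem_Icc.1 hd
    obtain ⟨h4, h5⟩ := floor_ge hd1 hd2
    have hd0 : (0:ℝ) < d := by exact_mod_cast hd1
    have hg := gm_nonneg (ε := η / 2) hC0.le d
    have h6 := h1 T X (X / d) hT4 h4 (Nat.div_le_self X d) hX2
    have hy0 : (0:ℝ) < ((X / d : ℕ) : ℝ) := by exact_mod_cast h4
    have h7 : ((X / d : ℕ) : ℝ) ^ (-1 + η) ≤ 2 * d * (X : ℝ) ^ (-1 + η) := by
      have h8 : ((2 * d : ℝ) * ((X / d : ℕ) : ℝ)) ^ (-1 + η) ≤ (X : ℝ) ^ (-1 + η) :=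
        Real.rpow_le_rpow_of_nonpos hX0 h5 (by linarith)
      rw [Real.mul_rpow (by positivity) hy0.le] at h8
      have h9 : 1 ≤ 2 * d * (2 * d : ℝ) ^ (-1 + η) := by
        have e : 2 * d * (2 * d : ℝ) ^ (-1 + η) = (2 * d : ℝ) ^ η := by
          rw [Real.rpow_add (by positivity), Real.rpow_neg_one]
          field_simp
        rw [e]
        have hd1' : (1:ℝ) ≤ d := by exact_mod_cast hd1
        exact Real.one_le_rpow (by linarith) hη0.le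
      calc ((X / d : ℕ) : ℝ) ^ (-1 + η) ≤ (2 * d * (2 * d : ℝ) ^ (-1 + η)) * ((X / d : ℕ) : ℝ) ^ (-1 + η) :=
            le_mul_of_one_le_left (by positivity) h9
        _ = 2 * d * ((2 * d : ℝ) ^ (-1 + η) * ((X / d : ℕ) : ℝ) ^ (-1 + η)) := by ring
        _ ≤ _ := by gcongr
    have h10 : (d : ℝ) ^ (s - 2) * d ≤ (X : ℝ) ^ (2 * η) * (d : ℝ) ^ (-s) := by
      have e : (d : ℝ) ^ (s - 2) * d = (d : ℝ) ^ (2 * η) * (d : ℝ) ^ (-s) := by
        nth_rw 2 [← Real.rpow_one (d : ℝ)]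
        rw [← Real.rpow_add hd0, ← Real.rpow_add hd0]
        congr 1
        rw [hs]; ring
      rw [e]
      have : (d : ℝ) ≤ X := by exact_mod_cast hd2
      gcongr
    calc _ ≤ ENNReal.ofReal (2 * (K * (gm C0 (η / 2) d * (d : ℝ) ^ (s - 2)))) *
          ENNReal.ofReal (C1 * T ^ η * T ^ (2 * k) * ((X / d : ℕ) : ℝ) ^ (-1 + η)) := by gcongr
      _ = ENNReal.ofReal (2 * (K * (gm C0 (η / 2) d * (d : ℝ) ^ (s - 2))) *
          (C1 * T ^ η * T ^ (2 * k) * ((X / d : ℕ) : ℝ) ^ (-1 + η))) := by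
          rw [← ENNReal.ofReal_mul (by positivity)]
      _ ≤ _ := by
          refine ENNReal.ofReal_le_ofReal ?_
          calc _ ≤ 2 * (K * (gm C0 (η / 2) d * (d : ℝ) ^ (s - 2))) *
                (C1 * T ^ η * T ^ (2 * k) * (2 * d * (X : ℝ) ^ (-1 + η))) := by gcongr
            _ = 2 * (K * (C1 * T ^ η * T ^ (2 * k) * (2 * (X : ℝ) ^ (-1 + η)))) *
                (gm C0 (η / 2) d * ((d : ℝ) ^ (s - 2) * d)) := by ring
            _ ≤ 2 * (K * (C1 * T ^ η * T ^ (2 * k) * (2 * (X : ℝ) ^ (-1 + η)))) *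
                (gm C0 (η / 2) d * ((X : ℝ) ^ (2 * η) * (d : ℝ) ^ (-s))) := by gcongr
            _ = 2 * (K * (C1 * T ^ η * T ^ (2 * k) * (2 * ((X : ℝ) ^ (-1 + η) * (X : ℝ) ^ (2 * η))))) *
                (gm C0 (η / 2) d * (d : ℝ) ^ (-s)) := by ring
            _ = _ := by
                rw [← Real.rpow_add hX0]
                congr 6
                ring
  refine (add_le_add (Finset.sum_le_sum hA) le_rfl).trans ?_
  rw [← ENNReal.ofReal_sum_of_nonneg (fun d _ => by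
      have := gm_nonneg (ε := η / 2) hC0.le d
      positivity), ← Finset.mul_sum, ← ENNReal.ofReal_mul (by positivity),
    ← ENNReal.ofReal_add (mul_nonneg (by positivity) (Finset.sum_nonneg fun d _ =>
      mul_nonneg (gm_nonneg hC0.le d) (by positivity))) (by positivity)]
  refine ENNReal.ofReal_le_ofReal ?_
  have h5 := hexp (3 * η) le_rfl
  calc _ ≤ 2 * (K * (C1 * T ^ η * T ^ (2 * k) * (2 * (4 * T ^ (3 * η) * T⁻¹)))) * K +
        2 * (C2 ^ 2 * C3 * (4 * T ^ (3 * η) * T⁻¹)) * T ^ (2 * k) := by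
        gcongr
        · exact Finset.sum_nonneg fun d _ => mul_nonneg (gm_nonneg hC0.le d) (by positivity)
        · exact hK X
    _ ≤ 2 * (K * (C1 * T ^ η * T ^ (2 * k) * (2 * (4 * T ^ (3 * η) * T⁻¹)))) * K +
        T ^ η * (2 * (C2 ^ 2 * C3 * (4 * T ^ (3 * η) * T⁻¹)) * T ^ (2 * k)) :=
        add_le_add le_rfl (le_mul_of_one_le_left (by positivity) hTη1)
    _ = (2 * (K * (K * (C1 * 2) * 4)) + 2 * (C2 ^ 2 * C3 * 4)) * (T ^ η * T ^ (3 * η)) * T ^ (2 * k) * T⁻¹ := by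
        ring
    _ = _ := by rw [hTη]

end

end Pool.Agent.D0H82.SR
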