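import Pool.Agent.D0H82.SR.Stm
import Pool.Agent.TH612.GS.Asm3

set_option autoImplicit false

/-! Translation of the shifts. -/

namespace Pool.Agent.D0H82.SR

open Complex Filter Topology MeasureTheory Set
open Pool.Agent.TH612.CF
open Pool.Agent.TH612.GS
open Pool.Agent.W182.KO hiding DD ee SS_summable

noncomputable section

variable {k : ℕ}

lemma FH_trans (a b : Fin k → ℂ) (c : ℂ) :
    FH (fun j => a j + c) (fun j => b j + c) = FH a b := by
  unfold FH
  refine tprod_congr fun p => ?_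
  unfold lh
  congr 1
  · refine Finset.prod_congr rfl fun j _ => Finset.prod_congr rfl fun l _ => ?_
    congr 2
    ring
  · refine tsum_congr fun m => ?_
    unfold lt
    have e1 : (fun j => I * (b j + c)) = fun j : Fin k => I * b j + I * c := by
      funext j; ring
    have e2 : (fun j => -(I * (a j + c))) = fun j : Fin k => -(I * a j) + -(I * c) := by
      funext j; ring
    have hp0 : (((p : ℕ) ^ m : ℕ) : ℂ) ≠ 0 := by
      exact_mod_cast pow_ne_zero m p.2.ne_zero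
    rw [e1, e2, tau_shift, tau_shift]
    have e3 : (((p : ℕ) ^ m : ℕ) : ℂ) ^ (I * c) * (((p : ℕ) ^ m : ℕ) : ℂ) ^ (-(I * c)) = 1 := by
      rw [← Complex.cpow_add _ _ hp0]
      simp
    calc _ = ((((p : ℕ) ^ m : ℕ) : ℂ) ^ (I * c) * (((p : ℕ) ^ m : ℕ) : ℂ) ^ (-(I * c))) *
          (tau (fun j => I * b j) ((p : ℕ) ^ m) * tau (fun j => -(I * a j)) ((p : ℕ) ^ m) *
            (((p : ℕ) : ℂ) ^ m)⁻¹) := by ring
      _ = _ := by rw [e3, one_mul]

lemma zp_trans (γ : Fin k ⊕ Fin k → ℝ) (A : ℝ) (π : Equiv.Perm (Fin k ⊕ Fin k)) :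
    zp (fun i => γ i + A) π = zp γ π := by
  unfold zp zab
  have h := FH_trans (fun j => (γ (π (Sum.inl j)) : ℂ)) (fun j => (γ (π (Sum.inr j)) : ℂ)) (A : ℂ)
  have e1 : FH (fun j => ((γ (π (Sum.inl j)) + A : ℝ) : ℂ)) (fun j => ((γ (π (Sum.inr j)) + A : ℝ) : ℂ)) =
      FH (fun j => (γ (π (Sum.inl j)) : ℂ)) (fun j => (γ (π (Sum.inr j)) : ℂ)) := by
    rw [← h]
    push_cast
    rfl
  rw [e1]
  congr 1
  refine Finset.prod_congr rfl fun j _ => Finset.prod_congr rfl fun l _ => ?_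
  congr 1
  push_cast
  ring

lemma GG_trans (γ : Fin k ⊕ Fin k → ℝ) (A t : ℝ) (π : Equiv.Perm (Fin k ⊕ Fin k)) :
    GG (t + A) (fun i => (γ i : ℂ)) π = GG t (fun i => ((γ i + A : ℝ) : ℂ)) π := by
  unfold GG
  congr 1
  · refine Finset.prod_congr rfl fun j _ => ?_
    split_ifs
    · congr 1
      push_cast
      ring
    · rfl
  · refine Finset.prod_congr rfl fun j _ => ?_
    split_ifs
    · congr 1
      push_cast
      ring
    · rfl

lemma Zg_trans (γ : Fin k ⊕ Fin k → ℝ) (A t : ℝ) : Zg γ (t + A) = Zg (fun i => γ i + A) t := by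
  rw [Zg_fz, Zg_fz]
  refine Finset.prod_congr rfl fun j _ => ?_
  congr 2
  · ring
  · ring_nf

/-- translation -/
theorem DD_trans (A B : ℝ) (γ : Fin k ⊕ Fin k → ℝ) :
    DD B γ - DD A γ = DD (B - A) (fun i => γ i + A) := by
  have hc : Continuous fun t : ℝ => Zg γ t - ((Nat.factorial k : ℂ) ^ 2)⁻¹ *
      Qs t (fun i => (γ i : ℂ)) := (Zg_cont γ).sub (continuous_const.mul (Qs_cont γ))
  have e1 : DD B γ - DD A γ = ∫ t in A..B, (Zg γ t - ((Nat.factorial k : ℂ) ^ 2)⁻¹ *
      Qs t (fun i => (γ i : ℂ))) := by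
    unfold DD
    exact intervalIntegral.integral_interval_sub_left (hc.intervalIntegrable _ _)
      (hc.intervalIntegrable _ _)
  have e2 := intervalIntegral.integral_comp_add_right (a := 0) (b := B - A)
    (fun t : ℝ => Zg γ t - ((Nat.factorial k : ℂ) ^ 2)⁻¹ * Qs t (fun i => (γ i : ℂ))) A
  rw [zero_add, sub_add_cancel] at e2
  rw [e1, ← e2]
  unfold DD
  refine intervalIntegral.integral_congr fun t _ => ?_
  simp only
  rw [Zg_trans, Qs_zp, Qs_zp]
  congr 2
  refine Finset.sum_congr rfl fun π _ => ?_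
  rw [GG_trans, zp_trans]

end

end Pool.Agent.D0H82.SR
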