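import Pool.Agent.D0H82.SR.Q

set_option autoImplicit false

/-! FIN: the numbers. -/

namespace Pool.Agent.D0H82.SR

open Complex Filter Topology MeasureTheory Set
open Pool.Agent.TH612.CF
open Pool.Agent.TH612.GS

noncomputable section

variable {k : ℕ}

/-- union over the increments -/
lemma UA_le (hINV : S_INV) {C η T ε : ℝ} (hC : 0 < C) (hT : 1 ≤ T) {M : ℕ} (hM1 : 1 ≤ M)
    (hMT : ((2 ^ M : ℕ) : ℝ) ≤ 3 * T)
    (h : ∀ A B : ℝ, 0 ≤ A → A ≤ B → A ≤ 3 * T → B - A ≤ 4 * T →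
      ∫⁻ γ in Em k T, ENNReal.ofReal (‖DD B γ - DD A γ‖ ^ 2) ≤
        ENNReal.ofReal (C * T ^ η * T ^ (2 * k) * (B - A))) :
    volume (⋃ L ∈ Finset.Icc 1 M, ⋃ r ∈ Finset.range L, ⋃ m ∈ Finset.range (2 ^ (L - r)),
        BA k T ε L r m) ≤
      ENNReal.ofReal (18 * (M : ℝ) ^ 4 * (C * T ^ η * T ^ (2 * k) * (T ^ (2 * ε))⁻¹)) := by
  have hT0 : 0 < T := by linarith
  set D : ℝ := C * T ^ η * T ^ (2 * k) * (T ^ (2 * ε))⁻¹ with hD
  have hD0 : 0 ≤ D := by positivity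
  have h1 : ∀ L ∈ Finset.Icc 1 M, volume (⋃ r ∈ Finset.range L, ⋃ m ∈ Finset.range (2 ^ (L - r)),
      BA k T ε L r m) ≤ ENNReal.ofReal (18 * (M : ℝ) ^ 3 * D) := by
    intro L hL
    obtain ⟨hL1, hLM⟩ := Finset.mem_Icc.1 hL
    have hLT : ((2 ^ L : ℕ) : ℝ) ≤ 3 * T := by
      refine le_trans ?_ hMT
      exact_mod_cast Nat.pow_le_pow_right (by norm_num) hLM
    have h2 : ∀ r ∈ Finset.range L, volume (⋃ m ∈ Finset.range (2 ^ (L - r)), BA k T ε L r m) ≤
        ENNReal.ofReal (18 * (M : ℝ) ^ 2 * D) := by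
      intro r hr
      have hr' := Finset.mem_range.1 hr
      refine (measure_biUnion_finset_le _ _).trans ?_
      calc ∑ m ∈ Finset.range (2 ^ (L - r)), volume (BA k T ε L r m)
          ≤ ∑ _m ∈ Finset.range (2 ^ (L - r)), ENNReal.ofReal (C * T ^ η * T ^ (2 * k) * 2 ^ r *
            (18 * L ^ 2 / (2 ^ L * T ^ (2 * ε)))) := by
            refine Finset.sum_le_sum fun m hm => ?_
            exact BA_le hINV hC hT h hL1 hr' (Finset.mem_range.1 hm) hLT
        _ = ENNReal.ofReal (((2 ^ (L - r) : ℕ) : ℝ) * (C * T ^ η * T ^ (2 * k) * 2 ^ r *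
            (18 * L ^ 2 / (2 ^ L * T ^ (2 * ε))))) := by
            rw [Finset.sum_const, Finset.card_range, nsmul_eq_mul,
              ENNReal.ofReal_mul (p := ((2 ^ (L - r) : ℕ) : ℝ)) (by positivity),
              ENNReal.ofReal_natCast]
        _ ≤ _ := by
            refine ENNReal.ofReal_le_ofReal ?_
            have e : (2:ℝ) ^ L = 2 ^ (L - r) * 2 ^ r := by rw [← pow_add]; congr 1; omega
            have hLr : (L : ℝ) ≤ M := by exact_mod_cast hLM
            calc _ = 18 * (L : ℝ) ^ 2 * D := by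
                  rw [hD, e]
                  push_cast
                  field_simp
              _ ≤ _ := by gcongr
    refine (measure_biUnion_finset_le _ _).trans ?_
    calc _ ≤ ∑ _r ∈ Finset.range L, ENNReal.ofReal (18 * (M : ℝ) ^ 2 * D) := Finset.sum_le_sum h2
      _ = ENNReal.ofReal ((L : ℝ) * (18 * (M : ℝ) ^ 2 * D)) := by
          rw [Finset.sum_const, Finset.card_range, nsmul_eq_mul,
            ENNReal.ofReal_mul (p := (L : ℝ)) (by positivity), ENNReal.ofReal_natCast]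
      _ ≤ _ := by
          refine ENNReal.ofReal_le_ofReal ?_
          have hLr : (L : ℝ) ≤ M := by exact_mod_cast hLM
          calc _ ≤ (M : ℝ) * (18 * (M : ℝ) ^ 2 * D) := by gcongr
            _ = _ := by ring
  refine (measure_biUnion_finset_le _ _).trans ?_
  calc _ ≤ ∑ _L ∈ Finset.Icc 1 M, ENNReal.ofReal (18 * (M : ℝ) ^ 3 * D) := Finset.sum_le_sum h1
    _ = ENNReal.ofReal ((M : ℝ) * (18 * (M : ℝ) ^ 3 * D)) := by
        rw [Finset.sum_const, Nat.card_Icc, Nat.add_sub_cancel, nsmul_eq_mul,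
          ENNReal.ofReal_mul (p := (M : ℝ)) (by positivity), ENNReal.ofReal_natCast]
    _ = _ := by
        congr 1
        ring

/-- union over the local integrals -/
lemma UB_le {C T ε : ℝ} (hC : 0 < C) (hT : 1 ≤ T)
    (h : ∀ A B : ℝ, 0 ≤ A → A ≤ B → B ≤ 4 * T →
      ∫⁻ γ, ENNReal.ofReal ((∫ t in A..B, ‖∏ j : Fin k, z (t + γ (Sum.inl j)) *
        (starRingEnd ℂ) (z (t + γ (Sum.inr j)))‖) ^ 2) ∂(mP (Fin k ⊕ Fin k) (4 * T)) ≤
      ENNReal.ofReal (C * (B - A) ^ 2 * Real.log (4 * T) ^ (2 * k) * (4 * T) ^ (2 * k))) :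
    mP (Fin k ⊕ Fin k) (4 * T) (⋃ n ∈ Finset.Icc 1 ⌊T⌋₊, BB k T ε n) ≤ ENNReal.ofReal
      (C * Real.log (4 * T) ^ (2 * k) * (4 * T) ^ (2 * k) * (9 / T ^ (2 * ε)) * (1 + Real.log T)) := by
  have hT0 : 0 < T := by linarith
  have hlog : 0 ≤ Real.log (4 * T) := Real.log_nonneg (by linarith)
  refine (measure_biUnion_finset_le _ _).trans ?_
  calc _ ≤ ∑ n ∈ Finset.Icc 1 ⌊T⌋₊, ENNReal.ofReal
        (C * Real.log (4 * T) ^ (2 * k) * (4 * T) ^ (2 * k) * (9 / T ^ (2 * ε)) * (n : ℝ)⁻¹) := by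
        refine Finset.sum_le_sum fun n hn => ?_
        obtain ⟨h1, h2⟩ := Finset.mem_Icc.1 hn
        exact BB_le hT h h1 ((Nat.le_floor_iff hT0.le).1 h2)
    _ = ENNReal.ofReal (C * Real.log (4 * T) ^ (2 * k) * (4 * T) ^ (2 * k) * (9 / T ^ (2 * ε)) *
        ∑ n ∈ Finset.Icc 1 ⌊T⌋₊, (n : ℝ)⁻¹) := by
        rw [Finset.mul_sum, ENNReal.ofReal_sum_of_nonneg fun n _ => by positivity]
    _ ≤ _ := by
        refine ENNReal.ofReal_le_ofReal ?_
        refine mul_le_mul_of_nonneg_left ((harm _).trans ?_) (by positivity)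
        have h3 : Real.log (⌊T⌋₊ : ℝ) ≤ Real.log T := by
          refine Real.log_le_log ?_ (Nat.floor_le hT0.le)
          have : 1 ≤ ⌊T⌋₊ := (Nat.one_le_floor_iff _).2 hT
          exact_mod_cast this
        linarith

theorem t_FIN (hMS : S_MS) (hNS : S_NS) (hZ2 : S_Z2) (hONE : S_ONE) (hINV : S_INV) : S_FIN := by
  intro k ε hε hε1
  set η : ℝ := ε / 4 with hη
  have hη0 : 0 < η := by positivity
  obtain ⟨C1, T1, hC1, hT1, h1⟩ := inc_L2 hMS k hη0
  obtain ⟨C2, T2, hC2, hT2, h2⟩ := hZ2 k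
  obtain ⟨C3, T3, hC3, hT3, h3⟩ := hONE
  obtain ⟨C4, hC4, h4⟩ := logpow 4 hη0
  obtain ⟨C5, hC5, h5⟩ := logpow (2 * k + 1) hη0
  obtain ⟨C6, hC6, h6⟩ := logpow (k ^ 2) (ε := ε / 2) (by positivity)
  -- constants of the three terms
  set K1 : ℝ := 8 * k ^ 2 * 4 ^ (2 * k) with hK1
  set K2 : ℝ := 288 * C4 * C1 with hK2
  set K3 : ℝ := C2 * 4 ^ (2 * k) * 9 * (C5 * 4) with hK3
  set K4 : ℝ := Fintype.card (Equiv.Perm (Fin k ⊕ Fin k)) * (BF k (1 / 8) * C3 ^ (k ^ 2) * (C6 * 4)) with hK4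
  obtain ⟨S1, hS1, g1⟩ := ev_pow (3 * K1) (η := 1 / 2 - ε) (by linarith)
  obtain ⟨S2, hS2, g2⟩ := ev_pow (3 * K2) (η := ε / 2) (by positivity)
  obtain ⟨S3, hS3, g3⟩ := ev_pow (3 * K3) (η := 3 * ε / 4) (by positivity)
  obtain ⟨S4, hS4, g4⟩ := ev_pow (3 * K4) (η := ε / 2) (by positivity)
  refine ⟨max (max (max T1 T2) (max T3 4)) (max (max S1 S2) (max S3 S4)), fun T hT => ?_⟩
  have a0 := (le_max_left _ _).trans hT
  have b0 := (le_max_right _ _).trans hT
  have hTT1 : T1 ≤ T := ((le_max_left _ _).trans (le_max_left _ _)).trans a0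
  have hTT2 : T2 ≤ T := ((le_max_right _ _).trans (le_max_left _ _)).trans a0
  have hTT3 : T3 ≤ T := ((le_max_left _ _).trans (le_max_right _ _)).trans a0
  have hT4 : 4 ≤ T := ((le_max_right _ _).trans (le_max_right _ _)).trans a0
  have hSS1 : S1 ≤ T := ((le_max_left _ _).trans (le_max_left _ _)).trans b0
  have hSS2 : S2 ≤ T := ((le_max_right _ _).trans (le_max_left _ _)).trans b0
  have hSS3 : S3 ≤ T := ((le_max_left _ _).trans (le_max_right _ _)).trans b0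
  have hSS4 : S4 ≤ T := ((le_max_right _ _).trans (le_max_right _ _)).trans b0
  have hTg1 : 1 ≤ T := by linarith
  have hT0 : 0 < T := by linarith
  have h4T : (1:ℝ) ≤ 4 * T := by linarith
  have hlogT : 0 ≤ Real.log T := Real.log_nonneg hTg1
  have hlog4 : 0 ≤ Real.log (4 * T) := Real.log_nonneg h4T
  have hlogle : Real.log T ≤ Real.log (4 * T) := Real.log_le_log hT0 (by linarith)
  have hone := (h3 (4 * T) 1 (by linarith) le_rfl (by
    push_cast
    exact Real.one_le_rpow h4T (by norm_num))).1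
  -- the constant ZB
  have hZB : Fintype.card (Equiv.Perm (Fin k ⊕ Fin k)) * ZB k C3 (4 * T) ≤ T ^ ε / 3 := by
    have hp : ZB k C3 (4 * T) ≤ BF k (1 / 8) * C3 ^ (k ^ 2) * (C6 * 4) * T ^ (ε / 2) := by
      unfold ZB
      have hB : 0 ≤ BF k (1 / 8) := (Real.exp_pos _).le
      rw [mul_pow]
      have q1 : Real.log (4 * T) ^ (k ^ 2) ≤ C6 * 4 * T ^ (ε / 2) := by
        calc Real.log (4 * T) ^ (k ^ 2) ≤ (1 + Real.log (4 * T)) ^ (k ^ 2) :=
              pow_le_pow_left₀ hlog4 (by linarith) _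
          _ ≤ C6 * (4 * T) ^ (ε / 2) := h6 _ h4T
          _ = C6 * (4 ^ (ε / 2) * T ^ (ε / 2)) := by rw [Real.mul_rpow (by norm_num) hT0.le]
          _ ≤ C6 * (4 ^ (1:ℝ) * T ^ (ε / 2)) := by
              gcongr
              · norm_num
              · linarith
          _ = _ := by rw [Real.rpow_one]; ring
      calc _ ≤ BF k (1 / 8) * (C3 ^ (k ^ 2) * (C6 * 4 * T ^ (ε / 2))) := by gcongr
        _ = _ := by ring
    have hq := g4 T hSS4
    have e : T ^ ε = T ^ (ε / 2) * T ^ (ε / 2) := by rw [← Real.rpow_add hT0]; congr 1; ring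
    have hpos : 0 ≤ T ^ (ε / 2) := by positivity
    calc _ ≤ Fintype.card (Equiv.Perm (Fin k ⊕ Fin k)) *
          (BF k (1 / 8) * C3 ^ (k ^ 2) * (C6 * 4) * T ^ (ε / 2)) := by gcongr
      _ = K4 * T ^ (ε / 2) := by rw [hK4]; ring
      _ ≤ _ := by
          rw [e]
          nlinarith
  -- the number of scales
  set N : ℕ := ⌊T⌋₊ with hN
  have hN1 : 1 ≤ N := (Nat.one_le_floor_iff _).2 hTg1
  have hNT : (N : ℝ) ≤ T := Nat.floor_le hT0.le
  set M : ℕ := Nat.log 2 N + 1 with hM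
  have hM1 : 1 ≤ M := by omega
  have hpow : 2 ^ (M - 1) ≤ N := by
    rw [hM, Nat.add_sub_cancel]
    exact Nat.pow_log_le_self 2 (by omega)
  have hpow2 : ((2 ^ (M - 1) : ℕ) : ℝ) ≤ T := le_trans (by exact_mod_cast hpow) hNT
  have hMT : ((2 ^ M : ℕ) : ℝ) ≤ 3 * T := by
    have e : 2 ^ M = 2 * 2 ^ (M - 1) := by
      rw [← pow_succ']
      congr 1
    rw [e]
    push_cast at hpow2 ⊢
    linarith
  have hMlog : (M : ℝ) ≤ 2 * (1 + Real.log T) := by
    have q1 : Real.log ((2 ^ (M - 1) : ℕ) : ℝ) ≤ Real.log T := Real.log_le_log (by positivity) hpow2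
    push_cast at q1
    rw [Real.log_pow] at q1
    have q2 : (1:ℝ) / 2 < Real.log 2 := by
      have := Real.log_two_gt_d9
      linarith
    have q3 : ((M - 1 : ℕ) : ℝ) = M - 1 := by
      rw [Nat.cast_sub hM1]
      norm_num
    rw [q3] at q1
    have q4 : (0:ℝ) ≤ (M : ℝ) - 1 := by
      rw [← q3]
      positivity
    nlinarith
  have hM4 : (M : ℝ) ^ 4 ≤ 16 * (C4 * T ^ η) := by
    calc (M : ℝ) ^ 4 ≤ (2 * (1 + Real.log T)) ^ 4 := pow_le_pow_left₀ (by positivity) hMlog 4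
      _ = 16 * (1 + Real.log T) ^ 4 := by ring
      _ ≤ _ := by
          gcongr
          exact h4 T hTg1
  -- the measures
  have hUA := UA_le (k := k) (ε := ε) hINV hC1 hTg1 hM1 hMT
    (fun A B hA hAB hAT hBA => h1 T A B hTT1 hA hAB hAT hBA)
  have hUB := UB_le (k := k) (ε := ε) (C := C2) hC2 hTg1
    (fun A B hA hAB hB => h2 (4 * T) A B (by linarith) hA hAB hB)
  have hUS := hNS k (4 * T) h4T
  have hcov := cover (k := k) hTg1 hC3 hone hZB
  have hmP : mP (Fin k ⊕ Fin k) T (BadS k T ε) = mP (Fin k ⊕ Fin k) (4 * T) (BadS k T ε) := by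
    rw [← vol_cube (T := T) fun γ hγ => hγ.1, ← vol_cube (T := 4 * T) fun γ hγ i =>
      ⟨(hγ.1 i).1, (hγ.1 i).2.trans (by linarith)⟩]
  rw [hmP]
  refine (measure_mono hcov).trans ((measure_union_le _ _).trans
    ((add_le_add le_rfl (measure_union_le _ _)).trans ?_))
  have hUA' : mP (Fin k ⊕ Fin k) (4 * T) (⋃ L ∈ Finset.Icc 1 M, ⋃ r ∈ Finset.range L,
      ⋃ m ∈ Finset.range (2 ^ (L - r)), BA k T ε L r m) ≤
      ENNReal.ofReal (18 * (M : ℝ) ^ 4 * (C1 * T ^ η * T ^ (2 * k) * (T ^ (2 * ε))⁻¹)) := by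
    rw [mP_eq]
    exact (Measure.restrict_apply_le _ _).trans hUA
  have hTk : T ^ (2 * k) = T ^ ((2 * k : ℕ) : ℝ) := (Real.rpow_natCast _ _).symm
  -- first
  have r1 : 8 * (k : ℝ) ^ 2 * (4 * T) ^ (2 * k - 1 / 2 : ℝ) ≤ 1 / 3 * T ^ (2 * k - ε : ℝ) := by
    have q : (4 * T) ^ (2 * k - 1 / 2 : ℝ) ≤ 4 ^ (2 * k) * T ^ (2 * k - 1 / 2 : ℝ) := by
      rw [Real.mul_rpow (by norm_num) hT0.le]
      refine mul_le_mul_of_nonneg_right ?_ (by positivity)
      rw [← Real.rpow_natCast 4]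
      refine Real.rpow_le_rpow_of_exponent_le (by norm_num) ?_
      push_cast
      linarith
    calc _ ≤ 8 * (k : ℝ) ^ 2 * (4 ^ (2 * k) * T ^ (2 * k - 1 / 2 : ℝ)) := by gcongr
      _ = K1 * T ^ (2 * k - 1 / 2 : ℝ) := by rw [hK1]; ring
      _ ≤ _ := pow_cmp hT0 (by
          have e : (2 * k - ε : ℝ) - (2 * k - 1 / 2) = 1 / 2 - ε := by ring
          rw [e]
          exact g1 T hSS1)
  -- second
  have r2 : 18 * (M : ℝ) ^ 4 * (C1 * T ^ η * T ^ (2 * k) * (T ^ (2 * ε))⁻¹) ≤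
      1 / 3 * T ^ (2 * k - ε : ℝ) := by
    calc _ ≤ 18 * (16 * (C4 * T ^ η)) * (C1 * T ^ η * T ^ (2 * k) * (T ^ (2 * ε))⁻¹) := by gcongr
      _ = K2 * (T ^ η * T ^ η * T ^ ((2 * k : ℕ) : ℝ) * T ^ (-(2 * ε))) := by
          rw [hK2, hTk, Real.rpow_neg hT0.le]
          ring
      _ = K2 * T ^ (2 * k - 3 * ε / 2 : ℝ) := by
          rw [← Real.rpow_add hT0, ← Real.rpow_add hT0, ← Real.rpow_add hT0]
          congr 2
          rw [hη]
          push_cast
          ring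
      _ ≤ _ := pow_cmp hT0 (by
          have e : (2 * k - ε : ℝ) - (2 * k - 3 * ε / 2) = ε / 2 := by ring
          rw [e]
          exact g2 T hSS2)
  -- third
  have r3 : C2 * Real.log (4 * T) ^ (2 * k) * (4 * T) ^ (2 * k) * (9 / T ^ (2 * ε)) *
      (1 + Real.log T) ≤ 1 / 3 * T ^ (2 * k - ε : ℝ) := by
    have q1 : Real.log (4 * T) ^ (2 * k) * (1 + Real.log T) ≤ C5 * 4 * T ^ η := by
      calc _ ≤ (1 + Real.log (4 * T)) ^ (2 * k) * (1 + Real.log (4 * T)) := by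
            gcongr
            linarith
        _ = (1 + Real.log (4 * T)) ^ (2 * k + 1) := by rw [pow_succ]
        _ ≤ C5 * (4 * T) ^ η := h5 _ h4T
        _ = C5 * (4 ^ η * T ^ η) := by rw [Real.mul_rpow (by norm_num) hT0.le]
        _ ≤ C5 * (4 ^ (1:ℝ) * T ^ η) := by
            gcongr
            · norm_num
            · rw [hη]; linarith
        _ = _ := by rw [Real.rpow_one]; ring
    calc _ = C2 * (Real.log (4 * T) ^ (2 * k) * (1 + Real.log T)) * (4 * T) ^ (2 * k) *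
          (9 / T ^ (2 * ε)) := by ring
      _ ≤ C2 * (C5 * 4 * T ^ η) * (4 * T) ^ (2 * k) * (9 / T ^ (2 * ε)) := by gcongr
      _ = K3 * (T ^ η * T ^ ((2 * k : ℕ) : ℝ) * T ^ (-(2 * ε))) := by
          rw [hK3, mul_pow, hTk, Real.rpow_neg hT0.le, div_eq_mul_inv]
          ring
      _ = K3 * T ^ (2 * k - 7 * ε / 4 : ℝ) := by
          rw [← Real.rpow_add hT0, ← Real.rpow_add hT0]
          congr 2
          rw [hη]
          push_cast
          ring
      _ ≤ _ := pow_cmp hT0 (by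
          have e : (2 * k - ε : ℝ) - (2 * k - 7 * ε / 4) = 3 * ε / 4 := by ring
          rw [e]
          exact g3 T hSS3)
  calc _ ≤ ENNReal.ofReal (1 / 3 * T ^ (2 * k - ε : ℝ)) + (ENNReal.ofReal (1 / 3 * T ^ (2 * k - ε : ℝ)) +
        ENNReal.ofReal (1 / 3 * T ^ (2 * k - ε : ℝ))) := by
        refine add_le_add (hUS.trans (ENNReal.ofReal_le_ofReal r1))
          (add_le_add (hUA'.trans (ENNReal.ofReal_le_ofReal r2))
            (hUB.trans (ENNReal.ofReal_le_ofReal r3)))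
    _ = _ := by
        rw [← ENNReal.ofReal_add (by positivity) (by positivity),
          ← ENNReal.ofReal_add (by positivity) (by positivity)]
        congr 1
        ring

end

end Pool.Agent.D0H82.SR
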